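import Pool.Agent.H20.E1.QE2

set_option autoImplicit false

/-!
# Blocks of quantifiers, and `E_1` formulas in block form
-/

namespace Pool.Agent.H20.E1

/-- no variable with index below `k` occurs -/
def Tm.NoV {N : ℕ} (k : ℕ) : Tm N → Prop
  | .var i => k ≤ i.val
  | .zero => True
  | .one => True
  | .add s t => s.NoV k ∧ t.NoV k
  | .mul s t => s.NoV k ∧ t.NoV k

/-- The variables up to `k` (they are the bound ones, `k` is the first of them) occur only linearly, with
coefficients in which none of them occurs, except for the square of the variable `k`. -/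
def Tm.PLin {N : ℕ} (k : ℕ) : Tm N → Prop
  | .var _ => True
  | .zero => True
  | .one => True
  | .add s t => s.PLin k ∧ t.PLin k
  | .mul s t => (∃ i : Fin N, i.val = k ∧ s = .var i ∧ t = .var i) ∨ (s.NoV (k + 1) ∧ t.PLin k)

/-- the same for all atoms of a quantifier-free formula -/
def Fml.PLin : {N : ℕ} → ℕ → Fml N → Prop
  | _, k, .lt s t => s.PLin k ∧ t.PLin k
  | _, k, .eq s t => s.PLin k ∧ t.PLin k
  | _, k, .neg φ => φ.PLin k
  | _, k, .and φ ψ => φ.PLin k ∧ ψ.PLin k
  | _, k, .or φ ψ => φ.PLin k ∧ ψ.PLin k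
  | _, _, .ex _ _ => False
  | _, _, .all _ _ => False

/-- a block of universal quantifiers, bounded by terms in the parameters, before a quantifier-free formula as
in `Fml.PLin`; `k` quantifiers of the block are already in front, behind the first variable -/
inductive LinBlock : ℕ → {N : ℕ} → Fml N → Prop
  | qf {k N : ℕ} {α : Fml N} : α.PLin k → LinBlock k α
  | all {k N : ℕ} {t : Tm N} {φ : Fml (N + 1)} : t.NoV (k + 1) → LinBlock (k + 1) φ →
      LinBlock k (.all t φ)

/-- `∀ x ≤ t, ∀ w_1 ≤ t_1, …, α` with `α` quantifier-free and linear in `x, x * x, w_1, …` over the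
parameters -/
def OneSquare {n : ℕ} (φ : Fml n) : Prop := ∃ (t : Tm n) (ψ : Fml (n + 1)), φ = .all t ψ ∧ LinBlock 0 ψ

theorem NoV.mono {N k l : ℕ} (h : k ≤ l) {t : Tm N} (ht : t.NoV l) : t.NoV k := by
  induction t with
  | var i => exact h.trans ht
  | zero => trivial
  | one => trivial
  | add s t ihs iht => exact ⟨ihs ht.1, iht ht.2⟩
  | mul s t ihs iht => exact ⟨ihs ht.1, iht ht.2⟩

theorem NoV.plin {N k : ℕ} {t : Tm N} (ht : t.NoV (k + 1)) : t.PLin k := by
  induction t with
  | var i => trivial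
  | zero => trivial
  | one => trivial
  | add s t ihs iht => exact ⟨ihs ht.1, iht ht.2⟩
  | mul s t ihs iht => exact Or.inr ⟨ht.1, iht ht.2⟩

theorem lift_nov {N k : ℕ} {t : Tm N} (ht : t.NoV k) : t.lift.NoV (k + 1) := by
  induction t with
  | var i => exact Nat.succ_le_succ ht
  | zero => trivial
  | one => trivial
  | add s t ihs iht => exact ⟨ihs ht.1, iht ht.2⟩
  | mul s t ihs iht => exact ⟨ihs ht.1, iht ht.2⟩

theorem nov_zero {N : ℕ} (t : Tm N) : t.NoV 0 := by
  induction t with
  | var i => exact Nat.zero_le _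
  | zero => trivial
  | one => trivial
  | add s t ihs iht => exact ⟨ihs, iht⟩
  | mul s t ihs iht => exact ⟨ihs, iht⟩

def liftN {N : ℕ} : (K : ℕ) → Tm N → Tm (N + K)
  | 0, t => t
  | K + 1, t => (liftN K t).lift

theorem liftN_nov {N k : ℕ} {t : Tm N} (ht : t.NoV k) : ∀ K : ℕ, (liftN K t).NoV (k + K)
  | 0 => ht
  | K + 1 => lift_nov (liftN_nov ht K)

def appW {R : Type} {N : ℕ} : (K : ℕ) → (ℕ → R) → (Fin N → R) → (Fin (N + K) → R)
  | 0, _, v => v
  | K + 1, w, v => Fin.cons (w K) (appW K w v)

theorem appW_congr {R : Type} {N : ℕ} (v : Fin N → R) : ∀ (K : ℕ) {w w' : ℕ → R},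
    (∀ j, j < K → w j = w' j) → appW K w v = appW K w' v
  | 0, _, _, _ => rfl
  | K + 1, w, w', h => by
    show (Fin.cons (w K) (appW K w v) : Fin (N + K + 1) → R) = Fin.cons (w' K) (appW K w' v)
    rw [h K (Nat.lt_succ_self K), appW_congr v K (fun j hj => h j (hj.trans (Nat.lt_succ_self K)))]

theorem liftN_val {R : Type} [CommRing R] [LinearOrder R] {N : ℕ} (t : Tm N) (w : ℕ → R)
    (v : Fin N → R) : ∀ K : ℕ, (liftN K t).val (appW K w v) = t.val v
  | 0 => rfl
  | K + 1 => by
    show (liftN K t).lift.val (Fin.cons (w K) (appW K w v) : Fin (N + K + 1) → R) = _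
    rw [Tm.val_lift]
    exact liftN_val t w v K

/-- the term for the variable `w_j` -/
def wv {N : ℕ} : (K : ℕ) → ℕ → Tm (N + K)
  | 0, _ => .zero
  | K + 1, j => if j = K then .var 0 else (wv K j).lift

theorem wv_val {R : Type} [CommRing R] [LinearOrder R] {N : ℕ} (w : ℕ → R) (v : Fin N → R) :
    ∀ (K j : ℕ), j < K → (wv K j : Tm (N + K)).val (appW K w v) = w j
  | 0, j, h => absurd h (Nat.not_lt_zero j)
  | K + 1, j, h => by
    unfold wv
    by_cases hj : j = K
    · rw [if_pos hj, hj]
      rfl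
    · rw [if_neg hj]
      show (wv K j).lift.val (Fin.cons (w K) (appW K w v) : Fin (N + K + 1) → R) = _
      rw [Tm.val_lift]
      exact wv_val w v K j (by omega)

/-- `wv` is a variable (or `0`) -/
theorem wv_plin {N : ℕ} (k : ℕ) : ∀ (K j : ℕ), (∃ i, (wv K j : Tm (N + K)) = .var i) ∨
    (wv K j : Tm (N + K)) = .zero
  | 0, _ => Or.inr rfl
  | K + 1, j => by
    unfold wv
    by_cases hj : j = K
    · rw [if_pos hj]
      exact Or.inl ⟨0, rfl⟩
    · rw [if_neg hj]
      rcases wv_plin k K j with ⟨i, hi⟩ | hi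
      · exact Or.inl ⟨i.succ, by rw [hi]; rfl⟩
      · exact Or.inr (by rw [hi]; rfl)

theorem wv_plin' {N : ℕ} (k K j : ℕ) : (wv K j : Tm (N + K)).PLin k := by
  rcases wv_plin (N := N) k K j with ⟨i, hi⟩ | hi
  · rw [hi]; trivial
  · rw [hi]; trivial

def allN {N : ℕ} (S : Tm N) : (K : ℕ) → Fml (N + K) → Fml N
  | 0, φ => φ
  | K + 1, φ => allN S K (.all (liftN K S) φ)

theorem allN_lin {N : ℕ} {S : Tm N} (hS : S.NoV 1) : ∀ (K : ℕ) (φ : Fml (N + K)),
    LinBlock K φ → LinBlock 0 (allN S K φ)
  | 0, _, h => h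
  | K + 1, φ, h => allN_lin hS K _ (.all (NoV.mono (by omega) (liftN_nov hS K)) h)

theorem allN_holds {R : Type} [CommRing R] [LinearOrder R] {N : ℕ} (S : Tm N) (v : Fin N → R) :
    ∀ (K : ℕ) (φ : Fml (N + K)), (allN S K φ).holds v ↔
      ∀ w : ℕ → R, (∀ j, j < K → 0 ≤ w j ∧ w j ≤ S.val v) → φ.holds (appW K w v)
  | 0, φ => by
    constructor
    · intro h w _; exact h
    · intro h; exact h (fun _ => 0) (fun j hj => absurd hj (Nat.not_lt_zero j))
  | K + 1, φ => by
    show (allN S K (.all (liftN K S) φ)).holds v ↔ _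
    rw [allN_holds S v K]
    constructor
    · intro h w hw
      have h1 := h w (fun j hj => hw j (hj.trans (Nat.lt_succ_self K)))
      refine h1 (w K) (hw K (Nat.lt_succ_self K)).1 ?_
      rw [liftN_val]
      exact (hw K (Nat.lt_succ_self K)).2
    · intro h w hw a ha hat
      rw [liftN_val] at hat
      have h1 := h (fun j => if j = K then a else w j) (fun j hj => by
        by_cases hjK : j = K
        · simp only [hjK, if_true]; exact ⟨ha, hat⟩
        · simp only [hjK, if_false]; exact hw j (by omega))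
      have e : appW (K + 1) (fun j => if j = K then a else w j) v =
          (Fin.cons a (appW K w v) : Fin (N + K + 1) → R) := by
        show (Fin.cons _ _ : Fin (N + K + 1) → R) = _
        rw [appW_congr v K (w := fun j => if j = K then a else w j) (w' := w) (fun j hj => by
          have : j ≠ K := by omega
          simp [this])]
        simp
      rw [e] at h1
      exact h1

end Pool.Agent.H20.E1
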