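import Pool.Agent.H20.E1.Blk

set_option autoImplicit false

/-!
# `E_1` formulas in block form, conjunctions, sums, digits
-/

namespace Pool.Agent.H20.E1

section Ord

variable {R : Type} [CommRing R] [LinearOrder R] [IsStrictOrderedRing R]

theorem Tm.val_mono {n : ℕ} (t : Tm n) {v w : Fin n → R} (hv : ∀ i, 0 ≤ v i)
    (h : ∀ i, v i ≤ w i) : t.val v ≤ t.val w := by
  induction t with
  | var i => exact h i
  | zero => exact le_rfl
  | one => exact le_rfl
  | add s t ihs iht => exact add_le_add ihs iht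
  | mul s t ihs iht =>
    exact mul_le_mul ihs iht (Tm.val_nonneg t v hv) (Tm.val_nonneg s w fun i => (hv i).trans (h i))

theorem appW_nonneg {N : ℕ} {v : Fin N → R} (hv : ∀ i, 0 ≤ v i) {w : ℕ → R} : ∀ (K : ℕ),
    (∀ j, j < K → 0 ≤ w j) → ∀ i, 0 ≤ appW K w v i
  | 0, _ => hv
  | K + 1, h => cons_nonneg (h K (Nat.lt_succ_self K))
      (appW_nonneg hv K (fun j hj => h j (hj.trans (Nat.lt_succ_self K))))

theorem appW_mono {N : ℕ} {v : Fin N → R} {w w' : ℕ → R} : ∀ (K : ℕ),
    (∀ j, j < K → w j ≤ w' j) → ∀ i, appW K w v i ≤ appW K w' v i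
  | 0, _ => fun _ => le_rfl
  | K + 1, h => by
    intro i
    refine Fin.cases ?_ (fun i => ?_) i
    · exact h K (Nat.lt_succ_self K)
    · exact appW_mono K (fun j hj => h j (hj.trans (Nat.lt_succ_self K))) i

end Ord

section Lists

variable {n : ℕ}

def conj : List (Fml n) → Fml n
  | [] => .eq .zero .zero
  | φ :: L => .and φ (conj L)

theorem conj_holds {R : Type} [CommRing R] [LinearOrder R] (v : Fin n → R) :
    ∀ {L : List (Fml n)}, (conj L).holds v ↔ ∀ φ ∈ L, φ.holds v
  | [] => by simp [conj, Fml.holds]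
  | φ :: L => by
    simp only [conj, Fml.holds, List.forall_mem_cons]
    rw [conj_holds v (L := L)]

theorem conj_plin {k : ℕ} : ∀ {L : List (Fml n)}, (∀ φ ∈ L, φ.PLin k) → (conj L).PLin k
  | [], _ => ⟨trivial, trivial⟩
  | φ :: L, h => ⟨h φ (List.mem_cons_self ..),
      conj_plin (fun ψ hψ => h ψ (List.mem_cons_of_mem _ hψ))⟩

theorem conj_qf : ∀ {L : List (Fml n)}, (∀ φ ∈ L, φ.IsQF) → (conj L).IsQF
  | [], _ => trivial
  | φ :: L, h => ⟨h φ (List.mem_cons_self ..),
      conj_qf (fun ψ hψ => h ψ (List.mem_cons_of_mem _ hψ))⟩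

/-- sums -/
def lsum (f : ℕ → Tm n) : ℕ → Tm n
  | 0 => .zero
  | k + 1 => .add (lsum f k) (f k)

theorem lsum_val {R : Type} [CommRing R] [LinearOrder R] (f : ℕ → Tm n) (v : Fin n → R) (k : ℕ) :
    (lsum f k).val v = ∑ i ∈ Finset.range k, (f i).val v := by
  induction k with
  | zero => rfl
  | succ k ih =>
    rw [Finset.sum_range_succ, ← ih]
    rfl

theorem lsum_plin {k : ℕ} {f : ℕ → Tm n} (h : ∀ i, (f i).PLin k) (m : ℕ) : (lsum f m).PLin k := by
  induction m with
  | zero => trivial
  | succ m ih => exact ⟨ih, h m⟩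

/-- powers -/
def powT (t : Tm n) : ℕ → Tm n
  | 0 => .one
  | k + 1 => .mul (powT t k) t

theorem powT_val {R : Type} [CommRing R] [LinearOrder R] (t : Tm n) (v : Fin n → R) (k : ℕ) :
    (powT t k).val v = t.val v ^ k := by
  induction k with
  | zero => simp [powT, Tm.val]
  | succ k ih => simp only [powT, Tm.val, ih, pow_succ]

end Lists

section Digits

variable {R : Type} [CommRing R] [LinearOrder R] [IsStrictOrderedRing R]

/-- digit expansions are unique -/
theorem digits_unique (hd : ∀ a : R, 0 < a → 1 ≤ a) {C : R} (hC : 0 < C) : ∀ (m : ℕ) (a b : ℕ → R),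
    (∀ i, i < m → 0 ≤ a i ∧ a i < C) → (∀ i, i < m → 0 ≤ b i ∧ b i < C) →
    ∑ i ∈ Finset.range m, C ^ i * a i = ∑ i ∈ Finset.range m, C ^ i * b i →
    ∀ i, i < m → a i = b i := by
  intro m
  induction m with
  | zero => intro a b _ _ _ i hi; exact absurd hi (Nat.not_lt_zero i)
  | succ m ih =>
    intro a b ha hb h
    rw [Finset.sum_range_succ', Finset.sum_range_succ'] at h
    simp only [pow_zero, one_mul] at h
    have e : ∀ f : ℕ → R, ∑ i ∈ Finset.range m, C ^ (i + 1) * f (i + 1) =
        C * ∑ i ∈ Finset.range m, C ^ i * f (i + 1) := by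
      intro f
      rw [Finset.mul_sum]
      refine Finset.sum_congr rfl (fun i _ => by ring)
    rw [e a, e b] at h
    set A := ∑ i ∈ Finset.range m, C ^ i * a (i + 1)
    set B := ∑ i ∈ Finset.range m, C ^ i * b (i + 1)
    have ha0 := ha 0 (Nat.succ_pos m)
    have hb0 := hb 0 (Nat.succ_pos m)
    have hAB : A = B := by
      rcases lt_trichotomy A B with h1 | h1 | h1
      · exfalso
        have h2 := hd (B - A) (sub_pos.2 h1)
        have h3 : C * 1 ≤ C * (B - A) := mul_le_mul_of_nonneg_left h2 hC.le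
        linarith [mul_sub C B A]
      · exact h1
      · exfalso
        have h2 := hd (A - B) (sub_pos.2 h1)
        have h3 : C * 1 ≤ C * (A - B) := mul_le_mul_of_nonneg_left h2 hC.le
        linarith [mul_sub C A B]
    have h0 : a 0 = b 0 := by
      rw [hAB] at h
      linarith
    intro i hi
    rcases i with _ | i
    · exact h0
    · exact ih (fun i => a (i + 1)) (fun i => b (i + 1)) (fun j hj => ha (j + 1) (by omega))
        (fun j hj => hb (j + 1) (by omega)) hAB i (by omega)

/-- the product of two digit sums -/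
theorem prod_digits (C : R) (m : ℕ) (a b : ℕ → R) : ∀ r : ℕ, r ≤ m →
    (∑ i ∈ Finset.range m, C ^ i * a i) * (∑ j ∈ Finset.range r, C ^ (m * j) * b j) =
      ∑ k ∈ Finset.range (m * r), C ^ k * (a (k % m) * b (k / m)) := by
  intro r
  induction r with
  | zero => intro _; simp
  | succ r ih =>
    intro hr
    have hm : 0 < m := by omega
    rw [Finset.sum_range_succ, mul_add, ih (by omega), Nat.mul_succ, Finset.sum_range_add]
    congr 1
    rw [Finset.sum_mul]
    refine Finset.sum_congr rfl (fun i hi => ?_)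
    have hi' := Finset.mem_range.1 hi
    have e1 : (m * r + i) % m = i := by
      rw [Nat.mul_add_mod, Nat.mod_eq_of_lt hi']
    have e2 : (m * r + i) / m = r := by
      rw [Nat.mul_add_div hm, Nat.div_eq_of_lt hi', Nat.add_zero]
    rw [e1, e2, pow_add]
    ring

end Digits

/-- `E_1` formulas in block form, with one bound in the parameters -/
theorem e1_block {n : ℕ} {φ : Fml n} (h : IsE1 φ) : ∃ (k : ℕ) (T : Tm n) (θ : Fml (n + k)),
    θ.IsQF ∧ ∀ (R : Type) [CommRing R] [LinearOrder R] [IsStrictOrderedRing R] (v : Fin n → R),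
      (∀ i, 0 ≤ v i) → (φ.holds v ↔ ∃ y : ℕ → R, (∀ j, j < k → 0 ≤ y j ∧ y j ≤ T.val v) ∧
        θ.holds (appW k y v)) := by
  induction h with
  | @qf n φ h =>
    refine ⟨0, .zero, φ, h, fun R _ _ _ v _ => ?_⟩
    constructor
    · intro hh
      exact ⟨fun _ => 0, fun j hj => absurd hj (Nat.not_lt_zero j), hh⟩
    · rintro ⟨y, _, hh⟩
      exact hh
  | @ex n t φ _ ih =>
    obtain ⟨k, T, θ, hθ, hh⟩ := ih
    let τ : Fin (n + 1) → Tm n := Fin.cons t (fun i => .var i)
    let e : n + 1 + k = n + (k + 1) := by omega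
    let σ : Fin (n + 1 + k) → Tm (n + (k + 1)) := fun i => .var (Fin.cast e i)
    let τ' : Fin (n + 1) → Tm (n + (k + 1)) := Fin.cons (wv (k + 1) 0)
      (fun i => liftN (k + 1) (.var i))
    let θ' : Fml (n + (k + 1)) := .and (.and (Fml.le (wv (k + 1) 0) (liftN (k + 1) t))
      (conj ((List.range k).map (fun j => Fml.le (wv (k + 1) (j + 1)) (T.subst τ')))))
      (θ.subst σ)
    refine ⟨k + 1, .add t (T.subst τ), θ', ⟨⟨⟨trivial, trivial⟩, conj_qf (fun ψ hψ => by
      obtain ⟨j, _, rfl⟩ := List.mem_map.1 hψ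
      exact ⟨trivial, trivial⟩)⟩, Fml.isQF_subst _ _ hθ⟩, fun R _ _ _ v hv => ?_⟩
    have happ : ∀ (y : ℕ → R), (fun i => appW (k + 1) y v (Fin.cast e i)) =
        appW k (fun j => y (j + 1)) (Fin.cons (y 0) v : Fin (n + 1) → R) := by
      intro y
      have key : ∀ (k : ℕ) (e : n + 1 + k = n + (k + 1)),
          (fun i => appW (k + 1) y v (Fin.cast e i)) =
          appW k (fun j => y (j + 1)) (Fin.cons (y 0) v : Fin (n + 1) → R) := by
        intro k
        induction k with
        | zero => intro e; rfl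
        | succ k ih2 =>
          intro e
          have e' : n + 1 + k = n + (k + 1) := by omega
          have := ih2 e'
          funext i
          refine Fin.cases ?_ (fun i => ?_) i
          · rfl
          · exact congrFun this i
      exact key k e
    have hθ' : ∀ (y : ℕ → R), θ'.holds (appW (k + 1) y v) ↔
        (y 0 ≤ t.val v ∧ (∀ j, j < k → y (j + 1) ≤ T.val (Fin.cons (y 0) v : Fin (n + 1) → R))) ∧
        θ.holds (appW k (fun j => y (j + 1)) (Fin.cons (y 0) v : Fin (n + 1) → R)) := by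
      intro y
      show ((Fml.le _ _ : Fml (n + (k + 1))).holds _ ∧ (conj _).holds _) ∧ (θ.subst σ).holds _ ↔ _
      rw [Fml.holds_le, conj_holds, Fml.holds_subst, wv_val _ _ _ _ (Nat.succ_pos k), liftN_val]
      have e3 : (fun i => (σ i).val (appW (k + 1) y v)) =
          appW k (fun j => y (j + 1)) (Fin.cons (y 0) v : Fin (n + 1) → R) := by
        rw [← happ]
        rfl
      rw [e3]
      have e4 : (fun i => (τ' i).val (appW (k + 1) y v)) = (Fin.cons (y 0) v : Fin (n + 1) → R) := by
        funext i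
        refine Fin.cases ?_ (fun i => ?_) i
        · exact wv_val _ _ _ _ (Nat.succ_pos k)
        · exact liftN_val (.var i) y v (k + 1)
      refine and_congr (and_congr Iff.rfl ?_) Iff.rfl
      constructor
      · intro h1 j hj
        have h2 := h1 _ (List.mem_map.2 ⟨j, List.mem_range.2 hj, rfl⟩)
        rw [Fml.holds_le, wv_val _ _ _ _ (by omega), Tm.val_subst, e4] at h2
        exact h2
      · intro h1 ψ hψ
        obtain ⟨j, hj, rfl⟩ := List.mem_map.1 hψ
        rw [Fml.holds_le, wv_val _ _ _ _ (by have := List.mem_range.1 hj; omega), Tm.val_subst, e4]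
        exact h1 j (List.mem_range.1 hj)
    have hTτ : (T.subst τ).val v = T.val (Fin.cons (t.val v) v : Fin (n + 1) → R) := by
      rw [Tm.val_subst]
      congr 1
      funext i
      refine Fin.cases ?_ (fun i => ?_) i
      · rfl
      · rfl
    have ht0 : 0 ≤ t.val v := Tm.val_nonneg t v hv
    have hT0 : 0 ≤ (T.subst τ).val v := Tm.val_nonneg _ v hv
    constructor
    · rintro ⟨a, ha, hat, hφ⟩
      obtain ⟨y, hy, hyθ⟩ := (hh R _ (cons_nonneg ha hv)).1 hφ
      have hmono : T.val (Fin.cons a v : Fin (n + 1) → R) ≤ (T.subst τ).val v := by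
        rw [hTτ]
        refine Tm.val_mono T (cons_nonneg ha hv) (fun i => ?_)
        refine Fin.cases ?_ (fun i => ?_) i
        · exact hat
        · exact le_rfl
      refine ⟨fun j => if j = 0 then a else y (j - 1), fun j hj => ?_, ?_⟩
      · show _ ∧ _ ≤ t.val v + (T.subst τ).val v
        rcases j with _ | j
        · simp only [if_true]
          exact ⟨ha, by linarith⟩
        · have := hy j (by omega)
          simp only [Nat.succ_ne_zero, if_false, Nat.succ_sub_one, Nat.add_sub_cancel]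
          exact ⟨this.1, by linarith [this.2]⟩
      · rw [hθ']
        refine ⟨⟨by simpa using hat, fun j hj => by simpa using (hy j hj).2⟩, ?_⟩
        simpa using hyθ
    · rintro ⟨y, hy, hyθ⟩
      rw [hθ'] at hyθ
      refine ⟨y 0, (hy 0 (Nat.succ_pos k)).1, hyθ.1.1, ?_⟩
      rw [hh R _ (cons_nonneg (hy 0 (Nat.succ_pos k)).1 hv)]
      exact ⟨fun j => y (j + 1), fun j hj => ⟨(hy (j + 1) (by omega)).1, hyθ.1.2 j hj⟩, hyθ.2⟩

end Pool.Agent.H20.E1
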