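import Pool.Agent.H20.E1.Sub

set_option autoImplicit false

/-!
# Differences of terms as functions of the variable `0`, and discrete calculus in a model of `IOpen`
-/

namespace Pool.Agent.H20.E1

section Fn

variable {R : Type} [CommRing R] [LinearOrder R] {n : ℕ}

/-- the function `y ↦ t(y) - s(y)` of a pair `(s, t)` of terms -/
def fn (p : Tm (n + 1) × Tm (n + 1)) (v : Fin n → R) (y : R) : R :=
  p.2.val (Fin.cons y v : Fin (n + 1) → R) - p.1.val (Fin.cons y v : Fin (n + 1) → R)

def shiftσ (n : ℕ) : Fin (n + 1) → Tm (n + 1) := Fin.cons (.add (.var 0) .one) (fun i => .var i.succ)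

theorem shift_val (t : Tm (n + 1)) (v : Fin n → R) (y : R) :
    (t.subst (shiftσ n)).val (Fin.cons y v : Fin (n + 1) → R) =
      t.val (Fin.cons (y + 1) v : Fin (n + 1) → R) := by
  rw [Tm.val_subst]
  congr 1
  funext i
  refine Fin.cases ?_ (fun i => ?_) i
  · rfl
  · rfl

/-- the pair of the difference `f(y + 1) - f(y)` -/
def dif (p : Tm (n + 1) × Tm (n + 1)) : Tm (n + 1) × Tm (n + 1) :=
  (.add (p.1.subst (shiftσ n)) p.2, .add (p.2.subst (shiftσ n)) p.1)

theorem fn_dif (p : Tm (n + 1) × Tm (n + 1)) (v : Fin n → R) (y : R) :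
    fn (dif p) v y = fn p v (y + 1) - fn p v y := by
  unfold fn dif
  simp only [Tm.val, shift_val]
  ring

/-- the difference operator on functions -/
def dl (f : R → R) : R → R := fun y => f (y + 1) - f y

/-- `f` is killed by the `k`-th difference -/
def Kil : ℕ → (R → R) → Prop
  | 0, f => ∀ y, f y = 0
  | k + 1, f => Kil k (dl f)

theorem Kil.congr {k : ℕ} : ∀ {f g : R → R}, Kil k f → (∀ y, g y = f y) → Kil k g := by
  induction k with
  | zero => intro f g h hg y; rw [hg]; exact h y
  | succ k ih =>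
    intro f g h hg
    exact ih (f := dl f) h (fun y => by unfold dl; rw [hg, hg])

theorem Kil.zero (k : ℕ) : Kil k (fun _ : R => 0) := by
  induction k with
  | zero => intro y; rfl
  | succ k ih => exact ih.congr (fun y => by unfold dl; simp)

theorem Kil.add {k : ℕ} : ∀ {f g : R → R}, Kil k f → Kil k g → Kil k (fun y => f y + g y) := by
  induction k with
  | zero => intro f g h h' y; show f y + g y = 0; rw [h y, h' y, add_zero]
  | succ k ih =>
    intro f g h h'
    exact (ih (f := dl f) (g := dl g) h h').congr (fun y => by unfold dl; ring)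

theorem Kil.sub {k : ℕ} : ∀ {f g : R → R}, Kil k f → Kil k g → Kil k (fun y => f y - g y) := by
  induction k with
  | zero => intro f g h h' y; show f y - g y = 0; rw [h y, h' y, sub_zero]
  | succ k ih =>
    intro f g h h'
    exact (ih (f := dl f) (g := dl g) h h').congr (fun y => by unfold dl; ring)

theorem Kil.succ {k : ℕ} : ∀ {f : R → R}, Kil k f → Kil (k + 1) f := by
  induction k with
  | zero =>
    intro f h
    show Kil 0 (dl f)
    intro y
    unfold dl
    rw [h, h, sub_zero]
  | succ k ih => intro f h; exact ih (f := dl f) h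

theorem Kil.mono {k l : ℕ} (hkl : k ≤ l) {f : R → R} (h : Kil k f) : Kil l f := by
  induction hkl with
  | refl => exact h
  | step _ ih => exact ih.succ

theorem Kil.shift {k : ℕ} : ∀ {f : R → R}, Kil k f → Kil k (fun y => f (y + 1)) := by
  induction k with
  | zero => intro f h y; exact h _
  | succ k ih =>
    intro f h
    exact (ih (f := dl f) h).congr (fun y => rfl)

theorem Kil.mul : ∀ (N a b : ℕ), a + b ≤ N → ∀ {f g : R → R}, Kil a f → Kil b g →
    Kil (a + b) (fun y => f y * g y) := by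
  intro N
  induction N with
  | zero =>
    intro a b hab f g h h'
    have ha : a = 0 := by omega
    subst ha
    exact (Kil.zero (R := R) (0 + b)).congr (fun y => by rw [h y, zero_mul])
  | succ N ih =>
    intro a b hab f g h h'
    rcases Nat.eq_zero_or_pos a with ha | ha
    · subst ha
      exact (Kil.zero (R := R) (0 + b)).congr (fun y => by rw [h y, zero_mul])
    rcases Nat.eq_zero_or_pos b with hb | hb
    · subst hb
      exact (Kil.zero (R := R) (a + 0)).congr (fun y => by rw [h' y, mul_zero])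
    obtain ⟨a', rfl⟩ : ∃ a', a = a' + 1 := ⟨a - 1, by omega⟩
    obtain ⟨b', rfl⟩ : ∃ b', b = b' + 1 := ⟨b - 1, by omega⟩
    have h1 : Kil (a' + (b' + 1)) (fun y => dl f y * g (y + 1)) :=
      ih a' (b' + 1) (by omega) h h'.shift
    have h2 : Kil (a' + 1 + b') (fun y => f y * dl g y) := ih (a' + 1) b' (by omega) h h'
    have e1 : a' + (b' + 1) = a' + 1 + b' := by omega
    rw [e1] at h1
    have h3 := h1.add h2
    have e2 : a' + 1 + (b' + 1) = (a' + 1 + b') + 1 := by omega
    rw [e2]
    exact h3.congr (fun y => by unfold dl; ring)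

/-- a bound for the number of differences which kill a term -/
def deg : Tm (n + 1) → ℕ
  | .var _ => 2
  | .zero => 1
  | .one => 1
  | .add s t => deg s + deg t
  | .mul s t => deg s + deg t

theorem kil_term (t : Tm (n + 1)) (v : Fin n → R) :
    Kil (deg t) (fun y => t.val (Fin.cons y v : Fin (n + 1) → R)) := by
  induction t with
  | var i =>
    refine Fin.cases ?_ (fun i => ?_) i
    · intro y
      show dl (dl (fun y : R => y)) y = 0
      unfold dl
      ring
    · intro y
      show dl (dl (fun _ : R => v i)) y = 0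
      unfold dl
      ring
  | zero =>
    intro y
    show dl (fun _ : R => 0) y = 0
    unfold dl
    ring
  | one =>
    intro y
    show dl (fun _ : R => 1) y = 0
    unfold dl
    ring
  | add s t ihs iht =>
    exact (ihs.mono (Nat.le_add_right _ _)).add (iht.mono (Nat.le_add_left _ _))
  | mul s t ihs iht => exact Kil.mul _ _ _ le_rfl ihs iht

def pdeg (p : Tm (n + 1) × Tm (n + 1)) : ℕ := deg p.1 + deg p.2

theorem kil_fn (p : Tm (n + 1) × Tm (n + 1)) (v : Fin n → R) : Kil (pdeg p) (fn p v) :=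
  ((kil_term p.2 v).mono (Nat.le_add_left _ _)).sub ((kil_term p.1 v).mono (Nat.le_add_right _ _))

theorem kil_dif {k : ℕ} (p : Tm (n + 1) × Tm (n + 1)) (v : Fin n → R)
    (h : Kil (k + 1) (fn p v)) : Kil k (fn (dif p) v) :=
  Kil.congr (f := dl (fn p v)) h (fun y => by rw [fn_dif]; rfl)

end Fn

def Fml.le {n : ℕ} (s t : Tm n) : Fml n := .or (.lt s t) (.eq s t)

theorem Fml.holds_le {R : Type} [CommRing R] [LinearOrder R] {n : ℕ} (s t : Tm n) (v : Fin n → R) :
    (Fml.le s t).holds v ↔ s.val v ≤ t.val v := by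
  unfold Fml.le
  simp only [Fml.holds]
  exact le_iff_lt_or_eq.symm

section Mod

variable (M : Mdl)

theorem Mdl.succ_le {a b : M.R} (h : a < b) : a + 1 ≤ b := by
  have := M.io.disc (b - a) (sub_pos.2 h)
  linarith

theorem Mdl.lt_succ {a b : M.R} (h : a < b + 1) : a ≤ b := by
  by_contra hh
  have := M.succ_le (not_le.1 hh)
  linarith

/-- induction between `a` and `c` -/
theorem Mdl.ind_between {m : ℕ} (A : Fml (m + 1)) (hA : A.IsQF) (w : Fin m → M.R)
    (hw : ∀ i, 0 ≤ w i) {a c : M.R} (ha : 0 ≤ a) (hc : 0 ≤ c)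
    (h0 : A.holds (Fin.cons a w : Fin (m + 1) → M.R))
    (hs : ∀ y : M.R, a ≤ y → y < c → A.holds (Fin.cons y w : Fin (m + 1) → M.R) →
      A.holds (Fin.cons (y + 1) w : Fin (m + 1) → M.R)) :
    ∀ y : M.R, a ≤ y → y ≤ c → A.holds (Fin.cons y w : Fin (m + 1) → M.R) := by
  -- context of the induction formula: `z, a, c, w`
  let σ : Fin (m + 1) → Tm (m + 3) :=
    Fin.cons (.add (.var 0) (.var 1)) (fun i => .var i.succ.succ.succ)
  let B : Fml (m + 3) := .or (.neg (Fml.le (.add (.var 0) (.var 1)) (.var 2))) (A.subst σ)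
  have hBq : B.IsQF := ⟨⟨trivial, trivial⟩, Fml.isQF_subst _ _ hA⟩
  let u : Fin (m + 2) → M.R := Fin.cons a (Fin.cons c w)
  have hu : ∀ i, 0 ≤ u i := cons_nonneg ha (cons_nonneg hc hw)
  have hB : ∀ z : M.R, B.holds (Fin.cons z u : Fin (m + 3) → M.R) ↔
      (¬ (z + a ≤ c) ∨ A.holds (Fin.cons (z + a) w : Fin (m + 1) → M.R)) := by
    intro z
    show (¬ (Fml.le (.add (.var 0) (.var 1)) (.var 2) : Fml (m + 3)).holds _ ∨
      (A.subst σ).holds _) ↔ _
    rw [Fml.holds_le, Fml.holds_subst]
    have e : (fun i => (σ i).val (Fin.cons z u : Fin (m + 3) → M.R)) =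
        (Fin.cons (z + a) w : Fin (m + 1) → M.R) := by
      funext i
      refine Fin.cases ?_ (fun i => ?_) i
      · rfl
      · rfl
    rw [e]
    rfl
  have key : ∀ z : M.R, 0 ≤ z → B.holds (Fin.cons z u : Fin (m + 3) → M.R) := by
    refine M.io.ind (m + 2) B hBq u hu ?_ ?_
    · rw [hB, zero_add]
      exact Or.inr h0
    · intro z hz hh
      rw [hB] at hh ⊢
      by_cases hle : z + 1 + a ≤ c
      · right
        have h1 : z + a < c := by linarith
        rcases hh with hh | hh
        · exact absurd h1.le hh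
        · have h2 := hs (z + a) (by linarith) h1 hh
          have e : z + a + 1 = z + 1 + a := by ring
          rw [e] at h2
          exact h2
      · exact Or.inl hle
  intro y hay hyc
  have h1 := key (y - a) (by linarith)
  rw [hB, sub_add_cancel] at h1
  rcases h1 with h1 | h1
  · exact absurd hyc h1
  · exact h1

variable {n : ℕ}

/-- if the difference is non-negative, the function is increasing -/
theorem Mdl.mono (p : Tm (n + 1) × Tm (n + 1)) (v : Fin n → M.R) (hv : ∀ i, 0 ≤ v i)
    {x c : M.R} (hx : 0 ≤ x) (hc : 0 ≤ c)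
    (h : ∀ y : M.R, x ≤ y → y < c → 0 ≤ fn (dif p) v y) :
    ∀ y : M.R, x ≤ y → y ≤ c → fn p v x ≤ fn p v y := by
  let σ0 : Fin (n + 1) → Tm (n + 2) := Fin.cons (.var 0) (fun i => .var i.succ.succ)
  let σ1 : Fin (n + 1) → Tm (n + 2) := Fin.cons (.var 1) (fun i => .var i.succ.succ)
  let A : Fml (n + 2) := Fml.le (.add (p.2.subst σ1) (p.1.subst σ0))
    (.add (p.2.subst σ0) (p.1.subst σ1))
  have hA : ∀ y : M.R, A.holds (Fin.cons y (Fin.cons x v : Fin (n + 1) → M.R) : Fin (n + 2) → M.R) ↔
      fn p v x ≤ fn p v y := by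
    intro y
    show (Fml.le _ _ : Fml (n + 2)).holds _ ↔ _
    rw [Fml.holds_le]
    simp only [Tm.val, Tm.val_subst]
    have e0 : (fun i => (σ0 i).val (Fin.cons y (Fin.cons x v : Fin (n + 1) → M.R) :
        Fin (n + 2) → M.R)) = (Fin.cons y v : Fin (n + 1) → M.R) := by
      funext i
      refine Fin.cases ?_ (fun i => ?_) i
      · rfl
      · rfl
    have e1 : (fun i => (σ1 i).val (Fin.cons y (Fin.cons x v : Fin (n + 1) → M.R) :
        Fin (n + 2) → M.R)) = (Fin.cons x v : Fin (n + 1) → M.R) := by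
      funext i
      refine Fin.cases ?_ (fun i => ?_) i
      · rfl
      · rfl
    rw [e0, e1]
    unfold fn
    constructor
    · intro h; linarith
    · intro h; linarith
  intro y hxy hyc
  rw [← hA]
  refine M.ind_between A ⟨trivial, trivial⟩ _ (cons_nonneg hx hv) hx hc ?_ ?_ y hxy hyc
  · rw [hA]
  · intro z hz hzc hh
    rw [hA] at hh ⊢
    have h1 := h z hz hzc
    rw [fn_dif] at h1
    linarith

/-- a sign change occurs at some step -/
theorem Mdl.cross (p : Tm (n + 1) × Tm (n + 1)) (v : Fin n → M.R) (hv : ∀ i, 0 ≤ v i)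
    {a c : M.R} (ha : 0 ≤ a) (hac : a ≤ c) (h1 : fn p v a < 0) (h2 : 0 ≤ fn p v c) :
    ∃ u : M.R, a ≤ u ∧ u < c ∧ fn p v u < 0 ∧ 0 ≤ fn p v (u + 1) := by
  by_contra hcon
  push Not at hcon
  have hA : ∀ y : M.R, (Fml.lt p.2 p.1).holds (Fin.cons y v : Fin (n + 1) → M.R) ↔
      fn p v y < 0 := by
    intro y
    simp only [Fml.holds, fn]
    exact sub_neg.symm
  have h3 := M.ind_between (.lt p.2 p.1) trivial v hv ha (ha.trans hac) ((hA a).2 h1)
    (fun y hy hyc hh => (hA _).2 (hcon y hy hyc ((hA y).1 hh))) c hac le_rfl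
  exact absurd ((hA c).1 h3) (not_lt.2 h2)

end Mod

end Pool.Agent.H20.E1
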