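import Pool.Agent.H20.E1.Enc

set_option autoImplicit false

/-!
# Universal formulas with one nonlinear variable are complete
-/

namespace Pool.Agent.H20.E1

section Final

variable {n k : ℕ}

/-- the formula with one nonlinear universal quantifier -/
def EncF (T : Tm n) (θ : Fml (n + k)) (nd : ℕ → Tm (n + k) × Tm (n + k)) (m : ℕ)
    (ix : Tm (n + k) × Tm (n + k) → ℕ) : Fml n :=
  .all (S0 T nd m) (allN (S0 T nd m).lift (KK m k)
    (.or (.neg (Hyp T nd m ix)) (linF (Dt m ix) (rh n k m) θ)))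

theorem le_plin {N K : ℕ} {s t : Tm N} (hs : s.PLin K) (ht : t.PLin K) : (Fml.le s t).PLin K :=
  ⟨⟨hs, ht⟩, ⟨hs, ht⟩⟩

theorem lt_plin {N K : ℕ} {s t : Tm N} (hs : s.PLin K) (ht : t.PLin K) : (Fml.lt s t).PLin K :=
  ⟨hs, ht⟩

theorem eq_plin {N K : ℕ} {s t : Tm N} (hs : s.PLin K) (ht : t.PLin K) : (Fml.eq s t).PLin K :=
  ⟨hs, ht⟩

theorem conj_range_plin {N K : ℕ} {f : ℕ → Fml N} (h : ∀ l, (f l).PLin K) (m : ℕ) :
    (conj ((List.range m).map f)).PLin K :=
  conj_plin (fun φ hφ => by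
    obtain ⟨l, _, rfl⟩ := List.mem_map.1 hφ
    exact h l)

theorem encF_shape (T : Tm n) {θ : Fml (n + k)} (hθ : θ.IsQF)
    (nd : ℕ → Tm (n + k) × Tm (n + k)) (m : ℕ) (ix : Tm (n + k) × Tm (n + k) → ℕ) :
    OneSquare (EncF T θ nd m ix) := by
  refine ⟨_, _, rfl, allN_lin (lift_nov (nov_zero _)) _ _ (.qf ?_)⟩
  have hw : ∀ j, (wv (KK m k) j : Tm (n + 1 + KK m k)).PLin (KK m k) := fun j => wv_plin' _ _ _
  have hpar : ∀ t : Tm n, (par (KK m k) t).PLin (KK m k) := fun t => NoV.plin (par_nov _ t)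
  have hx : (xv n (KK m k)).PLin (KK m k) := by
    obtain ⟨i, _, h2⟩ := xv_var n (KK m k)
    rw [h2]
    trivial
  have hxx : (Tm.mul (xv n (KK m k)) (xv n (KK m k))).PLin (KK m k) := by
    obtain ⟨i, h1, h2⟩ := xv_var n (KK m k)
    exact Or.inl ⟨i, h1, h2, h2⟩
  have hpw : ∀ (t : Tm n) (s : Tm (n + 1 + KK m k)), s.PLin (KK m k) →
      (Tm.mul (par (KK m k) t) s).PLin (KK m k) := fun t s hs => Or.inr ⟨par_nov _ t, hs⟩
  have hP : (Pt T nd m).PLin (KK m k) := lsum_plin (fun j => hpw _ _ (hw _)) _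
  have hD : ∀ p, (Dt m ix p : Tm (n + 1 + KK m k)).PLin (KK m k) := fun p => hw _
  have hr : ∀ i, (rh n k m i).PLin (KK m k) := rho_plin _ _ (fun j => hw _) k
  have hl : ∀ t, (linT (Dt m ix) (rh n k m) t).PLin (KK m k) := fun t => linT_plin _ _ hD hr t
  refine ⟨?_, linF_plin _ _ hD hr hθ⟩
  show (Hyp T nd m ix).PLin (KK m k)
  refine conj_plin (fun φ hφ => ?_)
  simp only [List.mem_cons, List.not_mem_nil, or_false] at hφ
  rcases hφ with rfl | rfl | rfl | rfl | rfl | rfl | rfl | rfl | rfl | rfl | rfl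
  · exact ⟨hx, lsum_plin (fun i => hpw _ _ (hw _)) _,
      hpw _ _ (lsum_plin (fun i => hpw _ _ (hw _)) _)⟩
  · exact ⟨hxx, ⟨hw _, hpw _ _ ⟨hP, hP⟩⟩, hpw _ _ (hw _)⟩
  · exact ⟨hw _, hpar _⟩
  · exact ⟨⟨hP, hP⟩, hpar _⟩
  · exact ⟨hw _, hpar _⟩
  · exact conj_range_plin (fun l => le_plin (hw _) (hpar _)) _
  · exact conj_range_plin (fun l => le_plin (hw _) (hpar _)) _
  · exact conj_range_plin (fun l => lt_plin (hw _) (hpar _)) _
  · exact conj_range_plin (fun l => le_plin (hw _) (hpar _)) _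
  · exact conj_range_plin (fun l => eq_plin (hw _) (hl _)) _
  · exact conj_range_plin (fun l => eq_plin (hw _) (hl _)) _

theorem encF_iff (T : Tm n) {θ : Fml (n + k)} (hθ : θ.IsQF)
    (nd : ℕ → Tm (n + k) × Tm (n + k)) (m : ℕ) (ix : Tm (n + k) × Tm (n + k) → ℕ)
    (hix : ∀ p ∈ mulsF θ, ix p < m ∧ nd (ix p) = p) (hnd : ∀ l, l < m → nd l ∈ mulsF θ)
    {R : Type} [CommRing R] [LinearOrder R] [IsStrictOrderedRing R]
    (hd : ∀ a : R, 0 < a → 1 ≤ a) (v : Fin n → R) (hv : ∀ i, 0 ≤ v i) :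
    (EncF T θ nd m ix).holds v ↔
      ∀ y : ℕ → R, (∀ j, j < k → 0 ≤ y j ∧ y j ≤ T.val v) → θ.holds (appW k y v) := by
  have hK : KK m k = 2 + 2 * m + m * m + k := rfl
  have hM : 0 ≤ (M0 T nd m).val v := Tm.val_nonneg _ v hv
  have hS : 0 ≤ (Sm T nd m).val v := Tm.val_nonneg _ v hv
  have hL : 0 ≤ (L0 T nd m).val v := Tm.val_nonneg _ v hv
  have hT : 0 ≤ T.val v := Tm.val_nonneg _ v hv
  have hCe : (C0 T nd m).val v = (M0 T nd m).val v * (M0 T nd m).val v + 1 := rfl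
  have hLe : (L0 T nd m).val v = (Sm T nd m).val v * (Sm T nd m).val v +
      (Sm T nd m).val v * (Sm T nd m).val v + 1 := rfl
  have hSe : (Sm T nd m).val v = ∑ i ∈ Finset.range m, (C0 T nd m).val v ^ i * (M0 T nd m).val v +
      ∑ j ∈ Finset.range m, (C0 T nd m).val v ^ (m * j) * (M0 T nd m).val v := by
    unfold Sm
    simp only [Tm.val, lsum_val, powT_val]
  have hS0e : (S0 T nd m).val v = T.val v + (M0 T nd m).val v +
      (M0 T nd m).val v * (M0 T nd m).val v + ((Sm T nd m).val v * (Sm T nd m).val v +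
      ((Sm T nd m).val v + (L0 T nd m).val v * (Sm T nd m).val v)) := rfl
  set M := (M0 T nd m).val v
  set C := (C0 T nd m).val v
  set S := (Sm T nd m).val v
  set L := (L0 T nd m).val v
  have hMM : 0 ≤ M * M := mul_nonneg hM hM
  have hSS : 0 ≤ S * S := mul_nonneg hS hS
  have hLS : 0 ≤ L * S := mul_nonneg hL hS
  have hC : 0 < C := by rw [hCe]; linarith
  have hsum0 : ∀ (f : ℕ → ℕ) (a : ℕ → R), (∀ l, l < m → 0 ≤ a l) →
      0 ≤ ∑ i ∈ Finset.range m, C ^ (f i) * a i := fun f a ha =>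
    Finset.sum_nonneg fun i hi => mul_nonneg (pow_nonneg hC.le _) (ha i (Finset.mem_range.1 hi))
  have hsumle : ∀ (f : ℕ → ℕ) (a : ℕ → R), (∀ l, l < m → a l ≤ M) →
      ∑ i ∈ Finset.range m, C ^ (f i) * a i ≤ ∑ i ∈ Finset.range m, C ^ (f i) * M := fun f a ha =>
    Finset.sum_le_sum fun i hi => mul_le_mul_of_nonneg_left (ha i (Finset.mem_range.1 hi))
      (pow_nonneg hC.le _)
  have hYS : ∀ a : ℕ → R, (∀ l, l < m → a l ≤ M) →
      ∑ i ∈ Finset.range m, C ^ i * a i ≤ S := fun a ha => by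
    have h1 := hsumle (fun i => i) a ha
    have h2 := hsum0 (fun j => m * j) (fun _ => M) (fun _ _ => hM)
    rw [hSe]
    exact h1.trans (by linarith)
  have hZS : ∀ a : ℕ → R, (∀ l, l < m → a l ≤ M) →
      ∑ j ∈ Finset.range m, C ^ (m * j) * a j ≤ S := fun a ha => by
    have h1 := hsumle (fun j => m * j) a ha
    have h2 := hsum0 (fun i => i) (fun _ => M) (fun _ _ => hM)
    rw [hSe]
    exact h1.trans (by linarith)
  have hab : ∀ a b : R, 0 ≤ a → a ≤ M → 0 ≤ b → b ≤ M → 0 ≤ a * b ∧ a * b < C := by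
    intro a b ha ha' hb hb'
    refine ⟨mul_nonneg ha hb, ?_⟩
    have := mul_le_mul ha' hb' hb hM
    rw [hCe]
    linarith
  have hss : ∀ a b : R, 0 ≤ a → a ≤ S → 0 ≤ b → b ≤ S → 0 ≤ a * b ∧ a * b + a * b < L := by
    intro a b ha ha' hb hb'
    refine ⟨mul_nonneg ha hb, ?_⟩
    have := mul_le_mul ha' hb' hb hS
    rw [hLe]
    linarith
  have hmod : ∀ j, j < m * m → j % m < m ∧ j / m < m := fun j hj => by
    have hm : 0 < m := by
      rcases Nat.eq_zero_or_pos m with h | h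
      · rw [h] at hj; exact absurd hj (Nat.not_lt_zero j)
      · exact h
    exact ⟨Nat.mod_lt _ hm, Nat.div_lt_of_lt_mul hj⟩
  have hunf : (EncF T θ nd m ix).holds v ↔ ∀ x : R, 0 ≤ x → x ≤ (S0 T nd m).val v →
      ∀ w : ℕ → R, (∀ j, j < KK m k → 0 ≤ w j ∧ w j ≤ (S0 T nd m).val v) →
      (¬ (Hyp T nd m ix).holds (appW (KK m k) w (Fin.cons x v : Fin (n + 1) → R)) ∨
        (linF (Dt m ix) (rh n k m) θ).holds
          (appW (KK m k) w (Fin.cons x v : Fin (n + 1) → R))) := by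
    show (∀ a : R, 0 ≤ a → a ≤ (S0 T nd m).val v → (allN _ _ _).holds _) ↔ _
    refine forall_congr' fun x => imp_congr_right fun _ => imp_congr_right fun _ => ?_
    rw [allN_holds, Tm.val_lift]
    rfl
  rw [hunf]
  have hrho : ∀ (w : ℕ → R) (x : R) (i : Fin (n + k)), (rh n k m i).val
      (appW (KK m k) w (Fin.cons x v : Fin (n + 1) → R)) =
      appW k (fun j => w (2 + 2 * m + m * m + j)) v i := fun w x i =>
    rho_val _ _ w x v _ k (fun j hj => wv_val w _ _ _ (by omega)) i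
  have hDt : ∀ (w : ℕ → R) (x : R) (p : Tm (n + k) × Tm (n + k)), ix p < m →
      (Dt m ix p : Tm (n + 1 + KK m k)).val (appW (KK m k) w (Fin.cons x v : Fin (n + 1) → R)) =
      w (2 + 2 * m + (m * ix p + ix p)) := fun w x p hp => by
    have h1 : m * ix p + ix p < m * m := by
      have h2 : ix p + 1 ≤ m := hp
      calc m * ix p + ix p < m * ix p + m := by omega
        _ = m * (ix p + 1) := by ring
        _ ≤ m * m := Nat.mul_le_mul_left m h2
    exact wv_val w _ _ _ (by omega)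
  have hdiag : ∀ i, i < m → (m * i + i < m * m ∧ (m * i + i) % m = i ∧ (m * i + i) / m = i) := by
    intro i hi
    refine ⟨?_, ?_, ?_⟩
    · calc m * i + i < m * i + m := by omega
        _ = m * (i + 1) := by ring
        _ ≤ m * m := Nat.mul_le_mul_left m hi
    · rw [Nat.mul_add_mod, Nat.mod_eq_of_lt hi]
    · rw [Nat.mul_add_div (by omega), Nat.div_eq_of_lt hi, Nat.add_zero]
  constructor
  · -- from the encoding to the formula
    intro h y hy
    let z : Fin (n + k) → R := appW k y v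
    have hz : ∀ i, 0 ≤ z i := appW_nonneg hv k fun j hj => (hy j hj).1
    let a : ℕ → R := fun l => (nd l).1.val z
    let b : ℕ → R := fun l => (nd l).2.val z
    have hMv : ∀ l, l < m → ((nd l).1.subst (tcap T k)).val v + ((nd l).2.subst (tcap T k)).val v ≤ M := by
      intro l hl
      have h1 : M = ∑ l ∈ Finset.range m, (((nd l).1.subst (tcap T k)).val v +
          ((nd l).2.subst (tcap T k)).val v) := by
        show (M0 T nd m).val v = _
        unfold M0
        rw [lsum_val]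
        rfl
      rw [h1]
      exact Finset.single_le_sum (f := fun l => ((nd l).1.subst (tcap T k)).val v +
        ((nd l).2.subst (tcap T k)).val v) (fun i _ => add_nonneg (Tm.val_nonneg _ v hv)
          (Tm.val_nonneg _ v hv)) (Finset.mem_range.2 hl)
    have ha : ∀ l, l < m → 0 ≤ a l ∧ a l ≤ M := fun l hl => by
      refine ⟨Tm.val_nonneg _ z hz, ?_⟩
      have h1 := cap_le T v hv (nd l).1 y hy
      have h2 : 0 ≤ ((nd l).2.subst (tcap T k)).val v := Tm.val_nonneg _ v hv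
      exact h1.trans (by linarith [hMv l hl])
    have hb : ∀ l, l < m → 0 ≤ b l ∧ b l ≤ M := fun l hl => by
      refine ⟨Tm.val_nonneg _ z hz, ?_⟩
      have h1 := cap_le T v hv (nd l).2 y hy
      have h2 : 0 ≤ ((nd l).1.subst (tcap T k)).val v := Tm.val_nonneg _ v hv
      exact h1.trans (by linarith [hMv l hl])
    set Y := ∑ i ∈ Finset.range m, C ^ i * a i with hY
    set Z := ∑ j ∈ Finset.range m, C ^ (m * j) * b j with hZ
    have hY0 : 0 ≤ Y := hsum0 (fun i => i) a fun l hl => (ha l hl).1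
    have hZ0 : 0 ≤ Z := hsum0 (fun j => m * j) b fun l hl => (hb l hl).1
    have hYS' : Y ≤ S := hYS a fun l hl => (ha l hl).2
    have hZS' : Z ≤ S := hZS b fun l hl => (hb l hl).2
    have hYY := hss Y Y hY0 hYS' hY0 hYS'
    have hZZ := hss Z Z hZ0 hZS' hZ0 hZS'
    have hYZ := hss Y Z hY0 hYS' hZ0 hZS'
    let w : ℕ → R := fun j => if j = 0 then Y * Y else if j = 1 then Z * Z else
      if j < 2 + m then a (j - 2) else if j < 2 + 2 * m then b (j - 2 - m) else
      if j < 2 + 2 * m + m * m then a ((j - (2 + 2 * m)) % m) * b ((j - (2 + 2 * m)) / m) else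
      y (j - (2 + 2 * m + m * m))
    have w0 : w 0 = Y * Y := by simp [w]
    have w1 : w 1 = Z * Z := by simp [w]
    have wa : ∀ l, l < m → w (2 + l) = a l := fun l hl => by
      have h1 : ¬ (2 + l = 0) := by omega
      have h2 : ¬ (2 + l = 1) := by omega
      have h3 : 2 + l < 2 + m := by omega
      simp only [w, h1, h2, h3, if_false, if_true, Nat.add_sub_cancel_left]
    have wb : ∀ l, l < m → w (2 + m + l) = b l := fun l hl => by
      have h1 : ¬ (2 + m + l = 0) := by omega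
      have h2 : ¬ (2 + m + l = 1) := by omega
      have h3 : ¬ (2 + m + l < 2 + m) := by omega
      have h4 : 2 + m + l < 2 + 2 * m := by omega
      have h5 : 2 + m + l - 2 - m = l := by omega
      simp only [w, h1, h2, h3, h4, if_false, if_true, h5]
    have wc : ∀ j, j < m * m → w (2 + 2 * m + j) = a (j % m) * b (j / m) := fun j hj => by
      have h1 : ¬ (2 + 2 * m + j = 0) := by omega
      have h2 : ¬ (2 + 2 * m + j = 1) := by omega
      have h3 : ¬ (2 + 2 * m + j < 2 + m) := by omega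
      have h4 : ¬ (2 + 2 * m + j < 2 + 2 * m) := by omega
      have h5 : 2 + 2 * m + j < 2 + 2 * m + m * m := by omega
      have h6 : 2 + 2 * m + j - (2 + 2 * m) = j := by omega
      simp only [w, h1, h2, h3, h4, h5, if_false, if_true, h6]
    have wy : ∀ j, w (2 + 2 * m + m * m + j) = y j := fun j => by
      have h1 : ¬ (2 + 2 * m + m * m + j = 0) := by omega
      have h2 : ¬ (2 + 2 * m + m * m + j = 1) := by omega
      have h3 : ¬ (2 + 2 * m + m * m + j < 2 + m) := by omega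
      have h4 : ¬ (2 + 2 * m + m * m + j < 2 + 2 * m) := by omega
      have h5 : ¬ (2 + 2 * m + m * m + j < 2 + 2 * m + m * m) := by omega
      have h6 : 2 + 2 * m + m * m + j - (2 + 2 * m + m * m) = j := by omega
      simp only [w, h1, h2, h3, h4, h5, if_false, h6]
    have hx0 : 0 ≤ Y + L * Z := add_nonneg hY0 (mul_nonneg hL hZ0)
    have hxS : Y + L * Z ≤ (S0 T nd m).val v := by
      have h1 : L * Z ≤ L * S := mul_le_mul_of_nonneg_left hZS' hL
      rw [hS0e]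
      linarith
    have hws : ∀ j, j < KK m k → 0 ≤ w j ∧ w j ≤ (S0 T nd m).val v := by
      intro j hj
      rw [hS0e]
      have hSS2 : ∀ c d : R, 0 ≤ c → c ≤ S → 0 ≤ d → d ≤ S → c * d ≤ S * S :=
        fun c d _ hc' hd0 hd' => mul_le_mul hc' hd' hd0 hS
      rcases Nat.lt_or_ge j 1 with h1 | h1
      · have : j = 0 := by omega
        rw [this, w0]
        exact ⟨hYY.1, by linarith [hSS2 Y Y hY0 hYS' hY0 hYS']⟩
      rcases Nat.lt_or_ge j 2 with h2 | h2
      · have : j = 1 := by omega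
        rw [this, w1]
        exact ⟨hZZ.1, by linarith [hSS2 Z Z hZ0 hZS' hZ0 hZS']⟩
      rcases Nat.lt_or_ge j (2 + m) with h3 | h3
      · obtain ⟨l, rfl⟩ : ∃ l, j = 2 + l := ⟨j - 2, by omega⟩
        rw [wa l (by omega)]
        have := ha l (by omega)
        exact ⟨this.1, by linarith [this.2]⟩
      rcases Nat.lt_or_ge j (2 + 2 * m) with h4 | h4
      · obtain ⟨l, rfl⟩ : ∃ l, j = 2 + m + l := ⟨j - (2 + m), by omega⟩
        rw [wb l (by omega)]
        have := hb l (by omega)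
        exact ⟨this.1, by linarith [this.2]⟩
      rcases Nat.lt_or_ge j (2 + 2 * m + m * m) with h5 | h5
      · obtain ⟨l, rfl⟩ : ∃ l, j = 2 + 2 * m + l := ⟨j - (2 + 2 * m), by omega⟩
        have hl : l < m * m := by omega
        rw [wc l hl]
        have h6 := ha _ (hmod l hl).1
        have h7 := hb _ (hmod l hl).2
        have h8 := mul_le_mul h6.2 h7.2 h7.1 hM
        exact ⟨mul_nonneg h6.1 h7.1, by linarith⟩
      · obtain ⟨l, rfl⟩ : ∃ l, j = 2 + 2 * m + m * m + l := ⟨j - (2 + 2 * m + m * m), by omega⟩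
        rw [wy l]
        have := hy l (by omega)
        exact ⟨this.1, by linarith [this.2]⟩
    have hzz : ∀ i : Fin (n + k), (rh n k m i).val
        (appW (KK m k) w (Fin.cons (Y + L * Z) v : Fin (n + 1) → R)) = z i := fun i => by
      rw [hrho]
      exact congrFun (appW_congr v k (fun j _ => wy j)) i
    have hlin : ∀ t : Tm (n + k), (∀ q ∈ muls t, q ∈ mulsF θ) →
        (linT (Dt m ix) (rh n k m) t).val
          (appW (KK m k) w (Fin.cons (Y + L * Z) v : Fin (n + 1) → R)) = t.val z :=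
      linT_val' _ _ z _ hzz (mulsF θ) (fun p hp => by
        obtain ⟨h1, h2⟩ := hix p hp
        obtain ⟨h3, h4, h5⟩ := hdiag _ h1
        rw [hDt _ _ _ h1, wc _ h3, h4, h5]
        show (nd (ix p)).1.val z * (nd (ix p)).2.val z = _
        rw [h2])
    have hPs : ∑ j ∈ Finset.range (m * m), C ^ j * w (2 + 2 * m + j) = Y * Z := by
      rw [hY, hZ, prod_digits C m a b m le_rfl]
      exact Finset.sum_congr rfl fun j hj => by rw [wc j (Finset.mem_range.1 hj)]
    have hHyp : (Hyp T nd m ix).holds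
        (appW (KK m k) w (Fin.cons (Y + L * Z) v : Fin (n + 1) → R)) := by
      rw [hyp_holds]
      refine ⟨?_, ?_, ?_, ?_, ?_, ?_, ?_, ?_, ?_, ?_, ?_⟩
      · have e1 : ∑ i ∈ Finset.range m, C ^ i * w (2 + i) = Y :=
          Finset.sum_congr rfl fun i hi => by rw [wa i (Finset.mem_range.1 hi)]
        have e2 : ∑ j ∈ Finset.range m, C ^ (m * j) * w (2 + m + j) = Z :=
          Finset.sum_congr rfl fun i hi => by rw [wb i (Finset.mem_range.1 hi)]
        rw [e1, e2]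
      · rw [hPs, w0, w1]
        ring
      · rw [w0]; linarith [hYY.1, hYY.2]
      · rw [hPs]; exact hYZ.2
      · rw [w1]; linarith [hZZ.1, hZZ.2]
      · intro l hl; rw [wa l hl]; exact (ha l hl).2
      · intro l hl; rw [wb l hl]; exact (hb l hl).2
      · intro j hj
        rw [wc j hj]
        exact (hab _ _ (ha _ (hmod j hj).1).1 (ha _ (hmod j hj).1).2
          (hb _ (hmod j hj).2).1 (hb _ (hmod j hj).2).2).2
      · intro j hj; rw [wy j]; exact (hy j hj).2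
      · intro l hl
        rw [wa l hl, hlin _ (mulsF_closed (hnd l hl)).1]
      · intro l hl
        rw [wb l hl, hlin _ (mulsF_closed (hnd l hl)).2]
    rcases h (Y + L * Z) hx0 hxS w hws with h1 | h1
    · exact absurd hHyp h1
    · exact (linF_holds _ _ z _ (mulsF θ) hlin hθ (fun q hq => hq)).1 h1
  · -- from the formula to the encoding
    intro h x _ _ w hw
    by_cases hH : (Hyp T nd m ix).holds (appW (KK m k) w (Fin.cons x v : Fin (n + 1) → R))
    swap
    · exact Or.inl hH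
    right
    rw [hyp_holds] at hH
    obtain ⟨hx, hxx, hl0, hlP, hl1, hma, hmb, hmc, hmy, hea, heb⟩ := hH
    have wn : ∀ j, j < KK m k → 0 ≤ w j := fun j hj => (hw j hj).1
    have han : ∀ l, l < m → 0 ≤ w (2 + l) := fun l hl => wn _ (by omega)
    have hbn : ∀ l, l < m → 0 ≤ w (2 + m + l) := fun l hl => wn _ (by omega)
    have hcn : ∀ j, j < m * m → 0 ≤ w (2 + 2 * m + j) := fun j hj => wn _ (by omega)
    set Y := ∑ i ∈ Finset.range m, C ^ i * w (2 + i) with hY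
    set Z := ∑ j ∈ Finset.range m, C ^ (m * j) * w (2 + m + j) with hZ
    set P := ∑ j ∈ Finset.range (m * m), C ^ j * w (2 + 2 * m + j) with hP
    have hY0 : 0 ≤ Y := hsum0 (fun i => i) (fun i => w (2 + i)) han
    have hZ0 : 0 ≤ Z := hsum0 (fun j => m * j) (fun j => w (2 + m + j)) hbn
    have hYS' : Y ≤ S := hYS (fun i => w (2 + i)) hma
    have hZS' : Z ≤ S := hZS (fun j => w (2 + m + j)) hmb
    have hYY := hss Y Y hY0 hYS' hY0 hYS'
    have hYZ := hss Y Z hY0 hYS' hZ0 hZS'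
    have hP0 : 0 ≤ P := Finset.sum_nonneg fun j hj =>
      mul_nonneg (pow_nonneg hC.le _) (hcn j (Finset.mem_range.1 hj))
    have hstep : w 0 + L * ((P + P) + L * w 1) = Y * Y + L * ((Y * Z + Y * Z) + L * (Z * Z)) := by
      have h1 : x * x = Y * Y + L * ((Y * Z + Y * Z) + L * (Z * Z)) := by rw [hx]; ring
      rw [← h1, hxx]
      ring
    obtain ⟨_, h2⟩ := digit_step hd (wn 0 (by omega)) hl0 hYY.1 (by linarith [hYY.1, hYY.2]) hstep
    obtain ⟨h3, _⟩ := digit_step hd (by linarith) hlP (by linarith [hYZ.1]) hYZ.2 h2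
    have hPYZ : P = Y * Z := by linarith
    have hdig : ∀ j, j < m * m → w (2 + 2 * m + j) = w (2 + j % m) * w (2 + m + j / m) := by
      refine digits_unique hd hC (m * m) _ (fun j => w (2 + j % m) * w (2 + m + j / m))
        (fun j hj => ⟨hcn j hj, hmc j hj⟩) (fun j hj => hab _ _ (han _ (hmod j hj).1)
          (hma _ (hmod j hj).1) (hbn _ (hmod j hj).2) (hmb _ (hmod j hj).2)) ?_
      rw [← hP, hPYZ, hY, hZ]
      exact prod_digits C m (fun i => w (2 + i)) (fun j => w (2 + m + j)) m le_rfl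
    have hθy := h (fun j => w (2 + 2 * m + m * m + j)) (fun j hj => ⟨wn _ (by omega), hmy j hj⟩)
    refine (linF_holds _ _ _ _ (mulsF θ) ?_ hθ (fun q hq => hq)).2 hθy
    refine linT_val _ _ _ _ (hrho w x) (mulsF θ) (fun p hp => ?_)
    obtain ⟨h4, h5⟩ := hix p hp
    obtain ⟨h6, h7, h8⟩ := hdiag _ h4
    rw [hDt _ _ _ h4, hdig _ h6, h7, h8, hea _ h4, heb _ h4, h5]

end Final

/-- the negation of every `E_1` formula is equivalent, in all models of `PA^-`, to a universal formula with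
one nonlinear variable -/
theorem neg_e1_oneSquare {n : ℕ} {φ : Fml n} (h : IsE1 φ) : ∃ χ : Fml n, OneSquare χ ∧
    ∀ (R : Type) [CommRing R] [LinearOrder R] [IsStrictOrderedRing R], (∀ a : R, 0 < a → 1 ≤ a) →
      ∀ v : Fin n → R, (∀ i, 0 ≤ v i) → (¬ φ.holds v ↔ χ.holds v) := by
  obtain ⟨k, T, θ, hθ, hh⟩ := e1_block h
  let θ' : Fml (n + k) := .neg θ
  have hq : θ'.IsQF := hθ
  have hix : ∀ p : Tm (n + k) × Tm (n + k), ∃ i : ℕ, p ∈ mulsF θ' →
      i < (mulsF θ').length ∧ (mulsF θ').getD i (.zero, .zero) = p := by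
    intro p
    by_cases hp : p ∈ mulsF θ'
    · obtain ⟨i, hi, he⟩ := List.mem_iff_getElem.1 hp
      exact ⟨i, fun _ => ⟨hi, by rw [List.getD_eq_getElem _ _ hi, he]⟩⟩
    · exact ⟨0, fun hp' => absurd hp' hp⟩
  choose ix hix using hix
  refine ⟨EncF T θ' (fun l => (mulsF θ').getD l (.zero, .zero)) (mulsF θ').length ix,
    encF_shape T hq _ _ _, fun R _ _ _ hd v hv => ?_⟩
  rw [encF_iff T hq _ _ _ hix (fun l hl => by
    rw [List.getD_eq_getElem _ _ hl]
    exact List.getElem_mem hl) hd v hv, hh R v hv]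
  constructor
  · intro h1 y hy h2
    exact h1 ⟨y, hy, h2⟩
  · rintro h1 ⟨y, hy, h2⟩
    exact h1 y hy h2

section Complete

theorem qf_and' {n : ℕ} {ψ : Fml n} (h : IsE1 ψ) : ∀ φ : Fml n, φ.IsQF → ∃ χ : Fml n, IsE1 χ ∧
    ∀ (R : Type) [CommRing R] [LinearOrder R] [IsStrictOrderedRing R] (v : Fin n → R),
      (∀ i, 0 ≤ v i) → (χ.holds v ↔ (φ.holds v ∧ ψ.holds v)) := by
  induction h with
  | @qf n ψ h =>
    intro φ hφ
    exact ⟨.and φ ψ, .qf (by exact ⟨hφ, h⟩), fun R _ _ _ v _ => by simp only [Fml.holds]⟩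
  | ex t h ih =>
    intro φ hφ
    obtain ⟨χ, h1, h2⟩ := ih φ.lift (Fml.isQF_subst _ _ hφ)
    refine ⟨.ex t χ, .ex t h1, fun R _ _ _ v hv => ?_⟩
    simp only [Fml.holds]
    constructor
    · rintro ⟨a, ha, hat, hx⟩
      rw [h2 R _ (cons_nonneg ha hv), Fml.holds_lift] at hx
      exact ⟨hx.1, a, ha, hat, hx.2⟩
    · rintro ⟨hx, a, ha, hat, hy⟩
      refine ⟨a, ha, hat, ?_⟩
      rw [h2 R _ (cons_nonneg ha hv), Fml.holds_lift]
      exact ⟨hx, hy⟩

theorem e1_and' {n : ℕ} {φ : Fml n} (h : IsE1 φ) : ∀ ψ : Fml n, IsE1 ψ → ∃ χ : Fml n, IsE1 χ ∧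
    ∀ (R : Type) [CommRing R] [LinearOrder R] [IsStrictOrderedRing R] (v : Fin n → R),
      (∀ i, 0 ≤ v i) → (χ.holds v ↔ (φ.holds v ∧ ψ.holds v)) := by
  induction h with
  | qf h => exact fun ψ hψ => qf_and' hψ _ h
  | ex t h ih =>
    intro ψ hψ
    obtain ⟨χ, h1, h2⟩ := ih ψ.lift (IsE1.subst hψ _)
    refine ⟨.ex t χ, .ex t h1, fun R _ _ _ v hv => ?_⟩
    simp only [Fml.holds]
    constructor
    · rintro ⟨a, ha, hat, hx⟩
      rw [h2 R _ (cons_nonneg ha hv), Fml.holds_lift] at hx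
      exact ⟨⟨a, ha, hat, hx.1⟩, hx.2⟩
    · rintro ⟨⟨a, ha, hat, hy⟩, hx⟩
      refine ⟨a, ha, hat, ?_⟩
      rw [h2 R _ (cons_nonneg ha hv), Fml.holds_lift]
      exact ⟨hy, hx⟩

theorem qf_or' {n : ℕ} {ψ : Fml n} (h : IsE1 ψ) : ∀ φ : Fml n, φ.IsQF → ∃ χ : Fml n, IsE1 χ ∧
    ∀ (R : Type) [CommRing R] [LinearOrder R] [IsStrictOrderedRing R] (v : Fin n → R),
      (∀ i, 0 ≤ v i) → (χ.holds v ↔ (φ.holds v ∨ ψ.holds v)) := by
  induction h with
  | @qf n ψ h =>
    intro φ hφ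
    exact ⟨.or φ ψ, .qf (by exact ⟨hφ, h⟩), fun R _ _ _ v _ => by simp only [Fml.holds]⟩
  | ex t h ih =>
    intro φ hφ
    obtain ⟨χ, h1, h2⟩ := ih φ.lift (Fml.isQF_subst _ _ hφ)
    refine ⟨.ex t χ, .ex t h1, fun R _ _ _ v hv => ?_⟩
    simp only [Fml.holds]
    constructor
    · rintro ⟨a, ha, hat, hx⟩
      rw [h2 R _ (cons_nonneg ha hv), Fml.holds_lift] at hx
      rcases hx with hx | hx
      · exact Or.inl hx
      · exact Or.inr ⟨a, ha, hat, hx⟩
    · rintro (hx | ⟨a, ha, hat, hy⟩)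
      · refine ⟨0, le_rfl, Tm.val_nonneg t v hv, ?_⟩
        rw [h2 R _ (cons_nonneg le_rfl hv), Fml.holds_lift]
        exact Or.inl hx
      · refine ⟨a, ha, hat, ?_⟩
        rw [h2 R _ (cons_nonneg ha hv), Fml.holds_lift]
        exact Or.inr hy

theorem e1_or' {n : ℕ} {φ : Fml n} (h : IsE1 φ) : ∀ ψ : Fml n, IsE1 ψ → ∃ χ : Fml n, IsE1 χ ∧
    ∀ (R : Type) [CommRing R] [LinearOrder R] [IsStrictOrderedRing R] (v : Fin n → R),
      (∀ i, 0 ≤ v i) → (χ.holds v ↔ (φ.holds v ∨ ψ.holds v)) := by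
  induction h with
  | qf h => exact fun ψ hψ => qf_or' hψ _ h
  | ex t h ih =>
    intro ψ hψ
    obtain ⟨χ, h1, h2⟩ := ih ψ.lift (IsE1.subst hψ _)
    refine ⟨.ex t χ, .ex t h1, fun R _ _ _ v hv => ?_⟩
    simp only [Fml.holds]
    constructor
    · rintro ⟨a, ha, hat, hx⟩
      rw [h2 R _ (cons_nonneg ha hv), Fml.holds_lift] at hx
      rcases hx with hx | hx
      · exact Or.inl ⟨a, ha, hat, hx⟩
      · exact Or.inr hx
    · rintro (⟨a, ha, hat, hy⟩ | hx)
      · refine ⟨a, ha, hat, ?_⟩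
        rw [h2 R _ (cons_nonneg ha hv), Fml.holds_lift]
        exact Or.inl hy
      · refine ⟨0, le_rfl, Tm.val_nonneg t v hv, ?_⟩
        rw [h2 R _ (cons_nonneg le_rfl hv), Fml.holds_lift]
        exact Or.inr hx

/-- `φ` is equivalent to an `E_1` formula in all rings of the class `K` (truth in the non-negative parts) -/
def EqE1 (K : (R : Type) → [CommRing R] → [LinearOrder R] → [IsStrictOrderedRing R] → Prop) {n : ℕ}
    (φ : Fml n) : Prop :=
  ∃ ψ : Fml n, IsE1 ψ ∧ ∀ (R : Type) [CommRing R] [LinearOrder R] [IsStrictOrderedRing R], K R →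
    ∀ v : Fin n → R, (∀ i, 0 ≤ v i) → (φ.holds v ↔ ψ.holds v)

theorem complete (K : (R : Type) → [CommRing R] → [LinearOrder R] → [IsStrictOrderedRing R] → Prop)
    (hK : ∀ (R : Type) [CommRing R] [LinearOrder R] [IsStrictOrderedRing R], K R →
      ∀ a : R, 0 < a → 1 ≤ a)
    (h : ∀ (n : ℕ) (φ : Fml n), OneSquare φ → EqE1 K φ) {n : ℕ} (φ : Fml n) : EqE1 K φ := by
  have hneg : ∀ {n : ℕ} {φ : Fml n}, EqE1 K φ → EqE1 K (.neg φ) := by
    intro n φ hφ
    obtain ⟨ψ, h1, h2⟩ := hφ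
    obtain ⟨χ, h3, h4⟩ := neg_e1_oneSquare h1
    obtain ⟨ω, h5, h6⟩ := h n χ h3
    refine ⟨ω, h5, fun R _ _ _ hR v hv => ?_⟩
    rw [← h6 R hR v hv, ← h4 R (hK R hR) v hv]
    exact not_congr (h2 R hR v hv)
  have hex : ∀ {n : ℕ} {t : Tm n} {φ : Fml (n + 1)}, EqE1 K φ → EqE1 K (.ex t φ) := by
    intro n t φ hφ
    obtain ⟨ψ, h1, h2⟩ := hφ
    refine ⟨.ex t ψ, .ex t h1, fun R _ _ _ hR v hv => ?_⟩
    simp only [Fml.holds]
    constructor
    · rintro ⟨a, ha, hat, hh⟩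
      exact ⟨a, ha, hat, (h2 R hR _ (cons_nonneg ha hv)).1 hh⟩
    · rintro ⟨a, ha, hat, hh⟩
      exact ⟨a, ha, hat, (h2 R hR _ (cons_nonneg ha hv)).2 hh⟩
  induction φ with
  | lt s t => exact ⟨.lt s t, .qf (by trivial), fun R _ _ _ _ v _ => Iff.rfl⟩
  | eq s t => exact ⟨.eq s t, .qf (by trivial), fun R _ _ _ _ v _ => Iff.rfl⟩
  | neg φ ih => exact hneg ih
  | and φ ψ ih1 ih2 =>
    obtain ⟨φ', h1, h2⟩ := ih1
    obtain ⟨ψ', h3, h4⟩ := ih2
    obtain ⟨χ, h5, h6⟩ := e1_and' h1 ψ' h3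
    refine ⟨χ, h5, fun R _ _ _ hR v hv => ?_⟩
    rw [h6 R v hv, ← h2 R hR v hv, ← h4 R hR v hv]
    rfl
  | or φ ψ ih1 ih2 =>
    obtain ⟨φ', h1, h2⟩ := ih1
    obtain ⟨ψ', h3, h4⟩ := ih2
    obtain ⟨χ, h5, h6⟩ := e1_or' h1 ψ' h3
    refine ⟨χ, h5, fun R _ _ _ hR v hv => ?_⟩
    rw [h6 R v hv, ← h2 R hR v hv, ← h4 R hR v hv]
    rfl
  | ex t φ ih => exact hex ih
  | all t φ ih =>
    obtain ⟨χ, h1, h2⟩ := hneg (hex (t := t) (hneg ih))
    refine ⟨χ, h1, fun R _ _ _ hR v hv => ?_⟩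
    rw [← h2 R hR v hv]
    simp only [Fml.holds]
    push Not
    rfl

end Complete

end Pool.Agent.H20.E1
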