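import Mathlib

set_option autoImplicit false

/-!
# Bounded formulas in the language `0, 1, +, *, <`, and their truth in the non-negative part of a
discretely ordered ring
-/

namespace Pool.Agent.H20.E1

/-- terms in the variables `0, ..., n - 1` -/
inductive Tm (n : ℕ) : Type
  | var : Fin n → Tm n
  | zero : Tm n
  | one : Tm n
  | add : Tm n → Tm n → Tm n
  | mul : Tm n → Tm n → Tm n

/-- bounded (`Δ_0`) formulas with free variables among `0, ..., n - 1`; a quantifier binds the variable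
`0` of the formula behind it and moves the others up by one, so its bound `t` does not contain the
bound variable -/
inductive Fml : ℕ → Type
  | lt {n : ℕ} : Tm n → Tm n → Fml n
  | eq {n : ℕ} : Tm n → Tm n → Fml n
  | neg {n : ℕ} : Fml n → Fml n
  | and {n : ℕ} : Fml n → Fml n → Fml n
  | or {n : ℕ} : Fml n → Fml n → Fml n
  | ex {n : ℕ} : Tm n → Fml (n + 1) → Fml n
  | all {n : ℕ} : Tm n → Fml (n + 1) → Fml n

section Sem

variable {R : Type} [CommRing R] [LinearOrder R]

/-- value of a term -/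
def Tm.val {n : ℕ} (v : Fin n → R) : Tm n → R
  | .var i => v i
  | .zero => 0
  | .one => 1
  | .add s t => s.val v + t.val v
  | .mul s t => s.val v * t.val v

/-- truth of a formula in the non-negative part of `R` -/
def Fml.holds : {n : ℕ} → Fml n → (Fin n → R) → Prop
  | _, .lt s t, v => s.val v < t.val v
  | _, .eq s t, v => s.val v = t.val v
  | _, .neg φ, v => ¬ φ.holds v
  | _, .and φ ψ, v => φ.holds v ∧ ψ.holds v
  | _, .or φ ψ, v => φ.holds v ∨ ψ.holds v
  | _, .ex t φ, v => ∃ a : R, 0 ≤ a ∧ a ≤ t.val v ∧ φ.holds (Fin.cons a v)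
  | _, .all t φ, v => ∀ a : R, 0 ≤ a → a ≤ t.val v → φ.holds (Fin.cons a v)

end Sem

/-- quantifier-free formulas -/
def Fml.IsQF : {n : ℕ} → Fml n → Prop
  | _, .lt _ _ => True
  | _, .eq _ _ => True
  | _, .neg φ => φ.IsQF
  | _, .and φ ψ => φ.IsQF ∧ ψ.IsQF
  | _, .or φ ψ => φ.IsQF ∧ ψ.IsQF
  | _, .ex _ _ => False
  | _, .all _ _ => False

/-- `E_1` formulas: a block of bounded existential quantifiers before a quantifier-free formula -/
inductive IsE1 : {n : ℕ} → Fml n → Prop
  | qf {n : ℕ} {φ : Fml n} : φ.IsQF → IsE1 φ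
  | ex {n : ℕ} (t : Tm n) {φ : Fml (n + 1)} : IsE1 φ → IsE1 (.ex t φ)

/-- the variable `i` does not occur in the term -/
def Tm.Free {n : ℕ} (i : Fin n) : Tm n → Prop
  | .var j => j ≠ i
  | .zero => True
  | .one => True
  | .add s t => s.Free i ∧ t.Free i
  | .mul s t => s.Free i ∧ t.Free i

/-- the variable `i` does not occur inside a product of the term -/
def Tm.Lin {n : ℕ} (i : Fin n) : Tm n → Prop
  | .var _ => True
  | .zero => True
  | .one => True
  | .add s t => s.Lin i ∧ t.Lin i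
  | .mul s t => s.Free i ∧ t.Free i

/-- the free variable `i` does not occur inside a product of the formula (bounds included) -/
def Fml.Lin : {n : ℕ} → Fin n → Fml n → Prop
  | _, i, .lt s t => s.Lin i ∧ t.Lin i
  | _, i, .eq s t => s.Lin i ∧ t.Lin i
  | _, i, .neg φ => φ.Lin i
  | _, i, .and φ ψ => φ.Lin i ∧ ψ.Lin i
  | _, i, .or φ ψ => φ.Lin i ∧ ψ.Lin i
  | _, i, .ex t φ => t.Lin i ∧ φ.Lin i.succ
  | _, i, .all t φ => t.Lin i ∧ φ.Lin i.succ

/-- all quantifiers of the formula are additive: no bound variable occurs inside a product -/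
def Fml.Additive : {n : ℕ} → Fml n → Prop
  | _, .lt _ _ => True
  | _, .eq _ _ => True
  | _, .neg φ => φ.Additive
  | _, .and φ ψ => φ.Additive ∧ ψ.Additive
  | _, .or φ ψ => φ.Additive ∧ ψ.Additive
  | _, .ex _ φ => φ.Lin 0 ∧ φ.Additive
  | _, .all _ φ => φ.Lin 0 ∧ φ.Additive

/-- Boolean combinations of additive formulas and of formulas with one more quantifier (of any kind)
before an additive formula -/
inductive OneA : {n : ℕ} → Fml n → Prop
  | additive {n : ℕ} {φ : Fml n} : φ.Additive → OneA φ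
  | neg {n : ℕ} {φ : Fml n} : OneA φ → OneA (.neg φ)
  | and {n : ℕ} {φ ψ : Fml n} : OneA φ → OneA ψ → OneA (.and φ ψ)
  | or {n : ℕ} {φ ψ : Fml n} : OneA φ → OneA ψ → OneA (.or φ ψ)
  | ex {n : ℕ} (t : Tm n) {φ : Fml (n + 1)} : φ.Additive → OneA (.ex t φ)
  | all {n : ℕ} (t : Tm n) {φ : Fml (n + 1)} : φ.Additive → OneA (.all t φ)

/-- formulas built by conjunction, disjunction and bounded existential quantification from these -/
inductive Tame : {n : ℕ} → Fml n → Prop
  | one {n : ℕ} {φ : Fml n} : OneA φ → Tame φ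
  | and {n : ℕ} {φ ψ : Fml n} : Tame φ → Tame ψ → Tame (.and φ ψ)
  | or {n : ℕ} {φ ψ : Fml n} : Tame φ → Tame ψ → Tame (.or φ ψ)
  | ex {n : ℕ} (t : Tm n) {φ : Fml (n + 1)} : Tame φ → Tame (.ex t φ)

/-- The non-negative part of `R` is a model of `PA^-` together with induction, with parameters, for the
formulas in `Γ`: `R` is a discretely ordered ring, and induction holds for all formulas in `Γ`.
`Γ` = no formula: `PA^-`; quantifier-free formulas: `IOpen`; `E_1` formulas: `IE_1`; all formulas: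
`IΔ_0`. -/
structure Model (Γ : (n : ℕ) → Fml n → Prop) (R : Type) [CommRing R] [LinearOrder R]
    [IsStrictOrderedRing R] : Prop where
  disc : ∀ a : R, 0 < a → 1 ≤ a
  ind : ∀ (n : ℕ) (φ : Fml (n + 1)), Γ (n + 1) φ → ∀ v : Fin n → R, (∀ i, 0 ≤ v i) →
    φ.holds (Fin.cons (0 : R) v) →
    (∀ a : R, 0 ≤ a → φ.holds (Fin.cons a v) → φ.holds (Fin.cons (a + 1) v)) →
    ∀ a : R, 0 ≤ a → φ.holds (Fin.cons a v)

end Pool.Agent.H20.E1
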