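import Pool.Agent.H20.E1.Lin

set_option autoImplicit false

/-!
# Elimination of one additive quantifier in residue classes (Cooper's method)
-/

namespace Pool.Agent.H20.E1

open SignType

section Plug

variable {n : ℕ}

/-- `s(A - B)` moved to the side without subtraction, against `u` -/
def plugT (A B : Tm n) (σ : Fin n → Tm n) (s u : Tm (n + 1)) : Tm n :=
  .add (.add (nsm (coef s) A) ((rest s).subst σ)) (nsm (coef u) B)

def plug (A B : Tm n) (σ : Fin n → Tm n) : Fml (n + 1) → Fml n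
  | .lt s u => .lt (plugT A B σ s u) (plugT A B σ u s)
  | .eq s u => .eq (plugT A B σ s u) (plugT A B σ u s)
  | .neg φ => .neg (plug A B σ φ)
  | .and φ ψ => .and (plug A B σ φ) (plug A B σ ψ)
  | .or φ ψ => .or (plug A B σ φ) (plug A B σ ψ)
  | .ex _ _ => .eq .zero .zero
  | .all _ _ => .eq .zero .zero

variable {R : Type} [CommRing R] [LinearOrder R] [IsStrictOrderedRing R]

theorem plugT_sub (A B : Tm n) (σ : Fin n → Tm n) {s u : Tm (n + 1)} (hs : s.Lin 0)
    (hu : u.Lin 0) (q : Fin n → R) :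
    (plugT A B σ u s).val q - (plugT A B σ s u).val q =
      u.val (Fin.cons (A.val q - B.val q) (fun i => (σ i).val q) : Fin (n + 1) → R) -
        s.val (Fin.cons (A.val q - B.val q) (fun i => (σ i).val q) : Fin (n + 1) → R) := by
  rw [val_lin hs, val_lin hu]
  unfold plugT
  simp only [Tm.val, val_nsm, Tm.val_subst]
  ring

theorem plug_holds (A B : Tm n) (σ : Fin n → Tm n) (q : Fin n → R) : ∀ {φ : Fml (n + 1)},
    φ.IsQF → φ.Lin 0 → ((plug A B σ φ).holds q ↔ φ.holds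
      (Fin.cons (A.val q - B.val q) (fun i => (σ i).val q) : Fin (n + 1) → R))
  | .lt s t, _, h => by
    have h1 := plugT_sub A B σ h.1 h.2 q
    simp only [plug, Fml.holds]
    rw [← sub_pos, h1, sub_pos]
  | .eq s t, _, h => by
    have h1 := plugT_sub A B σ h.1 h.2 q
    simp only [plug, Fml.holds]
    rw [eq_comm, ← sub_eq_zero, h1, sub_eq_zero, eq_comm]
  | .neg φ, hq, h => by
    simp only [plug, Fml.holds]
    exact not_congr (plug_holds A B σ q (φ := φ) hq h)
  | .and φ ψ, hq, h => by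
    simp only [plug, Fml.holds]
    exact and_congr (plug_holds A B σ q (φ := φ) hq.1 h.1)
      (plug_holds A B σ q (φ := ψ) hq.2 h.2)
  | .or φ ψ, hq, h => by
    simp only [plug, Fml.holds]
    exact or_congr (plug_holds A B σ q (φ := φ) hq.1 h.1)
      (plug_holds A B σ q (φ := ψ) hq.2 h.2)
  | .ex _ _, hq, _ => hq.elim
  | .all _ _, hq, _ => hq.elim

theorem plug_qf (A B : Tm n) (σ : Fin n → Tm n) : ∀ {φ : Fml (n + 1)}, φ.IsQF →
    (plug A B σ φ).IsQF
  | .lt _ _, _ => by simp only [plug]; trivial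
  | .eq _ _, _ => by simp only [plug]; trivial
  | .neg φ, hq => by simp only [plug]; exact plug_qf A B σ (φ := φ) hq
  | .and φ ψ, hq => by
    simp only [plug]
    exact ⟨plug_qf A B σ (φ := φ) hq.1, plug_qf A B σ (φ := ψ) hq.2⟩
  | .or φ ψ, hq => by
    simp only [plug]
    exact ⟨plug_qf A B σ (φ := φ) hq.1, plug_qf A B σ (φ := ψ) hq.2⟩
  | .ex _ _, hq => hq.elim
  | .all _ _, hq => hq.elim

theorem plugT_lin {A B : Tm n} {N : ℕ} {r : Fin n → ℕ} {s u : Tm (n + 1)} {i : Fin n}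
    (hA : A.Lin i) (hB : B.Lin i) (hs : s.Lin i.succ) : (plugT A B (aff N r) s u).Lin i :=
  ⟨⟨nsm_lin hA _, Tm.lin_subst (rest_lin hs) (fun k hk => aff_free N r i k hk) (aff_lin N r i)⟩,
    nsm_lin hB _⟩

theorem plug_lin {A B : Tm n} {N : ℕ} {r : Fin n → ℕ} {i : Fin n} (hA : A.Lin i)
    (hB : B.Lin i) : ∀ {φ : Fml (n + 1)}, φ.IsQF → φ.Lin i.succ →
    (plug A B (aff N r) φ).Lin i
  | .lt _ _, _, h => by
    simp only [plug]
    exact ⟨plugT_lin hA hB h.1, plugT_lin hA hB h.2⟩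
  | .eq _ _, _, h => by
    simp only [plug]
    exact ⟨plugT_lin hA hB h.1, plugT_lin hA hB h.2⟩
  | .neg φ, hq, h => by simp only [plug]; exact plug_lin hA hB (φ := φ) hq h
  | .and φ ψ, hq, h => by
    simp only [plug]
    exact ⟨plug_lin hA hB (φ := φ) hq.1 h.1, plug_lin hA hB (φ := ψ) hq.2 h.2⟩
  | .or φ ψ, hq, h => by
    simp only [plug]
    exact ⟨plug_lin hA hB (φ := φ) hq.1 h.1, plug_lin hA hB (φ := ψ) hq.2 h.2⟩
  | .ex _ _, hq, _ => hq.elim
  | .all _ _, hq, _ => hq.elim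

end Plug

section Thr

variable {n : ℕ}

def tauPos (N : ℕ) (r : Fin n → ℕ) (s u : Tm (n + 1)) (d : ℕ) : Tm n × Tm n :=
  (.add (nsm (N / d) (dv N r (rest s)).1)
      (nsm (((((dv N r (rest s)).2 : ℤ) - ((dv N r (rest u)).2 : ℤ)) / (d : ℤ)).toNat) .one),
    .add (nsm (N / d) (dv N r (rest u)).1)
      (nsm ((-((((dv N r (rest s)).2 : ℤ) - ((dv N r (rest u)).2 : ℤ)) / (d : ℤ))).toNat) .one))

theorem tauPos_lin (N : ℕ) (r : Fin n → ℕ) {s u : Tm (n + 1)} (d : ℕ) {i : Fin n}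
    (hs : s.Lin i.succ) (hu : u.Lin i.succ) :
    (tauPos N r s u d).1.Lin i ∧ (tauPos N r s u d).2.Lin i :=
  ⟨⟨nsm_lin (dv_lin N r (rest_lin hs)) _, nsm_lin (t := .one) trivial _⟩,
    ⟨nsm_lin (dv_lin N r (rest_lin hu)) _, nsm_lin (t := .one) trivial _⟩⟩

/-- `z` and `z'` lie on the same side of `τ` -/
def Cls {R : Type} [LinearOrder R] (τ z z' : R) : Prop :=
  (z < τ ∧ z' < τ) ∨ z' = z ∨ (τ < z ∧ τ < z')

theorem tauPos_sign {M : Mdl} {N : ℕ} (r : Fin n → ℕ) {s u : Tm (n + 1)} (hs : s.Lin 0)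
    (hu : u.Lin 0) {d : ℕ} (hd : 0 < d) (hsd : coef s + d = coef u) (hN : d ∣ N)
    (q : Fin n → M.R) {z z' : M.R}
    (h : Cls ((tauPos N r s u d).1.val q - (tauPos N r s u d).2.val q) z z') :
    sign (u.val (Fin.cons z (fun i => (aff N r i).val q) : Fin (n + 1) → M.R) -
      s.val (Fin.cons z (fun i => (aff N r i).val q) : Fin (n + 1) → M.R)) =
    sign (u.val (Fin.cons z' (fun i => (aff N r i).val q) : Fin (n + 1) → M.R) -
      s.val (Fin.cons z' (fun i => (aff N r i).val q) : Fin (n + 1) → M.R)) := by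
  set τ := (tauPos N r s u d).1.val q - (tauPos N r s u d).2.val q with hτ
  obtain ⟨e, he⟩ := hN
  have hNd : N / d = e := by rw [he]; exact Nat.mul_div_cancel_left _ hd
  set cs : ℤ := ((dv N r (rest s)).2 : ℤ) with hcs
  set cu : ℤ := ((dv N r (rest u)).2 : ℤ) with hcu
  set κ : ℤ := (cs - cu) / (d : ℤ) with hκ
  have hd' : (0 : ℤ) < d := by exact_mod_cast hd
  have hε0 : 0 ≤ (cs - cu) - d * κ := by
    have := Int.emod_nonneg (cs - cu) hd'.ne'
    have h2 := Int.emod_add_mul_ediv (cs - cu) d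
    rw [← hκ] at h2
    linarith
  have hε1 : (cs - cu) - d * κ < d := by
    have := Int.emod_lt_of_pos (cs - cu) hd'
    have h2 := Int.emod_add_mul_ediv (cs - cu) d
    rw [← hκ] at h2
    linarith
  have hκ2 : ((κ.toNat : ℕ) : M.R) - (((-κ).toNat : ℕ) : M.R) = (κ : M.R) := by
    have h1 : ((κ.toNat : ℕ) : ℤ) - (((-κ).toNat : ℕ) : ℤ) = κ := by omega
    have h2 := congrArg (fun x : ℤ => (x : M.R)) h1
    push_cast at h2
    exact h2
  have hτ2 : τ = (e : M.R) * ((dv N r (rest s)).1.val q - (dv N r (rest u)).1.val q) + (κ : M.R) := by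
    rw [hτ, ← hκ2]
    unfold tauPos
    simp only [Tm.val, val_nsm, mul_one, hNd, ← hcs, ← hcu, ← hκ]
    ring
  have hNR : (N : M.R) = (d : M.R) * (e : M.R) := by rw [he]; push_cast; ring
  have hco : (coef u : M.R) = (coef s : M.R) + (d : M.R) := by rw [← hsd]; push_cast; ring
  have hf : ∀ y : M.R, u.val (Fin.cons y (fun i => (aff N r i).val q) : Fin (n + 1) → M.R) -
      s.val (Fin.cons y (fun i => (aff N r i).val q) : Fin (n + 1) → M.R) =
      (d : M.R) * (y - τ) - (((cs - cu) - d * κ : ℤ) : M.R) := by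
    intro y
    rw [val_lin hs, val_lin hu, val_aff, val_dv, val_dv, hτ2, hco]
    push_cast
    rw [hcs, hcu, hNR]
    push_cast
    ring
  have hε0' : (0 : M.R) ≤ (((cs - cu) - d * κ : ℤ) : M.R) := by exact_mod_cast hε0
  have hε1' : (((cs - cu) - d * κ : ℤ) : M.R) < (d : M.R) := by
    have : (((cs - cu) - d * κ : ℤ) : M.R) < ((d : ℤ) : M.R) := by exact_mod_cast hε1
    simpa using this
  have hdR : (1 : M.R) ≤ (d : M.R) := by exact_mod_cast hd
  have hneg : ∀ y : M.R, y < τ → (d : M.R) * (y - τ) - (((cs - cu) - d * κ : ℤ) : M.R) < 0 := by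
    intro y hy
    have h1 := M.succ_le hy
    have h2 : (d : M.R) * (y - τ) ≤ (d : M.R) * (-1) :=
      mul_le_mul_of_nonneg_left (by linarith) (by linarith)
    linarith
  have hpos : ∀ y : M.R, τ < y → 0 < (d : M.R) * (y - τ) - (((cs - cu) - d * κ : ℤ) : M.R) := by
    intro y hy
    have h1 := M.succ_le hy
    have h2 : (d : M.R) * 1 ≤ (d : M.R) * (y - τ) :=
      mul_le_mul_of_nonneg_left (by linarith) (by linarith)
    linarith
  rw [hf, hf]
  rcases h with ⟨h1, h2⟩ | h1 | ⟨h1, h2⟩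
  · rw [sign_neg (hneg z h1), sign_neg (hneg z' h2)]
  · rw [h1]
  · rw [sign_pos (hpos z h1), sign_pos (hpos z' h2)]

def tau (N : ℕ) (r : Fin n → ℕ) (p : Tm (n + 1) × Tm (n + 1)) : Tm n × Tm n :=
  if coef p.1 < coef p.2 then tauPos N r p.1 p.2 (coef p.2 - coef p.1)
  else if coef p.2 < coef p.1 then tauPos N r p.2 p.1 (coef p.1 - coef p.2)
  else (.zero, .zero)

theorem tau_lin (N : ℕ) (r : Fin n → ℕ) {p : Tm (n + 1) × Tm (n + 1)} {i : Fin n}
    (h1 : p.1.Lin i.succ) (h2 : p.2.Lin i.succ) :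
    (tau N r p).1.Lin i ∧ (tau N r p).2.Lin i := by
  unfold tau
  split_ifs with h3 h4
  · exact tauPos_lin N r _ h1 h2
  · exact tauPos_lin N r _ h2 h1
  · exact ⟨trivial, trivial⟩

/-- what `N` has to be divisible by -/
def pd (p : Tm (n + 1) × Tm (n + 1)) : ℕ :=
  max 1 ((coef p.2 - coef p.1) + (coef p.1 - coef p.2))

theorem pd_pos (p : Tm (n + 1) × Tm (n + 1)) : 0 < pd p := by
  unfold pd
  omega

theorem tau_sign {M : Mdl} {N : ℕ} (r : Fin n → ℕ) {p : Tm (n + 1) × Tm (n + 1)} (hs : p.1.Lin 0)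
    (hu : p.2.Lin 0) (hN : pd p ∣ N) (q : Fin n → M.R) {z z' : M.R}
    (h : Cls ((tau N r p).1.val q - (tau N r p).2.val q) z z') :
    sign (p.2.val (Fin.cons z (fun i => (aff N r i).val q) : Fin (n + 1) → M.R) -
      p.1.val (Fin.cons z (fun i => (aff N r i).val q) : Fin (n + 1) → M.R)) =
    sign (p.2.val (Fin.cons z' (fun i => (aff N r i).val q) : Fin (n + 1) → M.R) -
      p.1.val (Fin.cons z' (fun i => (aff N r i).val q) : Fin (n + 1) → M.R)) := by
  unfold tau at h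
  split_ifs at h with h3 h4
  · refine tauPos_sign r hs hu (by omega) (by omega) ?_ q h
    have e : pd p = coef p.2 - coef p.1 := by unfold pd; omega
    rwa [e] at hN
  · have e : pd p = coef p.1 - coef p.2 := by unfold pd; omega
    rw [e] at hN
    have h5 := tauPos_sign r hu hs (by omega) (by omega) hN q h
    rw [← neg_sub, Left.sign_neg, h5, ← Left.sign_neg, neg_sub]
  · have e : coef p.1 = coef p.2 := by omega
    congr 1
    rw [val_lin hs, val_lin hu, val_lin hs, val_lin hu, e]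
    ring

end Thr

end Pool.Agent.H20.E1
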