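import Pool.Agent.H20.E1.Nonlin

set_option autoImplicit false

/-!
# The encoding of all products by the square of one variable
-/

namespace Pool.Agent.H20.E1

section Defs

variable {n : ℕ}

def par (K : ℕ) (t : Tm n) : Tm (n + 1 + K) := liftN K t.lift

theorem par_val {R : Type} [CommRing R] [LinearOrder R] (K : ℕ) (t : Tm n) (w : ℕ → R) (x : R)
    (v : Fin n → R) : (par K t).val (appW K w (Fin.cons x v : Fin (n + 1) → R)) = t.val v := by
  unfold par
  rw [liftN_val, Tm.val_lift]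

theorem par_nov (K : ℕ) (t : Tm n) : (par K t).NoV (K + 1) :=
  NoV.mono (by omega) (liftN_nov (lift_nov (nov_zero t)) K)

/-- the term for `x` -/
def xv (n K : ℕ) : Tm (n + 1 + K) := liftN K (.var 0 : Tm (n + 1))

theorem xv_val {R : Type} [CommRing R] [LinearOrder R] (K : ℕ) (w : ℕ → R) (x : R)
    (v : Fin n → R) : (xv n K).val (appW K w (Fin.cons x v : Fin (n + 1) → R)) = x := by
  unfold xv
  rw [liftN_val]
  rfl

theorem liftN_var {N : ℕ} (j : Fin N) : ∀ K : ℕ, ∃ i : Fin (N + K), i.val = j.val + K ∧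
    liftN K (.var j : Tm N) = .var i
  | 0 => ⟨j, rfl, rfl⟩
  | K + 1 => by
    obtain ⟨i, h1, h2⟩ := liftN_var j K
    refine ⟨i.succ, ?_, ?_⟩
    · rw [Fin.val_succ, h1]
      rfl
    · show (liftN K (.var j : Tm N)).lift = _
      rw [h2]
      rfl

theorem xv_var (n K : ℕ) : ∃ i : Fin (n + 1 + K), i.val = K ∧ xv n K = .var i := by
  obtain ⟨i, h1, h2⟩ := liftN_var (0 : Fin (n + 1)) K
  exact ⟨i, by simpa using h1, h2⟩

/-- variables of the original formula in the new context -/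
def rho (K : ℕ) (yv : ℕ → Tm (n + 1 + K)) : (k : ℕ) → Fin (n + k) → Tm (n + 1 + K)
  | 0 => fun i => par K (.var i)
  | k + 1 => Fin.cons (yv k) (rho K yv k)

theorem rho_val {R : Type} [CommRing R] [LinearOrder R] (K : ℕ) (yv : ℕ → Tm (n + 1 + K))
    (w : ℕ → R) (x : R) (v : Fin n → R) (y : ℕ → R) : ∀ k : ℕ,
    (∀ j, j < k → (yv j).val (appW K w (Fin.cons x v : Fin (n + 1) → R)) = y j) →
    ∀ i, (rho K yv k i).val (appW K w (Fin.cons x v : Fin (n + 1) → R)) = appW k y v i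
  | 0, _ => fun i => par_val K (.var i) w x v
  | k + 1, h => by
    intro i
    refine Fin.cases ?_ (fun i => ?_) i
    · exact h k (Nat.lt_succ_self k)
    · exact rho_val K yv w x v y k (fun j hj => h j (hj.trans (Nat.lt_succ_self k))) i

theorem rho_plin (K : ℕ) (yv : ℕ → Tm (n + 1 + K)) (h : ∀ j, (yv j).PLin K) : ∀ (k : ℕ)
    (i : Fin (n + k)), (rho K yv k i).PLin K
  | 0, i => NoV.plin (par_nov K (.var i))
  | k + 1, i => by
    refine Fin.cases ?_ (fun i => ?_) i
    · exact h k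
    · exact rho_plin K yv h k i

/-- the bound for a term -/
def tcap (T : Tm n) : (k : ℕ) → Fin (n + k) → Tm n
  | 0 => fun i => .var i
  | k + 1 => Fin.cons T (tcap T k)

theorem tcap_val {R : Type} [CommRing R] [LinearOrder R] (T : Tm n) (v : Fin n → R) : ∀ k : ℕ,
    (fun i => (tcap T k i).val v) = appW k (fun _ => T.val v) v
  | 0 => rfl
  | k + 1 => by
    funext i
    refine Fin.cases ?_ (fun i => ?_) i
    · rfl
    · exact congrFun (tcap_val T v k) i

theorem cap_le {R : Type} [CommRing R] [LinearOrder R] [IsStrictOrderedRing R] (T : Tm n)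
    (v : Fin n → R) (hv : ∀ i, 0 ≤ v i) {k : ℕ} (t : Tm (n + k)) (y : ℕ → R)
    (hy : ∀ j, j < k → 0 ≤ y j ∧ y j ≤ T.val v) :
    t.val (appW k y v) ≤ (t.subst (tcap T k)).val v := by
  rw [Tm.val_subst, tcap_val]
  exact Tm.val_mono t (appW_nonneg hv k fun j hj => (hy j hj).1)
    (appW_mono k fun j hj => (hy j hj).2)

theorem digit_step {R : Type} [CommRing R] [LinearOrder R] [IsStrictOrderedRing R]
    (hd : ∀ a : R, 0 < a → 1 ≤ a) {L a b A B : R} (ha : 0 ≤ a) (ha' : a < L) (hb : 0 ≤ b)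
    (hb' : b < L) (h : a + L * A = b + L * B) : a = b ∧ A = B := by
  have hL : 0 ≤ L := ha.trans ha'.le
  have hAB : A = B := by
    rcases lt_trichotomy A B with h1 | h1 | h1
    · exfalso
      have h2 := hd (B - A) (sub_pos.2 h1)
      have h3 : L * 1 ≤ L * (B - A) := mul_le_mul_of_nonneg_left h2 hL
      linarith [mul_sub L B A]
    · exact h1
    · exfalso
      have h2 := hd (A - B) (sub_pos.2 h1)
      have h3 : L * 1 ≤ L * (A - B) := mul_le_mul_of_nonneg_left h2 hL
      linarith [mul_sub L A B]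
  rw [hAB] at h
  exact ⟨by linarith, hAB⟩

end Defs

section Enc

variable {n k : ℕ}

/-- parameters of the encoding: bound `T` of the variables `y`, the products `(s_l, t_l)`, their
number `m` -/
def M0 (T : Tm n) (nd : ℕ → Tm (n + k) × Tm (n + k)) (m : ℕ) : Tm n :=
  lsum (fun l => .add ((nd l).1.subst (tcap T k)) ((nd l).2.subst (tcap T k))) m

def C0 (T : Tm n) (nd : ℕ → Tm (n + k) × Tm (n + k)) (m : ℕ) : Tm n :=
  .add (.mul (M0 T nd m) (M0 T nd m)) .one

def Sm (T : Tm n) (nd : ℕ → Tm (n + k) × Tm (n + k)) (m : ℕ) : Tm n :=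
  .add (lsum (fun i => .mul (powT (C0 T nd m) i) (M0 T nd m)) m)
    (lsum (fun j => .mul (powT (C0 T nd m) (m * j)) (M0 T nd m)) m)

def L0 (T : Tm n) (nd : ℕ → Tm (n + k) × Tm (n + k)) (m : ℕ) : Tm n :=
  .add (.add (.mul (Sm T nd m) (Sm T nd m)) (.mul (Sm T nd m) (Sm T nd m))) .one

def S0 (T : Tm n) (nd : ℕ → Tm (n + k) × Tm (n + k)) (m : ℕ) : Tm n :=
  .add (.add (.add T (M0 T nd m)) (.mul (M0 T nd m) (M0 T nd m)))
    (.add (.mul (Sm T nd m) (Sm T nd m)) (.add (Sm T nd m) (.mul (L0 T nd m) (Sm T nd m))))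

def KK (m k : ℕ) : ℕ := 2 + 2 * m + m * m + k

def Pt (T : Tm n) (nd : ℕ → Tm (n + k) × Tm (n + k)) (m : ℕ) : Tm (n + 1 + KK m k) :=
  lsum (fun j => .mul (par (KK m k) (powT (C0 T nd m) j)) (wv (KK m k) (2 + 2 * m + j))) (m * m)

def Dt (m : ℕ) (ix : Tm (n + k) × Tm (n + k) → ℕ) (p : Tm (n + k) × Tm (n + k)) :
    Tm (n + 1 + KK m k) := wv (KK m k) (2 + 2 * m + (m * ix p + ix p))

def rh (n k m : ℕ) : Fin (n + k) → Tm (n + 1 + KK m k) :=
  rho (KK m k) (fun j => wv (KK m k) (2 + 2 * m + m * m + j)) k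

def Hyp (T : Tm n) (nd : ℕ → Tm (n + k) × Tm (n + k)) (m : ℕ)
    (ix : Tm (n + k) × Tm (n + k) → ℕ) : Fml (n + 1 + KK m k) :=
  conj [
    .eq (xv n (KK m k)) (.add
      (lsum (fun i => .mul (par (KK m k) (powT (C0 T nd m) i)) (wv (KK m k) (2 + i))) m)
      (.mul (par (KK m k) (L0 T nd m)) (lsum (fun j => .mul (par (KK m k)
        (powT (C0 T nd m) (m * j))) (wv (KK m k) (2 + m + j))) m))),
    .eq (.mul (xv n (KK m k)) (xv n (KK m k))) (.add (.add (wv (KK m k) 0)
      (.mul (par (KK m k) (L0 T nd m)) (.add (Pt T nd m) (Pt T nd m))))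
      (.mul (par (KK m k) (.mul (L0 T nd m) (L0 T nd m))) (wv (KK m k) 1))),
    .lt (wv (KK m k) 0) (par (KK m k) (L0 T nd m)),
    .lt (.add (Pt T nd m) (Pt T nd m)) (par (KK m k) (L0 T nd m)),
    .lt (wv (KK m k) 1) (par (KK m k) (L0 T nd m)),
    conj ((List.range m).map fun l => Fml.le (wv (KK m k) (2 + l)) (par (KK m k) (M0 T nd m))),
    conj ((List.range m).map fun l => Fml.le (wv (KK m k) (2 + m + l)) (par (KK m k) (M0 T nd m))),
    conj ((List.range (m * m)).map fun j => .lt (wv (KK m k) (2 + 2 * m + j))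
      (par (KK m k) (C0 T nd m))),
    conj ((List.range k).map fun j => Fml.le (wv (KK m k) (2 + 2 * m + m * m + j))
      (par (KK m k) T)),
    conj ((List.range m).map fun l => .eq (wv (KK m k) (2 + l))
      (linT (Dt m ix) (rh n k m) (nd l).1)),
    conj ((List.range m).map fun l => .eq (wv (KK m k) (2 + m + l))
      (linT (Dt m ix) (rh n k m) (nd l).2))]

theorem conj_range {N : ℕ} {R : Type} [CommRing R] [LinearOrder R] (f : ℕ → Fml N) (u : Fin N → R)
    (m : ℕ) : (conj ((List.range m).map f)).holds u ↔ ∀ l, l < m → (f l).holds u := by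
  rw [conj_holds]
  constructor
  · intro h l hl
    exact h _ (List.mem_map.2 ⟨l, List.mem_range.2 hl, rfl⟩)
  · intro h φ hφ
    obtain ⟨l, hl, rfl⟩ := List.mem_map.1 hφ
    exact h l (List.mem_range.1 hl)

theorem hyp_holds {R : Type} [CommRing R] [LinearOrder R] (T : Tm n)
    (nd : ℕ → Tm (n + k) × Tm (n + k)) (m : ℕ) (ix : Tm (n + k) × Tm (n + k) → ℕ)
    (w : ℕ → R) (x : R) (v : Fin n → R) :
    (Hyp T nd m ix).holds (appW (KK m k) w (Fin.cons x v : Fin (n + 1) → R)) ↔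
      (x = ∑ i ∈ Finset.range m, (C0 T nd m).val v ^ i * w (2 + i) + (L0 T nd m).val v *
        ∑ j ∈ Finset.range m, (C0 T nd m).val v ^ (m * j) * w (2 + m + j)) ∧
      (x * x = w 0 + (L0 T nd m).val v *
        ((∑ j ∈ Finset.range (m * m), (C0 T nd m).val v ^ j * w (2 + 2 * m + j)) +
        (∑ j ∈ Finset.range (m * m), (C0 T nd m).val v ^ j * w (2 + 2 * m + j))) +
        (L0 T nd m).val v * (L0 T nd m).val v * w 1) ∧
      w 0 < (L0 T nd m).val v ∧
      (∑ j ∈ Finset.range (m * m), (C0 T nd m).val v ^ j * w (2 + 2 * m + j)) +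
        (∑ j ∈ Finset.range (m * m), (C0 T nd m).val v ^ j * w (2 + 2 * m + j)) <
        (L0 T nd m).val v ∧
      w 1 < (L0 T nd m).val v ∧
      (∀ l, l < m → w (2 + l) ≤ (M0 T nd m).val v) ∧
      (∀ l, l < m → w (2 + m + l) ≤ (M0 T nd m).val v) ∧
      (∀ j, j < m * m → w (2 + 2 * m + j) < (C0 T nd m).val v) ∧
      (∀ j, j < k → w (2 + 2 * m + m * m + j) ≤ T.val v) ∧
      (∀ l, l < m → w (2 + l) = (linT (Dt m ix) (rh n k m) (nd l).1).val
        (appW (KK m k) w (Fin.cons x v : Fin (n + 1) → R))) ∧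
      (∀ l, l < m → w (2 + m + l) = (linT (Dt m ix) (rh n k m) (nd l).2).val
        (appW (KK m k) w (Fin.cons x v : Fin (n + 1) → R))) := by
  have hw : ∀ j, j < KK m k → (wv (KK m k) j : Tm (n + 1 + KK m k)).val
      (appW (KK m k) w (Fin.cons x v : Fin (n + 1) → R)) = w j :=
    fun j hj => wv_val w _ _ j hj
  have hK : KK m k = 2 + 2 * m + m * m + k := rfl
  have hP : (Pt T nd m).val (appW (KK m k) w (Fin.cons x v : Fin (n + 1) → R)) =
      ∑ j ∈ Finset.range (m * m), (C0 T nd m).val v ^ j * w (2 + 2 * m + j) := by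
    unfold Pt
    rw [lsum_val]
    refine Finset.sum_congr rfl (fun j hj => ?_)
    have := Finset.mem_range.1 hj
    simp only [Tm.val]
    rw [par_val, powT_val, hw _ (by omega)]
  unfold Hyp
  rw [conj_holds]
  simp only [List.forall_mem_cons, List.not_mem_nil, false_imp_iff, implies_true, and_true,
    conj_range, Fml.holds_le, Fml.holds, Tm.val, hP, par_val, xv_val, lsum_val, powT_val]
  have e1 : (∑ i ∈ Finset.range m, (C0 T nd m).val v ^ i * (wv (KK m k) (2 + i) :
      Tm (n + 1 + KK m k)).val (appW (KK m k) w (Fin.cons x v : Fin (n + 1) → R))) =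
      ∑ i ∈ Finset.range m, (C0 T nd m).val v ^ i * w (2 + i) :=
    Finset.sum_congr rfl (fun i hi => by
      have := Finset.mem_range.1 hi
      rw [hw _ (by omega)])
  have e2 : (∑ i ∈ Finset.range m, (C0 T nd m).val v ^ (m * i) * (wv (KK m k) (2 + m + i) :
      Tm (n + 1 + KK m k)).val (appW (KK m k) w (Fin.cons x v : Fin (n + 1) → R))) =
      ∑ i ∈ Finset.range m, (C0 T nd m).val v ^ (m * i) * w (2 + m + i) :=
    Finset.sum_congr rfl (fun i hi => by
      have := Finset.mem_range.1 hi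
      rw [hw _ (by omega)])
  rw [e1, e2, hw 0 (by omega), hw 1 (by omega)]
  refine and_congr Iff.rfl (and_congr Iff.rfl (and_congr Iff.rfl (and_congr Iff.rfl
    (and_congr Iff.rfl (and_congr ?_ (and_congr ?_ (and_congr ?_ (and_congr ?_
      (and_congr ?_ ?_)))))))))
  all_goals
    refine forall_congr' fun l => imp_congr_right fun hl => ?_
    rw [hw _ (by omega)]

end Enc

end Pool.Agent.H20.E1
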