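import Pool.Agent.H20.E1.Main

set_option autoImplicit false

/-!
# Additive variables: variables which do not occur inside a product
-/

namespace Pool.Agent.H20.E1

theorem Tm.Free.lin {n : ℕ} {i : Fin n} {t : Tm n} (h : t.Free i) : t.Lin i := by
  induction t with
  | var j => trivial
  | zero => trivial
  | one => trivial
  | add s t ihs iht => exact ⟨ihs h.1, iht h.2⟩
  | mul s t ihs iht => exact h

theorem Tm.free_subst {n m : ℕ} {i : Fin n} {j : Fin m} {t : Tm n} (h : t.Free i)
    {σ : Fin n → Tm m} (hσ : ∀ k, k ≠ i → (σ k).Free j) : (t.subst σ).Free j := by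
  induction t with
  | var k => exact hσ k h
  | zero => trivial
  | one => trivial
  | add s t ihs iht => exact ⟨ihs h.1, iht h.2⟩
  | mul s t ihs iht => exact ⟨ihs h.1, iht h.2⟩

theorem Tm.lin_subst {n m : ℕ} {i : Fin n} {j : Fin m} {t : Tm n} (h : t.Lin i)
    {σ : Fin n → Tm m} (hσ : ∀ k, k ≠ i → (σ k).Free j) (hi : (σ i).Lin j) :
    (t.subst σ).Lin j := by
  induction t with
  | var k =>
    by_cases hk : k = i
    · rw [hk]; exact hi
    · exact (hσ k hk).lin
  | zero => trivial
  | one => trivial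
  | add s t ihs iht => exact ⟨ihs h.1, iht h.2⟩
  | mul s t ihs iht => exact ⟨Tm.free_subst h.1 hσ, Tm.free_subst h.2 hσ⟩

theorem Fml.lin_subst {n : ℕ} (φ : Fml n) : φ.IsQF → ∀ {m : ℕ} {i : Fin n} {j : Fin m}
    {σ : Fin n → Tm m}, φ.Lin i → (∀ k, k ≠ i → (σ k).Free j) → (σ i).Lin j →
    (φ.subst σ).Lin j := by
  induction φ with
  | lt s t => intro _ m i j σ h hσ hi; exact ⟨Tm.lin_subst h.1 hσ hi, Tm.lin_subst h.2 hσ hi⟩
  | eq s t => intro _ m i j σ h hσ hi; exact ⟨Tm.lin_subst h.1 hσ hi, Tm.lin_subst h.2 hσ hi⟩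
  | neg φ ih => intro hq m i j σ h hσ hi; exact ih hq h hσ hi
  | and φ ψ ih1 ih2 =>
    intro hq m i j σ h hσ hi; exact ⟨ih1 hq.1 h.1 hσ hi, ih2 hq.2 h.2 hσ hi⟩
  | or φ ψ ih1 ih2 =>
    intro hq m i j σ h hσ hi; exact ⟨ih1 hq.1 h.1 hσ hi, ih2 hq.2 h.2 hσ hi⟩
  | ex t φ ih => intro hq; exact hq.elim
  | all t φ ih => intro hq; exact hq.elim

/-- multiples of a term -/
def nsm {n : ℕ} : ℕ → Tm n → Tm n
  | 0, _ => .zero
  | k + 1, t => .add (nsm k t) t

theorem val_nsm {R : Type} [CommRing R] [LinearOrder R] {n : ℕ} (k : ℕ) (t : Tm n)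
    (v : Fin n → R) : (nsm k t).val v = (k : R) * t.val v := by
  induction k with
  | zero => simp [nsm, Tm.val]
  | succ k ih =>
    simp only [nsm, Tm.val, ih]
    push_cast
    ring

theorem nsm_free {n : ℕ} {i : Fin n} {t : Tm n} (h : t.Free i) (k : ℕ) : (nsm k t).Free i := by
  induction k with
  | zero => trivial
  | succ k ih => exact ⟨ih, h⟩

theorem nsm_lin {n : ℕ} {i : Fin n} {t : Tm n} (h : t.Lin i) (k : ℕ) : (nsm k t).Lin i := by
  induction k with
  | zero => trivial
  | succ k ih => exact ⟨ih, h⟩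

/-- the substitution `x_i ↦ N x_i + r_i` -/
def aff {n : ℕ} (N : ℕ) (r : Fin n → ℕ) : Fin n → Tm n :=
  fun i => .add (nsm N (.var i)) (nsm (r i) .one)

theorem val_aff {R : Type} [CommRing R] [LinearOrder R] {n : ℕ} (N : ℕ) (r : Fin n → ℕ)
    (v : Fin n → R) : (fun i => (aff N r i).val v) = fun i => (N : R) * v i + (r i : R) := by
  funext i
  unfold aff
  simp only [Tm.val, val_nsm, mul_one]

theorem aff_free {n : ℕ} (N : ℕ) (r : Fin n → ℕ) (i k : Fin n) (h : k ≠ i) :
    (aff N r k).Free i :=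
  ⟨nsm_free (t := .var k) h N, nsm_free (t := .one) trivial _⟩

theorem aff_lin {n : ℕ} (N : ℕ) (r : Fin n → ℕ) (i : Fin n) : (aff N r i).Lin i :=
  ⟨nsm_lin (t := .var i) trivial N, nsm_lin (t := .one) trivial _⟩

section Coef

variable {n : ℕ}

/-- coefficient of the variable `0` -/
def coef : Tm (n + 1) → ℕ
  | .var i => if i = 0 then 1 else 0
  | .zero => 0
  | .one => 0
  | .add s t => coef s + coef t
  | .mul _ _ => 0

/-- the term without the variable `0` -/
def rest : Tm (n + 1) → Tm n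
  | .var i => Fin.cases .zero (fun j => .var j) i
  | .zero => .zero
  | .one => .one
  | .add s t => .add (rest s) (rest t)
  | .mul s t => .mul (rest s) (rest t)

theorem val_rest_free {R : Type} [CommRing R] [LinearOrder R] {t : Tm (n + 1)} (h : t.Free 0)
    (z : R) (v : Fin n → R) : t.val (Fin.cons z v : Fin (n + 1) → R) = (rest t).val v := by
  induction t with
  | var i =>
    obtain ⟨j, rfl⟩ := Fin.exists_succ_eq_of_ne_zero h
    rfl
  | zero => rfl
  | one => rfl
  | add s t ihs iht => simp only [Tm.val, rest, ihs h.1, iht h.2]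
  | mul s t ihs iht => simp only [Tm.val, rest, ihs h.1, iht h.2]

theorem val_lin {R : Type} [CommRing R] [LinearOrder R] {t : Tm (n + 1)} (h : t.Lin 0)
    (z : R) (v : Fin n → R) :
    t.val (Fin.cons z v : Fin (n + 1) → R) = (coef t : R) * z + (rest t).val v := by
  induction t with
  | var i =>
    refine Fin.cases ?_ (fun i => ?_) i
    · simp [Tm.val, coef, rest]
    · simp [Tm.val, coef, rest, Fin.succ_ne_zero]
  | zero => simp [Tm.val, coef, rest]
  | one => simp [Tm.val, coef, rest]
  | add s t ihs iht =>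
    simp only [Tm.val, rest, coef, ihs h.1, iht h.2]
    push_cast
    ring
  | mul s t ihs iht =>
    simp only [Tm.val, rest, coef, val_rest_free h.1, val_rest_free h.2]
    push_cast
    ring

theorem rest_free {t : Tm (n + 1)} {i : Fin n} (h : t.Free i.succ) : (rest t).Free i := by
  induction t with
  | var j =>
    revert h
    refine Fin.cases ?_ (fun j => ?_) j
    · intro _; trivial
    · intro h hh
      exact h (congrArg Fin.succ hh)
  | zero => trivial
  | one => trivial
  | add s t ihs iht => exact ⟨ihs h.1, iht h.2⟩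
  | mul s t ihs iht => exact ⟨ihs h.1, iht h.2⟩

theorem rest_lin {t : Tm (n + 1)} {i : Fin n} (h : t.Lin i.succ) : (rest t).Lin i := by
  induction t with
  | var j =>
    refine Fin.cases ?_ (fun j => ?_) j
    · trivial
    · trivial
  | zero => trivial
  | one => trivial
  | add s t ihs iht => exact ⟨ihs h.1, iht h.2⟩
  | mul s t ihs iht => exact ⟨rest_free h.1, rest_free h.2⟩

/-- quotient and remainder of `t(N x + r)` modulo `N` -/
def dv (N : ℕ) (r : Fin n → ℕ) : Tm n → Tm n × ℕ
  | .var i => (.var i, r i)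
  | .zero => (.zero, 0)
  | .one => (.zero, 1)
  | .add s t => (.add (dv N r s).1 (dv N r t).1, (dv N r s).2 + (dv N r t).2)
  | .mul s t => (.add (.add (nsm N (.mul (dv N r s).1 (dv N r t).1))
      (nsm (dv N r t).2 (dv N r s).1)) (nsm (dv N r s).2 (dv N r t).1),
      (dv N r s).2 * (dv N r t).2)

theorem val_dv {R : Type} [CommRing R] [LinearOrder R] (N : ℕ) (r : Fin n → ℕ) (t : Tm n)
    (q : Fin n → R) : t.val (fun i => (N : R) * q i + (r i : R)) =
      (N : R) * (dv N r t).1.val q + ((dv N r t).2 : R) := by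
  induction t with
  | var i => rfl
  | zero => simp [Tm.val, dv]
  | one => simp [Tm.val, dv]
  | add s t ihs iht =>
    simp only [Tm.val, dv, ihs, iht]
    push_cast
    ring
  | mul s t ihs iht =>
    simp only [Tm.val, dv, ihs, iht, val_nsm]
    push_cast
    ring

theorem dv_free (N : ℕ) (r : Fin n → ℕ) {i : Fin n} {t : Tm n} (h : t.Free i) :
    (dv N r t).1.Free i := by
  induction t with
  | var j => exact h
  | zero => trivial
  | one => trivial
  | add s t ihs iht => exact ⟨ihs h.1, iht h.2⟩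
  | mul s t ihs iht =>
    exact ⟨⟨nsm_free (t := .mul _ _) ⟨ihs h.1, iht h.2⟩ N, nsm_free (ihs h.1) _⟩,
      nsm_free (iht h.2) _⟩

theorem dv_lin (N : ℕ) (r : Fin n → ℕ) {i : Fin n} {t : Tm n} (h : t.Lin i) :
    (dv N r t).1.Lin i := by
  induction t with
  | var j => trivial
  | zero => trivial
  | one => trivial
  | add s t ihs iht => exact ⟨ihs h.1, iht h.2⟩
  | mul s t ihs iht => exact (dv_free N r (t := .mul s t) h).lin

end Coef

end Pool.Agent.H20.E1
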