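import Pool.Agent.H20.E1.Cal

set_option autoImplicit false

/-!
# Bounded universal quantification over a quantifier-free formula is `E_1` in `IOpen`
-/

namespace Pool.Agent.H20.E1

open SignType

section Part

variable (M : Mdl)

/-- `[a, t]` is cut into at most `r` intervals with the property `CS` -/
def Part (CS : M.R → M.R → Prop) (t : M.R) : ℕ → M.R → Prop
  | 0, a => t < a
  | r + 1, a => t < a ∨ ∃ c, a ≤ c ∧ c ≤ t ∧ CS a c ∧ Part CS t r (c + 1)

variable {M}

theorem part_succ {CS : M.R → M.R → Prop} {t : M.R} : ∀ {r : ℕ} {a : M.R}, Part M CS t r a →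
    Part M CS t (r + 1) a := by
  intro r
  induction r with
  | zero => intro a h; exact Or.inl h
  | succ r ih =>
    intro a h
    rcases h with h | ⟨c, h1, h2, h3, h4⟩
    · exact Or.inl h
    · exact Or.inr ⟨c, h1, h2, h3, ih h4⟩

theorem part_add {CS : M.R → M.R → Prop} {t : M.R} {s : ℕ} {a : M.R} (h : Part M CS t s a) :
    ∀ r : ℕ, Part M CS t (r + s) a := by
  intro r
  induction r with
  | zero => rw [Nat.zero_add]; exact h
  | succ r ih =>
    have e : r + 1 + s = (r + s) + 1 := by omega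
    rw [e]
    exact part_succ ih

theorem part_append {CS : M.R → M.R → Prop} {t c : M.R} (hct : c ≤ t) {s : ℕ}
    (h' : Part M CS t s (c + 1)) : ∀ {r : ℕ} {a : M.R}, a ≤ c + 1 → Part M CS c r a →
    Part M CS t (r + s) a := by
  intro r
  induction r with
  | zero =>
    intro a ha h
    have h1 : a = c + 1 := le_antisymm ha (M.succ_le h)
    rw [h1]
    exact part_add h' 0
  | succ r ih =>
    intro a ha h
    rcases h with h | ⟨c1, h1, h2, h3, h4⟩
    · have h1 : a = c + 1 := le_antisymm ha (M.succ_le h)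
      rw [h1]
      exact part_add h' (r + 1)
    · have h5 := ih (by linarith) h4
      have e : r + 1 + s = (r + s) + 1 := by omega
      rw [e]
      exact Or.inr ⟨c1, h1, h2.trans hct, h3, h5⟩

theorem part_imp {CS CS' : M.R → M.R → Prop} {t : M.R} : ∀ {r : ℕ} {a : M.R},
    (∀ a' c', a ≤ a' → a' ≤ c' → c' ≤ t → CS a' c' → CS' a' c') → Part M CS t r a →
    Part M CS' t r a := by
  intro r
  induction r with
  | zero => intro a _ h; exact h
  | succ r ih =>
    intro a hi h
    rcases h with h | ⟨c, h1, h2, h3, h4⟩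
    · exact Or.inl h
    · refine Or.inr ⟨c, h1, h2, hi a c le_rfl h1 h2 h3, ih (fun a' c' ha' => hi a' c' ?_) h4⟩
      linarith

theorem part_refine {CS CS' : M.R → M.R → Prop} {t : M.R} {K : ℕ} : ∀ {r : ℕ} {a : M.R}, 0 ≤ a →
    (∀ a' c', 0 ≤ a' → a' ≤ c' → c' ≤ t → CS a' c' → Part M CS' c' K a') → Part M CS t r a →
    Part M CS' t (K * r) a := by
  intro r
  induction r with
  | zero => intro a _ _ h; exact h
  | succ r ih =>
    intro a ha hi h
    rcases h with h | ⟨c, h1, h2, h3, h4⟩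
    · exact part_add (s := 0) h (K * (r + 1))
    · have h5 := ih (by linarith) hi h4
      have e : K * (r + 1) = K + K * r := by ring
      rw [e]
      exact part_append h2 h5 (by linarith) (hi a c ha h1 h2 h3)

end Part

section Split

variable {M : Mdl} {n : ℕ}

/-- constant sign on `[a, c]` -/
def CSg (p : Tm (n + 1) × Tm (n + 1)) (v : Fin n → M.R) (a c : M.R) : Prop :=
  ∀ y, a ≤ y → y ≤ c → sign (fn p v y) = sign (fn p v a)

def CSL (L : List (Tm (n + 1) × Tm (n + 1))) (v : Fin n → M.R) (a c : M.R) : Prop :=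
  ∀ p ∈ L, CSg p v a c

theorem CSg.sub {p : Tm (n + 1) × Tm (n + 1)} {v : Fin n → M.R} {a c a' c' : M.R}
    (h : CSg p v a c) (h1 : a ≤ a') (h2 : a' ≤ c') (h3 : c' ≤ c) : CSg p v a' c' := by
  intro y hy hy'
  rw [h y (h1.trans hy) (hy'.trans h3), h a' h1 (h2.trans h3)]

def neg (p : Tm (n + 1) × Tm (n + 1)) : Tm (n + 1) × Tm (n + 1) := (p.2, p.1)

theorem fn_neg (p : Tm (n + 1) × Tm (n + 1)) (v : Fin n → M.R) (y : M.R) :
    fn (neg p) v y = - fn p v y := by
  unfold fn neg
  ring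

theorem dif_neg' (p : Tm (n + 1) × Tm (n + 1)) : dif (neg p) = neg (dif p) := rfl

theorem csg_neg {p : Tm (n + 1) × Tm (n + 1)} {v : Fin n → M.R} {a c : M.R}
    (h : CSg (neg p) v a c) : CSg p v a c := by
  intro y hy hy'
  have h1 := h y hy hy'
  rw [fn_neg, fn_neg, Left.sign_neg, Left.sign_neg] at h1
  exact neg_injective h1

theorem csg_pos {p : Tm (n + 1) × Tm (n + 1)} {v : Fin n → M.R} {a c : M.R}
    (hac : a ≤ c) (h : ∀ y, a ≤ y → y ≤ c → 0 < fn p v y) : CSg p v a c := by
  intro y hy hy'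
  rw [sign_pos (h y hy hy'), sign_pos (h a le_rfl hac)]

theorem csg_negv {p : Tm (n + 1) × Tm (n + 1)} {v : Fin n → M.R} {a c : M.R}
    (hac : a ≤ c) (h : ∀ y, a ≤ y → y ≤ c → fn p v y < 0) : CSg p v a c := by
  intro y hy hy'
  rw [sign_neg (h y hy hy'), sign_neg (h a le_rfl hac)]

theorem csg_refl (p : Tm (n + 1) × Tm (n + 1)) (v : Fin n → M.R) (a : M.R) : CSg p v a a := by
  intro y hy hy'
  rw [le_antisymm hy' hy]

theorem part_one {CS : M.R → M.R → Prop} {b c : M.R} (h : b ≤ c → CS b c) :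
    Part M CS c 1 b := by
  rcases lt_or_ge c b with h1 | h1
  · exact Or.inl h1
  · exact Or.inr ⟨c, h1, le_rfl, h h1, lt_add_one c⟩

theorem split_pos (p : Tm (n + 1) × Tm (n + 1)) (v : Fin n → M.R) (hv : ∀ i, 0 ≤ v i)
    {a c : M.R} (ha : 0 ≤ a) (hac : a ≤ c)
    (h : ∀ y, a ≤ y → y ≤ c → 0 < fn (dif p) v y) : Part M (CSg p v) c 3 a := by
  have hst : ∀ x y, a ≤ x → x < y → y ≤ c → fn p v x < fn p v y := by
    intro x y hax hxy hyc
    have h1 := h x hax (hxy.le.trans hyc)
    rw [fn_dif] at h1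
    have h2 := M.mono p v hv (x := x + 1) (c := c) (by linarith) (ha.trans hac)
      (fun z hz hz' => (h z (by linarith) hz'.le).le) y (M.succ_le hxy) hyc
    linarith
  have hle : ∀ x y, a ≤ x → x ≤ y → y ≤ c → fn p v x ≤ fn p v y := by
    intro x y hax hxy hyc
    rcases hxy.eq_or_lt with h1 | h1
    · rw [h1]
    · exact (hst x y hax h1 hyc).le
  rcases lt_or_ge (fn p v c) 0 with hc | hc
  · exact part_add (part_one fun _ => csg_negv hac (fun y hy hy' =>
      (hle y c hy hy' le_rfl).trans_lt hc)) 2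
  rcases lt_trichotomy (fn p v a) 0 with h0 | h0 | h0
  · obtain ⟨u, h1, h2, h3, h4⟩ := M.cross p v hv ha hac h0 hc
    refine Or.inr ⟨u, h1, h2.le, csg_negv h1 (fun y hy hy' => (hle y u hy hy' h2.le).trans_lt h3), ?_⟩
    rcases h4.eq_or_lt with h5 | h5
    · refine Or.inr ⟨u + 1, le_rfl, M.succ_le h2, csg_refl _ _ _, part_one fun h6 => ?_⟩
      refine csg_pos h6 (fun y hy hy' => ?_)
      rw [h5]
      exact hst (u + 1) y (by linarith) (by linarith) hy'
    · refine part_add (part_one fun h6 => ?_) 1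
      refine csg_pos h6 (fun y hy hy' => ?_)
      exact h5.trans_le (hle (u + 1) y (by linarith) hy hy')
  · refine part_add (s := 2) (Or.inr ⟨a, le_rfl, hac, csg_refl _ _ _, part_one fun h6 => ?_⟩) 1
    refine csg_pos h6 (fun y hy hy' => ?_)
    have h7 := hst a y le_rfl (by linarith) hy'
    rw [h0] at h7
    exact h7
  · exact part_add (part_one fun _ => csg_pos hac (fun y hy hy' =>
      h0.trans_le (hle a y le_rfl hy hy'))) 2

theorem split3 (p : Tm (n + 1) × Tm (n + 1)) (v : Fin n → M.R) (hv : ∀ i, 0 ≤ v i)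
    {a c : M.R} (ha : 0 ≤ a) (hac : a ≤ c) (h : CSg (dif p) v a c) : Part M (CSg p v) c 3 a := by
  rcases lt_trichotomy (fn (dif p) v a) 0 with h0 | h0 | h0
  · have h1 : Part M (CSg (neg p) v) c 3 a := by
      refine split_pos (neg p) v hv ha hac (fun y hy hy' => ?_)
      rw [dif_neg', fn_neg, neg_pos]
      have h2 := h y hy hy'
      rw [sign_neg h0, sign_eq_neg_one_iff] at h2
      exact h2
    exact part_imp (fun a' c' _ _ _ h2 => csg_neg h2) h1
  · refine part_add (part_one fun _ => ?_) 2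
    have h1 : ∀ y, a ≤ y → y ≤ c → fn (dif p) v y = 0 := by
      intro y hy hy'
      have h2 := h y hy hy'
      rw [h0, sign_zero, sign_eq_zero_iff] at h2
      exact h2
    intro y hy hy'
    have h3 := M.mono p v hv ha (ha.trans hac) (fun z hz hz' => (h1 z hz hz'.le).ge) y hy hy'
    have h4 := M.mono (neg p) v hv ha (ha.trans hac) (fun z hz hz' => by
      rw [dif_neg', fn_neg, h1 z hz hz'.le, neg_zero]) y hy hy'
    rw [fn_neg, fn_neg] at h4
    rw [le_antisymm h3 (by linarith)]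
  · refine split_pos p v hv ha hac (fun y hy hy' => ?_)
    have h2 := h y hy hy'
    rw [sign_pos h0, sign_eq_one_iff] at h2
    exact h2

/-- if the difference has constant sign and the signs at the ends agree, the sign is constant -/
theorem csg_of_ends (p : Tm (n + 1) × Tm (n + 1)) (v : Fin n → M.R) (hv : ∀ i, 0 ≤ v i)
    {a c : M.R} (ha : 0 ≤ a) (hac : a ≤ c) (h : CSg (dif p) v a c)
    (he : sign (fn p v a) = sign (fn p v c)) : CSg p v a c := by
  have hc : 0 ≤ c := ha.trans hac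
  rcases le_total 0 (fn (dif p) v a) with h0 | h0
  · have h1 : ∀ y, a ≤ y → y ≤ c → 0 ≤ fn (dif p) v y := by
      intro y hy hy'
      have h2 := h y hy hy'
      rcases h0.eq_or_lt with h3 | h3
      · rw [← h3, sign_zero, sign_eq_zero_iff] at h2
        exact h2.ge
      · rw [sign_pos h3, sign_eq_one_iff] at h2
        exact h2.le
    intro y hy hy'
    have h3 := M.mono p v hv ha hc (fun z hz hz' => h1 z hz hz'.le) y hy hy'
    have h4 := M.mono p v hv (ha.trans hy) hc (fun z hz hz' => h1 z (hy.trans hz) hz'.le) c hy' le_rfl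
    refine le_antisymm ?_ (sign.monotone h3)
    rw [he]
    exact sign.monotone h4
  · have h1 : ∀ y, a ≤ y → y ≤ c → 0 ≤ fn (dif (neg p)) v y := by
      intro y hy hy'
      rw [dif_neg', fn_neg, neg_nonneg]
      have h2 := h y hy hy'
      rcases h0.eq_or_lt with h3 | h3
      · rw [h3, sign_zero, sign_eq_zero_iff] at h2
        exact h2.le
      · rw [sign_neg h3, sign_eq_neg_one_iff] at h2
        exact h2.le
    intro y hy hy'
    have h3 := M.mono (neg p) v hv ha hc (fun z hz hz' => h1 z hz hz'.le) y hy hy'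
    have h4 := M.mono (neg p) v hv (ha.trans hy) hc
      (fun z hz hz' => h1 z (hy.trans hz) hz'.le) c hy' le_rfl
    rw [fn_neg, fn_neg] at h3 h4
    refine le_antisymm (sign.monotone (by linarith)) ?_
    rw [he]
    exact sign.monotone (by linarith)

def chain : ℕ → Tm (n + 1) × Tm (n + 1) → List (Tm (n + 1) × Tm (n + 1))
  | 0, _ => []
  | k + 1, p => p :: chain k (dif p)

theorem csg_dif {k : ℕ} {p : Tm (n + 1) × Tm (n + 1)} {v : Fin n → M.R}
    (hk : Kil (k + 1) (fn p v)) {a c : M.R} (h : ∀ q ∈ chain k (dif p), CSg q v a c) :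
    CSg (dif p) v a c := by
  rcases k with _ | k
  · have h1 : Kil 0 (fn (dif p) v) := kil_dif p v hk
    intro y _ _
    rw [h1 y, h1 a]
  · exact h (dif p) (List.mem_cons_self ..)

theorem cert : ∀ {k : ℕ} {p : Tm (n + 1) × Tm (n + 1)} {v : Fin n → M.R}, (∀ i, 0 ≤ v i) →
    Kil k (fn p v) → ∀ {a c : M.R}, 0 ≤ a → a ≤ c →
    (∀ q ∈ chain k p, sign (fn q v a) = sign (fn q v c)) → ∀ q ∈ chain k p, CSg q v a c := by
  intro k
  induction k with
  | zero => intro p v hv hk a c ha hac h q hq; exact absurd hq (List.not_mem_nil)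
  | succ k ih =>
    intro p v hv hk a c ha hac h q hq
    have h1 : ∀ q ∈ chain k (dif p), CSg q v a c :=
      ih hv (kil_dif p v hk) ha hac (fun q hq => h q (List.mem_cons_of_mem _ hq))
    rcases List.mem_cons.1 hq with rfl | hq
    · exact csg_of_ends _ v hv ha hac (csg_dif hk h1) (h _ (List.mem_cons_self ..))
    · exact h1 q hq

end Split

section Exist

variable {n : ℕ}

def HasPart (L : List (Tm (n + 1) × Tm (n + 1))) : Prop :=
  ∃ r : ℕ, ∀ (M : Mdl) (v : Fin n → M.R), (∀ i, 0 ≤ v i) → ∀ t : M.R, 0 ≤ t →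
    Part M (CSL L v) t r 0

theorem hasPart_nil : HasPart (n := n) [] :=
  ⟨1, fun _ _ _ _ _ => part_one fun _ _ hp => absurd hp (List.not_mem_nil)⟩

theorem hasPart_cons {L : List (Tm (n + 1) × Tm (n + 1))} (h : HasPart L)
    (p : Tm (n + 1) × Tm (n + 1))
    (hp : ∀ (M : Mdl) (v : Fin n → M.R) (a c : M.R), CSL L v a c → CSg (dif p) v a c) :
    HasPart (p :: L) := by
  obtain ⟨r, hr⟩ := h
  refine ⟨3 * r, fun M v hv t ht => part_refine le_rfl ?_ (hr M v hv t ht)⟩
  intro a c ha hac _ h1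
  refine part_imp (fun a' c' h2 h3 h4 h5 => ?_) (split3 p v hv ha hac (hp M v a c h1))
  intro q hq
  rcases List.mem_cons.1 hq with rfl | hq
  · exact h5
  · exact (h1 q hq).sub h2 h3 h4

theorem hasPart_chain {L : List (Tm (n + 1) × Tm (n + 1))} (h : HasPart L) : ∀ (k : ℕ)
    (p : Tm (n + 1) × Tm (n + 1)), (∀ (M : Mdl) (v : Fin n → M.R), Kil k (fn p v)) →
    HasPart (chain k p ++ L) := by
  intro k
  induction k with
  | zero => intro p _; exact h
  | succ k ih =>
    intro p hp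
    refine hasPart_cons (ih (dif p) (fun M v => kil_dif p v (hp M v))) p (fun M v a c h1 => ?_)
    exact csg_dif (hp M v) (fun q hq => h1 q (List.mem_append_left _ hq))

def big (L : List (Tm (n + 1) × Tm (n + 1))) : List (Tm (n + 1) × Tm (n + 1)) :=
  L.flatMap (fun p => chain (pdeg p) p)

theorem hasPart_big (L : List (Tm (n + 1) × Tm (n + 1))) : HasPart (big L) := by
  induction L with
  | nil => exact hasPart_nil
  | cons p L ih =>
    have h := hasPart_chain ih (pdeg p) p (fun M v => kil_fn p v)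
    exact h

theorem deg_pos (t : Tm (n + 1)) : 0 < deg t := by
  induction t with
  | var i => exact Nat.succ_pos _
  | zero => exact Nat.succ_pos _
  | one => exact Nat.succ_pos _
  | add s t ihs iht => exact Nat.add_pos_left ihs _
  | mul s t ihs iht => exact Nat.add_pos_left ihs _

theorem mem_big {L : List (Tm (n + 1) × Tm (n + 1))} {p : Tm (n + 1) × Tm (n + 1)} (hp : p ∈ L) :
    p ∈ big L := by
  refine List.mem_flatMap.2 ⟨p, hp, ?_⟩
  obtain ⟨k, hk⟩ : ∃ k, pdeg p = k + 1 := ⟨pdeg p - 1, by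
    have := deg_pos p.1
    unfold pdeg
    omega⟩
  rw [hk]
  exact List.mem_cons_self ..

theorem cert_big {M : Mdl} {L : List (Tm (n + 1) × Tm (n + 1))} {v : Fin n → M.R}
    (hv : ∀ i, 0 ≤ v i) {a c : M.R} (ha : 0 ≤ a) (hac : a ≤ c)
    (h : ∀ q ∈ big L, sign (fn q v a) = sign (fn q v c)) : CSL (big L) v a c := by
  intro q hq
  obtain ⟨p, hp, hq'⟩ := List.mem_flatMap.1 hq
  exact cert hv (kil_fn p v) ha hac (fun q hq => h q (List.mem_flatMap.2 ⟨p, hp, hq⟩)) q hq'

end Exist

/-- the atoms of a formula -/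
def atoms : {m : ℕ} → Fml m → List (Tm m × Tm m)
  | _, .lt s t => [(s, t)]
  | _, .eq s t => [(s, t)]
  | _, .neg φ => atoms φ
  | _, .and φ ψ => atoms φ ++ atoms ψ
  | _, .or φ ψ => atoms φ ++ atoms ψ
  | _, .ex _ _ => []
  | _, .all _ _ => []

theorem holds_const {M : Mdl} {m : ℕ} (φ : Fml m) : φ.IsQF → ∀ (w w' : Fin m → M.R),
    (∀ p ∈ atoms φ, sign (p.2.val w - p.1.val w) = sign (p.2.val w' - p.1.val w')) →
    (φ.holds w ↔ φ.holds w') := by
  induction φ with
  | lt s t =>
    intro _ w w' h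
    have h1 := h (s, t) (List.mem_singleton.2 rfl)
    simp only [Fml.holds]
    rw [← sub_pos, ← sign_eq_one_iff, h1, sign_eq_one_iff, sub_pos]
  | eq s t =>
    intro _ w w' h
    have h1 := h (s, t) (List.mem_singleton.2 rfl)
    simp only [Fml.holds]
    rw [eq_comm, ← sub_eq_zero, ← sign_eq_zero_iff, h1, sign_eq_zero_iff, sub_eq_zero, eq_comm]
  | neg φ ih => intro hq w w' h; exact not_congr (ih hq w w' h)
  | and φ ψ ih1 ih2 =>
    intro hq w w' h
    exact and_congr (ih1 hq.1 w w' (fun p hp => h p (List.mem_append_left _ hp)))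
      (ih2 hq.2 w w' (fun p hp => h p (List.mem_append_right _ hp)))
  | or φ ψ ih1 ih2 =>
    intro hq w w' h
    exact or_congr (ih1 hq.1 w w' (fun p hp => h p (List.mem_append_left _ hp)))
      (ih2 hq.2 w w' (fun p hp => h p (List.mem_append_right _ hp)))
  | ex t φ ih => intro hq; exact hq.elim
  | all t φ ih => intro hq; exact hq.elim

section Form

variable {n : ℕ}

/-- the certificate: equal signs at `a` (variable `1`) and `c` (variable `0`) -/
def σa (n : ℕ) : Fin (n + 1) → Tm (n + 2) := Fin.cons (.var 1) (fun i => .var i.succ.succ)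

def σc (n : ℕ) : Fin (n + 1) → Tm (n + 2) := Fin.cons (.var 0) (fun i => .var i.succ.succ)

theorem val_σa {M : Mdl} (c a : M.R) (v : Fin n → M.R) :
    (fun i => (σa n i).val (Fin.cons c (Fin.cons a v : Fin (n + 1) → M.R) : Fin (n + 2) → M.R)) =
      (Fin.cons a v : Fin (n + 1) → M.R) := by
  funext i
  refine Fin.cases ?_ (fun i => ?_) i
  · rfl
  · rfl

theorem val_σc {M : Mdl} (c a : M.R) (v : Fin n → M.R) :
    (fun i => (σc n i).val (Fin.cons c (Fin.cons a v : Fin (n + 1) → M.R) : Fin (n + 2) → M.R)) =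
      (Fin.cons c v : Fin (n + 1) → M.R) := by
  funext i
  refine Fin.cases ?_ (fun i => ?_) i
  · rfl
  · rfl

def ssq (q : Tm (n + 1) × Tm (n + 1)) : Fml (n + 2) :=
  .or (.or (.and (.lt (q.1.subst (σa n)) (q.2.subst (σa n)))
        (.lt (q.1.subst (σc n)) (q.2.subst (σc n))))
      (.and (.eq (q.1.subst (σa n)) (q.2.subst (σa n)))
        (.eq (q.1.subst (σc n)) (q.2.subst (σc n)))))
    (.and (.lt (q.2.subst (σa n)) (q.1.subst (σa n)))
      (.lt (q.2.subst (σc n)) (q.1.subst (σc n))))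

theorem holds_ssq {M : Mdl} (q : Tm (n + 1) × Tm (n + 1)) (c a : M.R) (v : Fin n → M.R) :
    (ssq q).holds (Fin.cons c (Fin.cons a v : Fin (n + 1) → M.R) : Fin (n + 2) → M.R) ↔
      sign (fn q v a) = sign (fn q v c) := by
  unfold ssq fn
  simp only [Fml.holds, Tm.val_subst, val_σa, val_σc]
  set x := q.1.val (Fin.cons a v : Fin (n + 1) → M.R)
  set y := q.2.val (Fin.cons a v : Fin (n + 1) → M.R)
  set z := q.1.val (Fin.cons c v : Fin (n + 1) → M.R)
  set w := q.2.val (Fin.cons c v : Fin (n + 1) → M.R)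
  constructor
  · rintro ((⟨h1, h2⟩ | ⟨h1, h2⟩) | ⟨h1, h2⟩)
    · rw [sign_pos (sub_pos.2 h1), sign_pos (sub_pos.2 h2)]
    · rw [h1, h2, sub_self, sub_self]
    · rw [sign_neg (sub_neg.2 h1), sign_neg (sub_neg.2 h2)]
  · intro h
    rcases lt_trichotomy x y with h1 | h1 | h1
    · rw [sign_pos (sub_pos.2 h1)] at h
      exact Or.inl (Or.inl ⟨h1, sub_pos.1 (sign_eq_one_iff.1 h.symm)⟩)
    · rw [h1, sub_self, sign_zero] at h
      exact Or.inl (Or.inr ⟨h1, (sub_eq_zero.1 (sign_eq_zero_iff.1 h.symm)).symm⟩)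
    · rw [sign_neg (sub_neg.2 h1)] at h
      exact Or.inr ⟨h1, sub_neg.1 (sign_eq_neg_one_iff.1 h.symm)⟩

def ssL : List (Tm (n + 1) × Tm (n + 1)) → Fml (n + 2)
  | [] => .eq .zero .zero
  | q :: L => .and (ssq q) (ssL L)

theorem isQF_ssL (L : List (Tm (n + 1) × Tm (n + 1))) : (ssL L).IsQF := by
  induction L with
  | nil => trivial
  | cons q L ih => exact ⟨⟨⟨⟨trivial, trivial⟩, ⟨trivial, trivial⟩⟩, ⟨trivial, trivial⟩⟩, ih⟩

theorem holds_ssL {M : Mdl} (L : List (Tm (n + 1) × Tm (n + 1))) (c a : M.R) (v : Fin n → M.R) :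
    (ssL L).holds (Fin.cons c (Fin.cons a v : Fin (n + 1) → M.R) : Fin (n + 2) → M.R) ↔
      ∀ q ∈ L, sign (fn q v a) = sign (fn q v c) := by
  induction L with
  | nil =>
    simp only [ssL, Fml.holds, List.not_mem_nil, false_imp_iff, implies_true]
  | cons q L ih =>
    simp only [ssL, Fml.holds, List.forall_mem_cons]
    rw [holds_ssq, ih]

/-- `[a, t]` is cut into at most `r` certified intervals, and `θ` holds at their left ends -/
def Good {M : Mdl} (θ : Fml (n + 1)) (L : List (Tm (n + 1) × Tm (n + 1))) (v : Fin n → M.R)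
    (t : M.R) : ℕ → M.R → Prop
  | 0, a => t < a
  | r + 1, a => t < a ∨ ∃ c, 0 ≤ c ∧ c ≤ t ∧
      ((a ≤ c ∧ (∀ q ∈ L, sign (fn q v a) = sign (fn q v c)) ∧
        θ.holds (Fin.cons a v : Fin (n + 1) → M.R)) ∧ Good θ L v t r (c + 1))

theorem e1d_good (θ : Fml (n + 1)) (hθ : θ.IsQF) (L : List (Tm (n + 1) × Tm (n + 1)))
    (t : Tm n) : ∀ r : ℕ, E1D (n + 1) (fun M w => Good θ L (Fin.tail w) (t.val (Fin.tail w)) r
      (w 0)) := by
  intro r
  have h0 : E1D (n + 1) (fun M w => (t.val (Fin.tail w) : M.R) < w 0) := by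
    refine (E1D.qf (.lt t.lift (.var 0)) trivial).congr (fun M w _ => ?_)
    have e : w = (Fin.cons (w 0) (Fin.tail w) : Fin (n + 1) → M.R) := (Fin.cons_self_tail w).symm
    show _ ↔ t.lift.val w < w 0
    conv_rhs => rw [e, Tm.val_lift]
    rfl
  induction r with
  | zero => exact h0
  | succ r ih =>
    let σ : Fin (n + 1) → Tm (n + 2) := Fin.cons (.add (.var 0) .one) (fun i => .var i.succ.succ)
    have h1 := E1D.qf (n := n + 2) (.and (Fml.le (.var 1) (.var 0))
      (.and (ssL L) (θ.subst (σa n))))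
      ⟨⟨trivial, trivial⟩, isQF_ssL L, Fml.isQF_subst _ _ hθ⟩
    have h2 := (h1.and (ih.subst σ)).ex t.lift
    refine (h0.or h2).congr (fun M w hw => ?_)
    have e : w = (Fin.cons (w 0) (Fin.tail w) : Fin (n + 1) → M.R) := (Fin.cons_self_tail w).symm
    generalize w 0 = a at *
    generalize Fin.tail w = v at *
    subst e
    show (_ ∨ _) ↔ (_ ∨ _)
    refine or_congr Iff.rfl ?_
    rw [Tm.val_lift]
    refine exists_congr (fun c => and_congr Iff.rfl (and_congr Iff.rfl (and_congr ?_ ?_)))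
    · simp only [Fml.holds]
      rw [Fml.holds_le, holds_ssL, Fml.holds_subst, val_σa]
      rfl
    · have e2 : (fun i => (σ i).val (Fin.cons c (Fin.cons a v : Fin (n + 1) → M.R) :
          Fin (n + 2) → M.R)) = (Fin.cons (c + 1) v : Fin (n + 1) → M.R) := by
        funext i
        refine Fin.cases ?_ (fun i => ?_) i
        · rfl
        · rfl
      show _ ↔ Good θ L (Fin.tail (fun i => (σ i).val (Fin.cons c (Fin.cons a v :
        Fin (n + 1) → M.R) : Fin (n + 2) → M.R))) _ r _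
      rw [e2]
      rfl

theorem good_of_part {M : Mdl} {θ : Fml (n + 1)} {L : List (Tm (n + 1) × Tm (n + 1))}
    {v : Fin n → M.R} {t : M.R}
    (hθ : ∀ y : M.R, 0 ≤ y → y ≤ t → θ.holds (Fin.cons y v : Fin (n + 1) → M.R)) :
    ∀ {r : ℕ} {a : M.R}, 0 ≤ a → Part M (CSL L v) t r a → Good θ L v t r a := by
  intro r
  induction r with
  | zero => intro a _ h; exact h
  | succ r ih =>
    intro a ha h
    rcases h with h | ⟨c, h1, h2, h3, h4⟩
    · exact Or.inl h
    · exact Or.inr ⟨c, ha.trans h1, h2, ⟨h1, fun q hq => (h3 q hq c h1 le_rfl).symm,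
        hθ a ha (h1.trans h2)⟩, ih (by linarith) h4⟩

theorem all_of_good {M : Mdl} {θ : Fml (n + 1)} (hq : θ.IsQF)
    {v : Fin n → M.R} (hv : ∀ i, 0 ≤ v i) {t : M.R} :
    ∀ {r : ℕ} {a : M.R}, 0 ≤ a → Good θ (big (atoms θ)) v t r a →
      ∀ y : M.R, a ≤ y → y ≤ t → θ.holds (Fin.cons y v : Fin (n + 1) → M.R) := by
  intro r
  induction r with
  | zero => intro a _ h y hy hy'; exact absurd (hy.trans hy') (not_le.2 h)
  | succ r ih =>
    intro a ha h y hy hy'
    rcases h with h | ⟨c, hc0, hct, ⟨hac, hs, hh⟩, hg⟩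
    · exact absurd (hy.trans hy') (not_le.2 h)
    · rcases le_or_gt y c with h1 | h1
      · have h2 := cert_big hv ha hac hs
        refine (holds_const θ hq _ _ (fun p hp => ?_)).2 hh
        exact h2 p (mem_big hp) y hy h1
      · exact ih (by linarith) hg y (M.succ_le h1) hy'

/-- the main step: one bounded universal quantifier before a quantifier-free formula -/
theorem all_qf (t : Tm n) (θ : Fml (n + 1)) (hq : θ.IsQF) :
    E1D n (fun M v => ∀ a : M.R, 0 ≤ a → a ≤ t.val v →
      θ.holds (Fin.cons a v : Fin (n + 1) → M.R)) := by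
  obtain ⟨r, hr⟩ := hasPart_big (atoms θ)
  let σ : Fin (n + 1) → Tm n := Fin.cons .zero (fun i => .var i)
  refine ((e1d_good θ hq (big (atoms θ)) t r).subst σ).congr (fun M v hv => ?_)
  have e : (fun i => (σ i).val v) = (Fin.cons 0 v : Fin (n + 1) → M.R) := by
    funext i
    refine Fin.cases ?_ (fun i => ?_) i
    · rfl
    · rfl
  rw [e]
  show _ ↔ Good θ (big (atoms θ)) v (t.val v) r 0
  constructor
  · intro h
    exact good_of_part h le_rfl (hr M v hv _ (Tm.val_nonneg t v hv))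
  · intro h a ha hat
    exact all_of_good hq hv le_rfl h a ha hat

end Form

end Pool.Agent.H20.E1
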