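import Pool.Agent.H20.E1.Main

set_option autoImplicit false

/-!
# `PA^-` is not enough
-/

namespace Pool.Agent.H20.E1

open Filter Polynomial

section Up

variable {R S : Type} [CommRing R] [LinearOrder R] [CommRing S] [LinearOrder S]

theorem val_map (f : R →+* S) {n : ℕ} (v : Fin n → R) (t : Tm n) :
    t.val (fun i => f (v i)) = f (t.val v) := by
  induction t with
  | var i => rfl
  | zero => exact (map_zero f).symm
  | one => exact (map_one f).symm
  | add s t ihs iht => simp only [Tm.val, ihs, iht, map_add]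
  | mul s t ihs iht => simp only [Tm.val, ihs, iht, map_mul]

theorem qf_map (f : R →+* S) (hf : StrictMono f) {n : ℕ} (φ : Fml n) : φ.IsQF →
    ∀ v : Fin n → R, (φ.holds (fun i => f (v i)) ↔ φ.holds v) := by
  induction φ with
  | lt s t => intro _ v; simp only [Fml.holds, val_map]; exact hf.lt_iff_lt
  | eq s t => intro _ v; simp only [Fml.holds, val_map]; exact hf.injective.eq_iff
  | neg φ ih => intro h v; exact not_congr (ih h v)
  | and φ ψ ih1 ih2 => intro h v; exact and_congr (ih1 h.1 v) (ih2 h.2 v)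
  | or φ ψ ih1 ih2 => intro h v; exact or_congr (ih1 h.1 v) (ih2 h.2 v)
  | ex t φ ih => intro h; exact h.elim
  | all t φ ih => intro h; exact h.elim

/-- `E_1` formulas are preserved by embeddings -/
theorem e1_up (f : R →+* S) (hf : StrictMono f) {n : ℕ} {φ : Fml n} (h : IsE1 φ) :
    ∀ v : Fin n → R, φ.holds v → φ.holds (fun i => f (v i)) := by
  induction h with
  | qf h => intro v hv; exact (qf_map f hf _ h v).2 hv
  | ex t _ ih =>
    rintro v ⟨a, ha, hat, hh⟩
    refine ⟨f a, ?_, ?_, ?_⟩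
    · rw [← map_zero f]; exact hf.monotone ha
    · rw [val_map]; exact hf.monotone hat
    · have h1 := ih _ hh
      have e : (fun i => f ((Fin.cons a v : Fin _ → R) i)) =
          (Fin.cons (f a) (fun i => f (v i)) : Fin _ → S) := by
        funext i
        refine Fin.cases ?_ (fun i => ?_) i
        · rfl
        · rfl
      rw [e] at h1
      exact h1

end Up

/-- the ultrapower of `ℤ` -/
abbrev US : Type := (hyperfilter ℕ : Filter ℕ).Germ ℤ

noncomputable def om : US := ((fun n : ℕ => (n : ℤ)) : ℕ → ℤ)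

theorem us_disc (a : US) (h : 0 < a) : 1 ≤ a := by
  induction a using Filter.Germ.inductionOn with
  | _ f =>
    have h1 : ∀ᶠ n in (hyperfilter ℕ : Filter ℕ), 0 < f n := by
      have := (Filter.Germ.coe_lt (f := fun _ => (0 : ℤ)) (g := f)).1 h
      exact this
    exact (Filter.Germ.coe_le (f := fun _ => (1 : ℤ)) (g := f)).2 (h1.mono fun n hn => hn)

/-- the ring generated by `2 ω` -/
noncomputable def hR : ℤ[X] →+* US := Polynomial.eval₂RingHom (Int.castRingHom US) (om + om)

noncomputable abbrev R1 : Subring US := hR.range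

noncomputable instance : CommRing R1 := inferInstance
noncomputable instance : LinearOrder R1 := inferInstance
instance : IsStrictOrderedRing R1 := inferInstance

theorem hR_eval (p : ℤ[X]) : hR p = (((fun n : ℕ => p.eval ((n : ℤ) + (n : ℤ))) : ℕ → ℤ) : US) := by
  induction p using Polynomial.induction_on' with
  | add p q hp hq =>
    rw [map_add, hp, hq, ← Filter.Germ.coe_add]
    congr 1
    funext n
    simp
  | monomial k a =>
    unfold hR
    rw [Polynomial.coe_eval₂RingHom, Polynomial.eval₂_monomial]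
    have h1 : (Int.castRingHom US) a = (((fun _ : ℕ => a) : ℕ → ℤ) : US) := by
      rfl
    have h2 : (om + om) ^ k = (((fun n : ℕ => ((n : ℤ) + (n : ℤ)) ^ k) : ℕ → ℤ) : US) := by
      rfl
    rw [h1, h2, ← Filter.Germ.coe_mul]
    congr 1
    funext n
    simp

theorem om_notin : om ∉ R1 := by
  rintro ⟨p, hp⟩
  rw [hR_eval] at hp
  have h1 : ∀ᶠ n : ℕ in (hyperfilter ℕ : Filter ℕ), p.eval ((n : ℤ) + (n : ℤ)) = (n : ℤ) :=
    Filter.Germ.coe_eq.1 hp
  have h2 : {n : ℕ | p.eval ((n : ℤ) + (n : ℤ)) = (n : ℤ)}.Infinite := by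
    intro hfin
    have h3 : {n : ℕ | p.eval ((n : ℤ) + (n : ℤ)) = (n : ℤ)}ᶜ ∈ (hyperfilter ℕ : Filter ℕ) :=
      Set.Finite.compl_mem_hyperfilter hfin
    have h4 := (hyperfilter ℕ : Filter ℕ).inter_mem h1 h3
    rw [Set.inter_compl_self] at h4
    exact (hyperfilter ℕ).neBot.ne (Filter.empty_mem_iff_bot.1 h4)
  have h5 : p.comp (X + X) = X := by
    refine Polynomial.eq_of_infinite_eval_eq _ _ ?_
    refine (h2.image (f := fun n : ℕ => (n : ℤ)) (fun a _ b _ h => Int.ofNat_inj.1 h)).mono ?_
    rintro _ ⟨n, hn, rfl⟩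
    show (p.comp (X + X)).eval (n : ℤ) = X.eval (n : ℤ)
    rw [Polynomial.eval_comp, Polynomial.eval_add, Polynomial.eval_X]
    exact hn
  have h6 : p.eval 0 = 0 := by
    have := congrArg (Polynomial.eval 0) h5
    rw [Polynomial.eval_comp, Polynomial.eval_add, Polynomial.eval_X] at this
    simpa using this
  have h7 : p.eval 2 = 1 := by
    have := congrArg (Polynomial.eval 1) h5
    rw [Polynomial.eval_comp, Polynomial.eval_add, Polynomial.eval_X] at this
    norm_num at this
    exact this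
  have h8 := Polynomial.sub_dvd_eval_sub 2 0 p
  rw [h6, h7] at h8
  norm_num at h8

theorem om_nonneg : (0 : US) ≤ om := by
  exact (Filter.Germ.coe_le (f := fun _ => (0 : ℤ)) (g := fun n : ℕ => (n : ℤ))).2
    (Filter.Eventually.of_forall fun n => Int.natCast_nonneg n)

/-- the formula `∀ y ≤ x, y + y ≠ x` (the variable `y` is `0`, `x` is `1` behind the quantifier) -/
def odd1 : Fml 1 := .all (.var 0) (.neg (.eq (.add (.var 0) (.var 0)) (.var 1)))

theorem val_germ {n : ℕ} (f : Fin n → ℕ → ℤ) (t : Tm n) :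
    t.val (fun i => ((f i : ℕ → ℤ) : US)) = ((fun k : ℕ => t.val (fun i => f i k)) : US) := by
  induction t with
  | var i => rfl
  | zero => rfl
  | one => rfl
  | add s t ihs iht => simp only [Tm.val, ihs, iht]; rfl
  | mul s t ihs iht => simp only [Tm.val, ihs, iht]; rfl

theorem los {n : ℕ} (θ : Fml n) : θ.IsQF → ∀ f : Fin n → ℕ → ℤ,
    (θ.holds (fun i => ((f i : ℕ → ℤ) : US)) ↔
      ∀ᶠ k : ℕ in (hyperfilter ℕ : Filter ℕ), θ.holds (fun i => f i k)) := by
  induction θ with
  | lt s t => intro _ f; simp only [Fml.holds, val_germ]; exact Filter.Germ.coe_lt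
  | eq s t => intro _ f; simp only [Fml.holds, val_germ]; exact Filter.Germ.coe_eq
  | neg φ ih =>
    intro h f
    simp only [Fml.holds]
    rw [ih h f, Ultrafilter.eventually_not]
  | and φ ψ ih1 ih2 =>
    intro h f
    simp only [Fml.holds]
    rw [ih1 h.1 f, ih2 h.2 f, Filter.eventually_and]
  | or φ ψ ih1 ih2 =>
    intro h f
    simp only [Fml.holds]
    rw [ih1 h.1 f, ih2 h.2 f, Ultrafilter.eventually_or]
  | ex t φ ih => intro h; exact h.elim
  | all t φ ih => intro h; exact h.elim

/-- all universal sentences which are true in `ℕ` hold in the non-negative part of `R` -/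
def TrueUniv (R : Type) [CommRing R] [LinearOrder R] : Prop :=
  ∀ (n : ℕ) (θ : Fml n), θ.IsQF → (∀ v : Fin n → ℤ, (∀ i, 0 ≤ v i) → θ.holds v) →
    ∀ v : Fin n → R, (∀ i, 0 ≤ v i) → θ.holds v

theorem us_univ : TrueUniv US := by
  intro n θ hq hθ v hv
  have h1 : ∀ i, ∃ f : ℕ → ℤ, ((f : ℕ → ℤ) : US) = v i := by
    intro i
    induction v i using Filter.Germ.inductionOn with
    | _ f => exact ⟨f, rfl⟩
  choose f hf using h1
  have e : v = fun i => ((f i : ℕ → ℤ) : US) := by
    funext i
    exact (hf i).symm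
  rw [e, los θ hq f]
  have h2 : ∀ᶠ k : ℕ in (hyperfilter ℕ : Filter ℕ), ∀ i, 0 ≤ f i k := by
    rw [Filter.eventually_all]
    intro i
    have h3 := hv i
    rw [← hf i] at h3
    exact (Filter.Germ.coe_le (f := fun _ => (0 : ℤ)) (g := f i)).1 h3
  exact h2.mono fun k hk => hθ _ hk

theorem r1_univ : TrueUniv R1 := by
  intro n θ hq hθ v hv
  rw [← qf_map R1.subtype (fun a b hab => hab) θ hq v]
  exact us_univ n θ hq hθ _ (fun i => hv i)

/-- no `E_1` formula is equivalent to `∀ y ≤ x, y + y ≠ x` in all models of `PA^-` and of all true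
universal sentences -/
theorem pam_not (ψ : Fml 1) (hψ : IsE1 ψ) :
    ¬ ∀ (R : Type) [CommRing R] [LinearOrder R] [IsStrictOrderedRing R],
      (∀ a : R, 0 < a → 1 ≤ a) → TrueUniv R →
      ∀ v : Fin 1 → R, (∀ i, 0 ≤ v i) → (odd1.holds v ↔ ψ.holds v) := by
  intro h
  have hmem : om + om ∈ R1 := ⟨X, by unfold hR; simp⟩
  have hdisc1 : ∀ a : R1, 0 < a → 1 ≤ a := fun a ha => us_disc a.1 ha
  let v : Fin 1 → R1 := fun _ => ⟨om + om, hmem⟩
  have hv : ∀ i, 0 ≤ v i := fun _ => add_nonneg om_nonneg om_nonneg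
  have h1 : odd1.holds v := by
    intro a _ _ hh
    have h2 : (a : US) + a = om + om := congrArg Subtype.val hh
    have h3 : (a : US) = om := by linarith
    exact om_notin (h3 ▸ a.2)
  have h4 := (h R1 hdisc1 r1_univ v hv).1 h1
  have h5 := e1_up R1.subtype (fun a b hab => hab) hψ v h4
  have h6 := (h US us_disc us_univ (fun _ => om + om)
    (fun _ => add_nonneg om_nonneg om_nonneg)).2 h5
  refine h6 om om_nonneg ?_ rfl
  show om ≤ om + om
  linarith [om_nonneg]

end Pool.Agent.H20.E1
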