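import Pool.Agent.H20.E1.Blk2

set_option autoImplicit false

/-!
# One nonlinear universally quantified variable is enough
-/

namespace Pool.Agent.H20.E1

section LinT

variable {N N' : ℕ}

/-- products are replaced by the terms `D (s, t)` -/
def linT (D : Tm N × Tm N → Tm N') (ρ : Fin N → Tm N') : Tm N → Tm N'
  | .var i => ρ i
  | .zero => .zero
  | .one => .one
  | .add s t => .add (linT D ρ s) (linT D ρ t)
  | .mul s t => D (s, t)

def linF (D : Tm N × Tm N → Tm N') (ρ : Fin N → Tm N') : Fml N → Fml N'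
  | .lt s t => .lt (linT D ρ s) (linT D ρ t)
  | .eq s t => .eq (linT D ρ s) (linT D ρ t)
  | .neg φ => .neg (linF D ρ φ)
  | .and φ ψ => .and (linF D ρ φ) (linF D ρ ψ)
  | .or φ ψ => .or (linF D ρ φ) (linF D ρ ψ)
  | .ex _ _ => .eq .zero .zero
  | .all _ _ => .eq .zero .zero

/-- the products in a term -/
def muls : Tm N → List (Tm N × Tm N)
  | .var _ => []
  | .zero => []
  | .one => []
  | .add s t => muls s ++ muls t
  | .mul s t => (s, t) :: (muls s ++ muls t)

def mulsF : {N : ℕ} → Fml N → List (Tm N × Tm N)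
  | _, .lt s t => muls s ++ muls t
  | _, .eq s t => muls s ++ muls t
  | _, .neg φ => mulsF φ
  | _, .and φ ψ => mulsF φ ++ mulsF ψ
  | _, .or φ ψ => mulsF φ ++ mulsF ψ
  | _, .ex _ _ => []
  | _, .all _ _ => []

theorem muls_closed {t : Tm N} : ∀ {p : Tm N × Tm N}, p ∈ muls t →
    (∀ q ∈ muls p.1, q ∈ muls t) ∧ (∀ q ∈ muls p.2, q ∈ muls t) := by
  induction t with
  | var i => intro p hp; exact absurd hp (List.not_mem_nil)
  | zero => intro p hp; exact absurd hp (List.not_mem_nil)
  | one => intro p hp; exact absurd hp (List.not_mem_nil)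
  | add s t ihs iht =>
    intro p hp
    rcases List.mem_append.1 hp with hp | hp
    · exact ⟨fun q hq => List.mem_append_left _ ((ihs hp).1 q hq),
        fun q hq => List.mem_append_left _ ((ihs hp).2 q hq)⟩
    · exact ⟨fun q hq => List.mem_append_right _ ((iht hp).1 q hq),
        fun q hq => List.mem_append_right _ ((iht hp).2 q hq)⟩
  | mul s t ihs iht =>
    intro p hp
    rcases List.mem_cons.1 hp with rfl | hp
    · exact ⟨fun q hq => List.mem_cons_of_mem _ (List.mem_append_left _ hq),
        fun q hq => List.mem_cons_of_mem _ (List.mem_append_right _ hq)⟩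
    · rcases List.mem_append.1 hp with hp | hp
      · exact ⟨fun q hq => List.mem_cons_of_mem _ (List.mem_append_left _ ((ihs hp).1 q hq)),
          fun q hq => List.mem_cons_of_mem _ (List.mem_append_left _ ((ihs hp).2 q hq))⟩
      · exact ⟨fun q hq => List.mem_cons_of_mem _ (List.mem_append_right _ ((iht hp).1 q hq)),
          fun q hq => List.mem_cons_of_mem _ (List.mem_append_right _ ((iht hp).2 q hq))⟩

theorem mulsF_closed {M : ℕ} {φ : Fml M} : ∀ {p : Tm M × Tm M}, p ∈ mulsF φ →
    (∀ q ∈ muls p.1, q ∈ mulsF φ) ∧ (∀ q ∈ muls p.2, q ∈ mulsF φ) := by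
  induction φ with
  | lt s t =>
    intro p hp
    rcases List.mem_append.1 hp with hp | hp
    · exact ⟨fun q hq => List.mem_append_left _ ((muls_closed hp).1 q hq),
        fun q hq => List.mem_append_left _ ((muls_closed hp).2 q hq)⟩
    · exact ⟨fun q hq => List.mem_append_right _ ((muls_closed hp).1 q hq),
        fun q hq => List.mem_append_right _ ((muls_closed hp).2 q hq)⟩
  | eq s t =>
    intro p hp
    rcases List.mem_append.1 hp with hp | hp
    · exact ⟨fun q hq => List.mem_append_left _ ((muls_closed hp).1 q hq),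
        fun q hq => List.mem_append_left _ ((muls_closed hp).2 q hq)⟩
    · exact ⟨fun q hq => List.mem_append_right _ ((muls_closed hp).1 q hq),
        fun q hq => List.mem_append_right _ ((muls_closed hp).2 q hq)⟩
  | neg φ ih => intro p hp; exact ih hp
  | and φ ψ ih1 ih2 =>
    intro p hp
    rcases List.mem_append.1 hp with hp | hp
    · exact ⟨fun q hq => List.mem_append_left _ ((ih1 hp).1 q hq),
        fun q hq => List.mem_append_left _ ((ih1 hp).2 q hq)⟩
    · exact ⟨fun q hq => List.mem_append_right _ ((ih2 hp).1 q hq),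
        fun q hq => List.mem_append_right _ ((ih2 hp).2 q hq)⟩
  | or φ ψ ih1 ih2 =>
    intro p hp
    rcases List.mem_append.1 hp with hp | hp
    · exact ⟨fun q hq => List.mem_append_left _ ((ih1 hp).1 q hq),
        fun q hq => List.mem_append_left _ ((ih1 hp).2 q hq)⟩
    · exact ⟨fun q hq => List.mem_append_right _ ((ih2 hp).1 q hq),
        fun q hq => List.mem_append_right _ ((ih2 hp).2 q hq)⟩
  | ex t φ ih => intro p hp; exact absurd hp (List.not_mem_nil)
  | all t φ ih => intro p hp; exact absurd hp (List.not_mem_nil)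

variable {R : Type} [CommRing R] [LinearOrder R]

/-- if the products are right, the values are right -/
theorem linT_val (D : Tm N × Tm N → Tm N') (ρ : Fin N → Tm N') (z : Fin N → R) (u : Fin N' → R)
    (hρ : ∀ i, (ρ i).val u = z i) (Nd : List (Tm N × Tm N))
    (hD : ∀ p ∈ Nd, (D p).val u = (linT D ρ p.1).val u * (linT D ρ p.2).val u) (t : Tm N) :
    (∀ q ∈ muls t, q ∈ Nd) → (linT D ρ t).val u = t.val z := by
  induction t with
  | var i => intro _; exact hρ i
  | zero => intro _; rfl
  | one => intro _; rfl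
  | add s t ihs iht =>
    intro h
    simp only [linT, Tm.val]
    rw [ihs (fun q hq => h q (List.mem_append_left _ hq)),
      iht (fun q hq => h q (List.mem_append_right _ hq))]
  | mul s t ihs iht =>
    intro h
    simp only [linT, Tm.val]
    rw [hD (s, t) (h _ (List.mem_cons_self ..)),
      ihs (fun q hq => h q (List.mem_cons_of_mem _ (List.mem_append_left _ hq))),
      iht (fun q hq => h q (List.mem_cons_of_mem _ (List.mem_append_right _ hq)))]

/-- the same with the true products -/
theorem linT_val' (D : Tm N × Tm N → Tm N') (ρ : Fin N → Tm N') (z : Fin N → R) (u : Fin N' → R)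
    (hρ : ∀ i, (ρ i).val u = z i) (Nd : List (Tm N × Tm N))
    (hD : ∀ p ∈ Nd, (D p).val u = p.1.val z * p.2.val z) (t : Tm N) :
    (∀ q ∈ muls t, q ∈ Nd) → (linT D ρ t).val u = t.val z := by
  induction t with
  | var i => intro _; exact hρ i
  | zero => intro _; rfl
  | one => intro _; rfl
  | add s t ihs iht =>
    intro h
    simp only [linT, Tm.val]
    rw [ihs (fun q hq => h q (List.mem_append_left _ hq)),
      iht (fun q hq => h q (List.mem_append_right _ hq))]
  | mul s t ihs iht =>
    intro h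
    simp only [linT, Tm.val]
    rw [hD (s, t) (h _ (List.mem_cons_self ..))]

theorem linF_holds (D : Tm N × Tm N → Tm N') (ρ : Fin N → Tm N') (z : Fin N → R) (u : Fin N' → R)
    (Nd : List (Tm N × Tm N))
    (hL : ∀ t : Tm N, (∀ q ∈ muls t, q ∈ Nd) → (linT D ρ t).val u = t.val z) :
    ∀ {φ : Fml N}, φ.IsQF → (∀ q ∈ mulsF φ, q ∈ Nd) → ((linF D ρ φ).holds u ↔ φ.holds z)
  | .lt s t, _, h => by
    simp only [linF, Fml.holds]
    rw [hL s (fun q hq => h q (List.mem_append_left _ hq)),
      hL t (fun q hq => h q (List.mem_append_right _ hq))]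
  | .eq s t, _, h => by
    simp only [linF, Fml.holds]
    rw [hL s (fun q hq => h q (List.mem_append_left _ hq)),
      hL t (fun q hq => h q (List.mem_append_right _ hq))]
  | .neg φ, hq, h => by
    simp only [linF, Fml.holds]
    exact not_congr (linF_holds D ρ z u Nd hL (φ := φ) hq h)
  | .and φ ψ, hq, h => by
    simp only [linF, Fml.holds]
    exact and_congr (linF_holds D ρ z u Nd hL (φ := φ) hq.1 (fun q hq => h q (List.mem_append_left _ hq)))
      (linF_holds D ρ z u Nd hL (φ := ψ) hq.2 (fun q hq => h q (List.mem_append_right _ hq)))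
  | .or φ ψ, hq, h => by
    simp only [linF, Fml.holds]
    exact or_congr (linF_holds D ρ z u Nd hL (φ := φ) hq.1 (fun q hq => h q (List.mem_append_left _ hq)))
      (linF_holds D ρ z u Nd hL (φ := ψ) hq.2 (fun q hq => h q (List.mem_append_right _ hq)))
  | .ex _ _, hq, _ => hq.elim
  | .all _ _, hq, _ => hq.elim

theorem linT_plin {k : ℕ} (D : Tm N × Tm N → Tm N') (ρ : Fin N → Tm N') (hD : ∀ p, (D p).PLin k)
    (hρ : ∀ i, (ρ i).PLin k) (t : Tm N) : (linT D ρ t).PLin k := by
  induction t with
  | var i => exact hρ i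
  | zero => trivial
  | one => trivial
  | add s t ihs iht => exact ⟨ihs, iht⟩
  | mul s t ihs iht => exact hD _

theorem linF_plin {k : ℕ} (D : Tm N × Tm N → Tm N') (ρ : Fin N → Tm N') (hD : ∀ p, (D p).PLin k)
    (hρ : ∀ i, (ρ i).PLin k) : ∀ {φ : Fml N}, φ.IsQF → (linF D ρ φ).PLin k
  | .lt s t, _ => by
    simp only [linF]
    exact ⟨linT_plin D ρ hD hρ s, linT_plin D ρ hD hρ t⟩
  | .eq s t, _ => by
    simp only [linF]
    exact ⟨linT_plin D ρ hD hρ s, linT_plin D ρ hD hρ t⟩
  | .neg φ, hq => by simp only [linF]; exact linF_plin D ρ hD hρ (φ := φ) hq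
  | .and φ ψ, hq => by
    simp only [linF]
    exact ⟨linF_plin D ρ hD hρ (φ := φ) hq.1, linF_plin D ρ hD hρ (φ := ψ) hq.2⟩
  | .or φ ψ, hq => by
    simp only [linF]
    exact ⟨linF_plin D ρ hD hρ (φ := φ) hq.1, linF_plin D ρ hD hρ (φ := ψ) hq.2⟩
  | .ex _ _, hq => hq.elim
  | .all _ _, hq => hq.elim

end LinT

end Pool.Agent.H20.E1
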