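import Pool.Agent.H20.E1.Comp

set_option autoImplicit false

/-!
# Reduction to one parameter
-/

namespace Pool.Agent.H20.E1

theorem pair_inj {R : Type} [CommRing R] [LinearOrder R] [IsStrictOrderedRing R]
    (hd : ∀ a : R, 0 < a → 1 ≤ a) {a b c d : R} (ha : 0 ≤ a) (hb : 0 ≤ b) (hc : 0 ≤ c) (hd' : 0 ≤ d)
    (h : (a + b) * (a + b) + a = (c + d) * (c + d) + c) : a = c ∧ b = d := by
  have key : ∀ {a b c d : R}, 0 ≤ a → 0 ≤ b → 0 ≤ c → 0 ≤ d →
      (a + b) * (a + b) + a = (c + d) * (c + d) + c → ¬ a + b < c + d := by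
    intro a b c d ha hb hc hd' h hlt
    have h1 : a + b + 1 ≤ c + d := by
      have := hd (c + d - (a + b)) (by linarith)
      linarith
    have h2 : (a + b + 1) * (a + b + 1) ≤ (c + d) * (c + d) :=
      mul_le_mul h1 h1 (by linarith) (by linarith)
    nlinarith
  have e : a + b = c + d :=
    le_antisymm (not_lt.1 (key hc hd' ha hb h.symm)) (not_lt.1 (key ha hb hc hd' h))
  rw [e] at h
  have h3 : a = c := by linarith
  exact ⟨h3, by rw [h3] at e; linarith⟩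

/-- `∃ a ≤ x, ∃ b ≤ x, x = (a + b)^2 + a ∧ φ(a, b, …)` -/
theorem merge {n : ℕ} {φ : Fml (n + 2)} (h : IsE1 φ) : ∃ φ' : Fml (n + 1), IsE1 φ' ∧
    ∀ (R : Type) [CommRing R] [LinearOrder R] [IsStrictOrderedRing R], (∀ a : R, 0 < a → 1 ≤ a) →
      ∀ (a b : R) (v : Fin n → R), 0 ≤ a → 0 ≤ b → (∀ i, 0 ≤ v i) →
        (φ.holds (Fin.cons a (Fin.cons b v : Fin (n + 1) → R) : Fin (n + 2) → R) ↔
          φ'.holds (Fin.cons ((a + b) * (a + b) + a) v : Fin (n + 1) → R)) := by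
  let σ : Fin (n + 2) → Tm (n + 3) :=
    Fin.cons (.var 1) (Fin.cons (.var 0) (fun i : Fin n => .var i.succ.succ.succ))
  obtain ⟨χ, h1, h2⟩ := qf_and' (IsE1.subst h σ)
    (.eq (.var 2) (.add (.mul (.add (.var 1) (.var 0)) (.add (.var 1) (.var 0))) (.var 1))) (by trivial)
  refine ⟨.ex (.var 0) (.ex (.var 1) χ), .ex _ (.ex _ h1), fun R _ _ _ hd a b v ha hb hv => ?_⟩
  have hx : 0 ≤ (a + b) * (a + b) + a := by positivity
  have hσ : ∀ (p q x : R), (fun i => (σ i).val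
      (Fin.cons q (Fin.cons p (Fin.cons x v : Fin (n + 1) → R) : Fin (n + 2) → R) : Fin (n + 3) → R)) =
      (Fin.cons p (Fin.cons q v : Fin (n + 1) → R) : Fin (n + 2) → R) := by
    intro p q x
    funext i
    refine Fin.cases ?_ (fun i => ?_) i
    · rfl
    · refine Fin.cases ?_ (fun i => ?_) i
      · rfl
      · rfl
  have hle : ∀ y : R, 0 ≤ y → y ≤ y * y := by
    intro y hy
    rcases eq_or_lt_of_le hy with hy | hy
    · rw [← hy]; simp
    · have := hd y hy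
      nlinarith
  have hab : 0 ≤ a + b := by linarith
  have hsq := hle (a + b) hab
  simp only [Fml.holds]
  constructor
  · intro hφ
    refine ⟨a, ha, ?_, b, hb, ?_, ?_⟩
    · show a ≤ (a + b) * (a + b) + a
      nlinarith
    · show b ≤ (a + b) * (a + b) + a
      linarith
    · rw [h2 R _ (cons_nonneg hb (cons_nonneg ha (cons_nonneg hx hv)))]
      refine ⟨?_, ?_⟩
      · show (a + b) * (a + b) + a = (a + b) * (a + b) + a
        rfl
      · rw [Fml.holds_subst, hσ]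
        exact hφ
  · rintro ⟨p, hp, -, q, hq, -, hh⟩
    rw [h2 R _ (cons_nonneg hq (cons_nonneg hp (cons_nonneg hx hv))), Fml.holds_subst, hσ] at hh
    obtain ⟨h3, h4⟩ := hh
    have h5 : (a + b) * (a + b) + a = (p + q) * (p + q) + p := h3
    obtain ⟨rfl, rfl⟩ := pair_inj hd ha hb hp hq h5
    exact h4

theorem one_param : ∀ {n : ℕ} (φ : Fml n), IsE1 φ → ∃ (φ' : Fml 1) (τ : Tm n), IsE1 φ' ∧
    ∀ (R : Type) [CommRing R] [LinearOrder R] [IsStrictOrderedRing R], (∀ a : R, 0 < a → 1 ≤ a) →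
      ∀ v : Fin n → R, (∀ i, 0 ≤ v i) → (φ.holds v ↔ φ'.holds (fun _ => τ.val v))
  | 0, φ, h => by
    refine ⟨φ.lift, .zero, IsE1.subst h _, fun R _ _ _ _ v _ => ?_⟩
    have e : (fun _ : Fin 1 => (Tm.zero : Tm 0).val v) = (Fin.cons 0 v : Fin 1 → R) := by
      funext i
      rw [Subsingleton.elim i 0]
      rfl
    rw [e]
    exact (Fml.holds_lift φ 0 v).symm
  | 1, φ, h => by
    refine ⟨φ, .var 0, h, fun R _ _ _ _ v _ => ?_⟩
    have e : (fun _ : Fin 1 => (Tm.var 0 : Tm 1).val v) = v := by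
      funext i
      rw [Subsingleton.elim i 0]
      rfl
    rw [e]
  | n + 2, φ, h => by
    obtain ⟨φ1, h1, h2⟩ := merge h
    obtain ⟨φ', τ, h3, h4⟩ := one_param φ1 h1
    let ρ : Fin (n + 1) → Tm (n + 2) :=
      Fin.cons (.add (.mul (.add (.var 0) (.var 1)) (.add (.var 0) (.var 1))) (.var 0))
        (fun i : Fin n => .var i.succ.succ)
    refine ⟨φ', τ.subst ρ, h3, fun R _ _ _ hd v hv => ?_⟩
    have e : v = (Fin.cons (v 0) (Fin.cons (v 1) (fun i : Fin n => v i.succ.succ) : Fin (n + 1) → R) :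
        Fin (n + 2) → R) := by
      funext i
      refine Fin.cases rfl (fun i => ?_) i
      refine Fin.cases rfl (fun i => rfl) i
    have e2 : (fun i => (ρ i).val v) = (Fin.cons ((v 0 + v 1) * (v 0 + v 1) + v 0)
        (fun i : Fin n => v i.succ.succ) : Fin (n + 1) → R) := by
      funext i
      refine Fin.cases rfl (fun i => rfl) i
    have h5 := h2 R hd (v 0) (v 1) (fun i : Fin n => v i.succ.succ) (hv 0) (hv 1) (fun i => hv _)
    rw [← e] at h5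
    rw [h5, Tm.val_subst, e2]
    have h00 := hv 0
    have h01 := hv 1
    exact h4 R hd _ (cons_nonneg (by positivity) (fun i => hv _))

theorem complete_of_neg (K : (R : Type) → [CommRing R] → [LinearOrder R] → [IsStrictOrderedRing R] → Prop)
    (hneg : ∀ {n : ℕ} {φ : Fml n}, EqE1 K φ → EqE1 K (.neg φ)) {n : ℕ} (φ : Fml n) : EqE1 K φ := by
  have hex : ∀ {n : ℕ} {t : Tm n} {φ : Fml (n + 1)}, EqE1 K φ → EqE1 K (.ex t φ) := by
    intro n t φ hφ
    obtain ⟨ψ, h1, h2⟩ := hφ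
    refine ⟨.ex t ψ, .ex t h1, fun R _ _ _ hR v hv => ?_⟩
    simp only [Fml.holds]
    constructor
    · rintro ⟨a, ha, hat, hh⟩
      exact ⟨a, ha, hat, (h2 R hR _ (cons_nonneg ha hv)).1 hh⟩
    · rintro ⟨a, ha, hat, hh⟩
      exact ⟨a, ha, hat, (h2 R hR _ (cons_nonneg ha hv)).2 hh⟩
  induction φ with
  | lt s t => exact ⟨.lt s t, .qf (by trivial), fun R _ _ _ _ v _ => Iff.rfl⟩
  | eq s t => exact ⟨.eq s t, .qf (by trivial), fun R _ _ _ _ v _ => Iff.rfl⟩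
  | neg φ ih => exact hneg ih
  | and φ ψ ih1 ih2 =>
    obtain ⟨φ', h1, h2⟩ := ih1
    obtain ⟨ψ', h3, h4⟩ := ih2
    obtain ⟨χ, h5, h6⟩ := e1_and' h1 ψ' h3
    refine ⟨χ, h5, fun R _ _ _ hR v hv => ?_⟩
    rw [h6 R v hv, ← h2 R hR v hv, ← h4 R hR v hv]
    rfl
  | or φ ψ ih1 ih2 =>
    obtain ⟨φ', h1, h2⟩ := ih1
    obtain ⟨ψ', h3, h4⟩ := ih2
    obtain ⟨χ, h5, h6⟩ := e1_or' h1 ψ' h3
    refine ⟨χ, h5, fun R _ _ _ hR v hv => ?_⟩
    rw [h6 R v hv, ← h2 R hR v hv, ← h4 R hR v hv]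
    rfl
  | ex t φ ih => exact hex ih
  | all t φ ih =>
    obtain ⟨χ, h1, h2⟩ := hneg (hex (t := t) (hneg ih))
    refine ⟨χ, h1, fun R _ _ _ hR v hv => ?_⟩
    rw [← h2 R hR v hv]
    simp only [Fml.holds]
    push Not
    rfl

theorem complete_one (K : (R : Type) → [CommRing R] → [LinearOrder R] → [IsStrictOrderedRing R] → Prop)
    (hK : ∀ (R : Type) [CommRing R] [LinearOrder R] [IsStrictOrderedRing R], K R →
      ∀ a : R, 0 < a → 1 ≤ a)
    (h : ∀ φ : Fml 1, OneSquare φ → EqE1 K φ) {n : ℕ} (φ : Fml n) : EqE1 K φ := by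
  refine complete_of_neg K (fun {n φ} hφ => ?_) φ
  obtain ⟨ψ, h1, h2⟩ := hφ
  obtain ⟨ψ', τ, h3, h4⟩ := one_param ψ h1
  obtain ⟨χ, h5, h6⟩ := neg_e1_oneSquare h3
  obtain ⟨ω, h7, h8⟩ := h χ h5
  refine ⟨ω.subst (fun _ => τ), IsE1.subst h7 _, fun R _ _ _ hR v hv => ?_⟩
  have hτ : ∀ i : Fin 1, 0 ≤ (fun _ : Fin 1 => τ.val v) i := fun _ => Tm.val_nonneg τ v hv
  rw [Fml.holds_subst, ← h8 R hR _ hτ, ← h6 R (hK R hR) _ hτ, ← h4 R (hK R hR) v hv]
  exact not_congr (h2 R hR v hv)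

end Pool.Agent.H20.E1
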