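import Pool.Agent.H20.E1.Elim

set_option autoImplicit false

/-!
# Additive formulas are quantifier-free in residue classes
-/

namespace Pool.Agent.H20.E1

open SignType

section Lists

variable {n : ℕ}

/-- finite disjunction -/
def disj : List (Fml n) → Fml n
  | [] => .lt .zero .zero
  | φ :: L => .or φ (disj L)

theorem disj_qf : ∀ {L : List (Fml n)}, (∀ φ ∈ L, φ.IsQF) → (disj L).IsQF
  | [], _ => trivial
  | φ :: L, h => ⟨h φ (List.mem_cons_self ..), disj_qf (fun ψ hψ => h ψ (List.mem_cons_of_mem _ hψ))⟩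

theorem disj_lin {i : Fin n} : ∀ {L : List (Fml n)}, (∀ φ ∈ L, φ.Lin i) → (disj L).Lin i
  | [], _ => ⟨trivial, trivial⟩
  | φ :: L, h => ⟨h φ (List.mem_cons_self ..), disj_lin (fun ψ hψ => h ψ (List.mem_cons_of_mem _ hψ))⟩

theorem disj_holds {R : Type} [CommRing R] [LinearOrder R] (v : Fin n → R) :
    ∀ {L : List (Fml n)}, (disj L).holds v ↔ ∃ φ ∈ L, φ.holds v
  | [] => by
    simp only [disj, Fml.holds, List.not_mem_nil, false_and, exists_false, iff_false]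
    exact lt_irrefl _
  | φ :: L => by
    simp only [disj, Fml.holds, List.mem_cons, exists_eq_or_imp]
    rw [disj_holds v (L := L)]

theorem max_mem {α R : Type} [LinearOrder R] (f : α → R) (P : α → Prop) (L : List α)
    (h : ∃ c ∈ L, P c) : ∃ c ∈ L, P c ∧ ∀ c' ∈ L, P c' → f c' ≤ f c := by
  have hfin : {c | c ∈ L ∧ P c}.Finite := (List.finite_toSet L).subset (fun c hc => hc.1)
  obtain ⟨c, hc, hc'⟩ := Set.exists_max_image {c | c ∈ L ∧ P c} f hfin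
    (by obtain ⟨c, h1, h2⟩ := h; exact ⟨c, h1, h2⟩)
  exact ⟨c, hc.1, hc.2, fun c' h1 h2 => hc' c' ⟨h1, h2⟩⟩

end Lists

section ElimQ

variable {n : ℕ}

def cands (N : ℕ) (r : Fin n → ℕ) (L : List (Tm (n + 1) × Tm (n + 1))) : List (Tm n × Tm n) :=
  (.zero, .zero) :: L.flatMap (fun p => [tau N r p, (.add (tau N r p).1 .one, (tau N r p).2)])

def candF (N : ℕ) (r : Fin n → ℕ) (Θ : Fml (n + 1)) (t : Tm n) (c : Tm n × Tm n) : Fml n :=
  .and (.and (Fml.le c.2 c.1) (Fml.le c.1 (.add c.2 (t.subst (aff N r)))))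
    (plug c.1 c.2 (aff N r) Θ)

/-- the formula without the quantifier -/
def elimF (N : ℕ) (r : Fin n → ℕ) (Θ : Fml (n + 1)) (t : Tm n) : Fml n :=
  disj ((cands N r (atoms Θ)).map (candF N r Θ t))

theorem elimF_qf (N : ℕ) (r : Fin n → ℕ) {Θ : Fml (n + 1)} (hq : Θ.IsQF) (t : Tm n) :
    (elimF N r Θ t).IsQF := by
  refine disj_qf (fun φ hφ => ?_)
  obtain ⟨c, _, rfl⟩ := List.mem_map.1 hφ
  exact ⟨⟨⟨trivial, trivial⟩, ⟨trivial, trivial⟩⟩, plug_qf _ _ _ hq⟩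

theorem atoms_lin {m : ℕ} {i : Fin m} : ∀ {φ : Fml m}, φ.Lin i → ∀ p ∈ atoms φ,
    p.1.Lin i ∧ p.2.Lin i
  | .lt s t, h, p, hp => by
    rw [List.mem_singleton.1 hp]
    exact h
  | .eq s t, h, p, hp => by
    rw [List.mem_singleton.1 hp]
    exact h
  | .neg φ, h, p, hp => atoms_lin (φ := φ) h p hp
  | .and φ ψ, h, p, hp => by
    rcases List.mem_append.1 hp with hp | hp
    · exact atoms_lin (φ := φ) h.1 p hp
    · exact atoms_lin (φ := ψ) h.2 p hp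
  | .or φ ψ, h, p, hp => by
    rcases List.mem_append.1 hp with hp | hp
    · exact atoms_lin (φ := φ) h.1 p hp
    · exact atoms_lin (φ := ψ) h.2 p hp
  | .ex _ _, _, p, hp => absurd hp (List.not_mem_nil)
  | .all _ _, _, p, hp => absurd hp (List.not_mem_nil)

theorem elimF_lin (N : ℕ) (r : Fin n → ℕ) {Θ : Fml (n + 1)} (hq : Θ.IsQF) (t : Tm n) {i : Fin n}
    (h : Θ.Lin i.succ) (ht : t.Lin i) : (elimF N r Θ t).Lin i := by
  refine disj_lin (fun φ hφ => ?_)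
  obtain ⟨c, hc, rfl⟩ := List.mem_map.1 hφ
  have hcl : c.1.Lin i ∧ c.2.Lin i := by
    rcases List.mem_cons.1 hc with rfl | hc
    · exact ⟨trivial, trivial⟩
    · obtain ⟨p, hp, hc⟩ := List.mem_flatMap.1 hc
      obtain ⟨h1, h2⟩ := atoms_lin h p hp
      have h3 := tau_lin N r h1 h2
      rcases List.mem_cons.1 hc with rfl | hc
      · exact h3
      · rw [List.mem_singleton.1 hc]
        exact ⟨⟨h3.1, trivial⟩, h3.2⟩
  have hts : (t.subst (aff N r)).Lin i :=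
    Tm.lin_subst ht (fun k hk => aff_free N r i k hk) (aff_lin N r i)
  exact ⟨⟨⟨⟨hcl.2, hcl.1⟩, ⟨hcl.2, hcl.1⟩⟩, ⟨⟨hcl.1, ⟨hcl.2, hts⟩⟩, ⟨hcl.1, ⟨hcl.2, hts⟩⟩⟩⟩,
    plug_lin hcl.1 hcl.2 hq h⟩

theorem elimF_iff {M : Mdl} {N : ℕ} (r : Fin n → ℕ) {Θ : Fml (n + 1)} (hq : Θ.IsQF)
    (hl : Θ.Lin 0) (hN : ∀ p ∈ atoms Θ, pd p ∣ N) (t : Tm n) (q : Fin n → M.R)
    (hq0 : ∀ i, 0 ≤ q i) :
    (∃ z : M.R, 0 ≤ z ∧ z ≤ t.val (fun i => (aff N r i).val q) ∧
      Θ.holds (Fin.cons z (fun i => (aff N r i).val q) : Fin (n + 1) → M.R)) ↔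
    (elimF N r Θ t).holds q := by
  unfold elimF
  rw [disj_holds]
  have hcand : ∀ c : Tm n × Tm n, (candF N r Θ t c).holds q ↔
      (0 ≤ c.1.val q - c.2.val q ∧ c.1.val q - c.2.val q ≤ t.val (fun i => (aff N r i).val q) ∧
      Θ.holds (Fin.cons (c.1.val q - c.2.val q) (fun i => (aff N r i).val q) :
        Fin (n + 1) → M.R)) := by
    intro c
    unfold candF
    simp only [Fml.holds]
    rw [Fml.holds_le, Fml.holds_le, plug_holds _ _ _ _ hq hl]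
    simp only [Tm.val, Tm.val_subst]
    constructor
    · rintro ⟨⟨h1, h2⟩, h3⟩
      exact ⟨by linarith, by linarith, h3⟩
    · rintro ⟨h1, h2, h3⟩
      exact ⟨⟨by linarith, by linarith⟩, h3⟩
  constructor
  · rintro ⟨z, hz0, hzt, hz⟩
    let f : Tm n × Tm n → M.R := fun c => c.1.val q - c.2.val q
    obtain ⟨c, hc, ⟨hc0, hcz⟩, hmax⟩ := max_mem f (fun c => 0 ≤ f c ∧ f c ≤ z)
      (cands N r (atoms Θ)) ⟨(.zero, .zero), List.mem_cons_self .., by
        show (0 : M.R) ≤ 0 - 0 ∧ (0 : M.R) - 0 ≤ z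
        rw [sub_zero]
        exact ⟨le_rfl, hz0⟩⟩
    refine ⟨candF N r Θ t c, List.mem_map.2 ⟨c, hc, rfl⟩, (hcand c).2 ⟨hc0, hcz.trans hzt, ?_⟩⟩
    refine (holds_const Θ hq _ _ (fun p hp => ?_)).1 hz
    obtain ⟨hp1, hp2⟩ := atoms_lin hl p hp
    refine tau_sign r hp1 hp2 (hN p hp) q ?_
    have hm1 : tau N r p ∈ cands N r (atoms Θ) :=
      List.mem_cons_of_mem _ (List.mem_flatMap.2 ⟨p, hp, List.mem_cons_self ..⟩)
    have hm2 : (Tm.add (tau N r p).1 .one, (tau N r p).2) ∈ cands N r (atoms Θ) :=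
      List.mem_cons_of_mem _ (List.mem_flatMap.2 ⟨p, hp,
        List.mem_cons_of_mem _ (List.mem_cons_self ..)⟩)
    have hf1 : f (tau N r p) = (tau N r p).1.val q - (tau N r p).2.val q := rfl
    have hf2 : f (Tm.add (tau N r p).1 .one, (tau N r p).2) =
        (tau N r p).1.val q - (tau N r p).2.val q + 1 := by
      show (tau N r p).1.val q + 1 - (tau N r p).2.val q = _
      ring
    rcases lt_trichotomy z ((tau N r p).1.val q - (tau N r p).2.val q) with h1 | h1 | h1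
    · exact Or.inl ⟨h1, hcz.trans_lt h1⟩
    · have h2 := hmax _ hm1 ⟨by rw [hf1, ← h1]; exact hz0, by rw [hf1, ← h1]⟩
      rw [hf1, ← h1] at h2
      exact Or.inr (Or.inl (le_antisymm hcz h2))
    · refine Or.inr (Or.inr ⟨h1, ?_⟩)
      have h3 := M.succ_le h1
      rcases le_or_gt 0 ((tau N r p).1.val q - (tau N r p).2.val q + 1) with h4 | h4
      · have h2 := hmax _ hm2 ⟨by rw [hf2]; exact h4, by rw [hf2]; exact h3⟩
        rw [hf2] at h2
        show _ < f c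
        linarith
      · show _ < f c
        linarith
  · rintro ⟨φ, hφ, h⟩
    obtain ⟨c, _, rfl⟩ := List.mem_map.1 hφ
    exact ⟨_, (hcand c).1 h⟩

end ElimQ

section Div

/-- division by a standard number -/
theorem Mdl.div (M : Mdl) {m : ℕ} (hm : 0 < m) {z : M.R} (hz : 0 ≤ z) :
    ∃ (u : M.R) (ρ : ℕ), 0 ≤ u ∧ ρ < m ∧ z = (m : M.R) * u + (ρ : M.R) := by
  have hmR : (1 : M.R) ≤ (m : M.R) := by exact_mod_cast hm
  let p : Tm 2 × Tm 2 := (.add (.var 1) .one, nsm m (.var 0))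
  let v : Fin 1 → M.R := fun _ => z
  have hf : ∀ y : M.R, fn p v y = (m : M.R) * y - (z + 1) := by
    intro y
    unfold fn
    simp only [p, val_nsm]
    rfl
  obtain ⟨u, h1, _, h3, h4⟩ := M.cross p v (fun _ => hz) (a := 0) (c := z + 1) le_rfl
    (by linarith) (by rw [hf]; linarith) (by
      rw [hf]
      have : (z + 1) * 1 ≤ (z + 1) * (m : M.R) := mul_le_mul_of_nonneg_left hmR (by linarith)
      linarith)
  rw [hf] at h3 h4
  have h5 : (m : M.R) * u ≤ z := M.lt_succ (by linarith)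
  have h6 : z - (m : M.R) * u < (m : M.R) := by linarith
  have key : ∀ (k : ℕ) (x : M.R), 0 ≤ x → x < (k : M.R) → ∃ ρ : ℕ, ρ < k ∧ x = (ρ : M.R) := by
    intro k
    induction k with
    | zero => intro x h1 h2; exact absurd h1 (not_le.2 (by simpa using h2))
    | succ k ih =>
      intro x h1 h2
      push_cast at h2
      rcases (M.lt_succ h2).eq_or_lt with h3 | h3
      · exact ⟨k, Nat.lt_succ_self k, h3⟩
      · obtain ⟨ρ, h4, h5⟩ := ih x h1 h3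
        exact ⟨ρ, h4.trans (Nat.lt_succ_self k), h5⟩
  obtain ⟨ρ, h7, h8⟩ := key m (z - (m : M.R) * u) (by linarith) h6
  exact ⟨u, ρ, h1, h7, by linarith⟩

end Div

/-- `φ` is quantifier-free in residue classes modulo `m`, and additive variables stay additive -/
def Fam {n : ℕ} (m : ℕ) (φ : Fml n) : Prop :=
  ∀ r : Fin n → ℕ, ∃ θ : Fml n, θ.IsQF ∧ (∀ i, φ.Lin i → θ.Lin i) ∧
    ∀ (M : Mdl) (q : Fin n → M.R), (∀ i, 0 ≤ q i) →
      (φ.holds (fun i => (m : M.R) * q i + (r i : M.R)) ↔ θ.holds q)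

theorem fam_qf {n : ℕ} {φ : Fml n} (h : φ.IsQF) : Fam 1 φ := by
  intro r
  refine ⟨φ.subst (aff 1 r), Fml.isQF_subst _ _ h, fun i hi => Fml.lin_subst φ h hi
    (fun k hk => aff_free 1 r i k hk) (aff_lin 1 r i), fun M q _ => ?_⟩
  rw [Fml.holds_subst, val_aff]

theorem Fam.mul {n : ℕ} {m : ℕ} {φ : Fml n} (h : Fam m φ) (k : ℕ) : Fam (m * k) φ := by
  intro r
  obtain ⟨θ, h1, h2, h3⟩ := h r
  refine ⟨θ.subst (aff k (fun _ => 0)), Fml.isQF_subst _ _ h1, fun i hi =>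
    Fml.lin_subst θ h1 (h2 i hi) (fun j hj => aff_free k _ i j hj) (aff_lin k _ i),
    fun M q hq => ?_⟩
  rw [Fml.holds_subst, val_aff]
  have h4 := h3 M (fun i => (k : M.R) * q i + ((0 : ℕ) : M.R)) (fun i => by
    have := hq i
    have hk : (0 : M.R) ≤ (k : M.R) := Nat.cast_nonneg k
    rw [Nat.cast_zero, add_zero]
    exact mul_nonneg hk this)
  rw [← h4]
  have e : (fun i => ((m * k : ℕ) : M.R) * q i + (r i : M.R)) =
      fun i => (m : M.R) * ((k : M.R) * q i + ((0 : ℕ) : M.R)) + (r i : M.R) := by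
    funext i
    push_cast
    ring
  rw [e]

theorem Fam.neg {n m : ℕ} {φ : Fml n} (h : Fam m φ) : Fam m (.neg φ) := by
  intro r
  obtain ⟨θ, h1, h2, h3⟩ := h r
  exact ⟨.neg θ, h1, h2, fun M q hq => not_congr (h3 M q hq)⟩

theorem Fam.and {n m : ℕ} {φ ψ : Fml n} (h : Fam m φ) (h' : Fam m ψ) : Fam m (.and φ ψ) := by
  intro r
  obtain ⟨θ, h1, h2, h3⟩ := h r
  obtain ⟨θ', h1', h2', h3'⟩ := h' r
  exact ⟨.and θ θ', ⟨h1, h1'⟩, fun i hi => ⟨h2 i hi.1, h2' i hi.2⟩,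
    fun M q hq => and_congr (h3 M q hq) (h3' M q hq)⟩

theorem Fam.or {n m : ℕ} {φ ψ : Fml n} (h : Fam m φ) (h' : Fam m ψ) : Fam m (.or φ ψ) := by
  intro r
  obtain ⟨θ, h1, h2, h3⟩ := h r
  obtain ⟨θ', h1', h2', h3'⟩ := h' r
  exact ⟨.or θ θ', ⟨h1, h1'⟩, fun i hi => ⟨h2 i hi.1, h2' i hi.2⟩,
    fun M q hq => or_congr (h3 M q hq) (h3' M q hq)⟩

end Pool.Agent.H20.E1
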