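import Pool.Agent.H20.E1.QE

set_option autoImplicit false

/-!
# Additive formulas, and one more quantifier
-/

namespace Pool.Agent.H20.E1

theorem lift_free0 {n : ℕ} (t : Tm n) : t.lift.Free 0 := by
  induction t with
  | var i => exact Fin.succ_ne_zero i
  | zero => trivial
  | one => trivial
  | add s t ihs iht => exact ⟨ihs, iht⟩
  | mul s t ihs iht => exact ⟨ihs, iht⟩

theorem lift_lin {n : ℕ} {t : Tm n} {i : Fin n} (h : t.Lin i) : t.lift.Lin i.succ :=
  Tm.lin_subst h (fun k hk => fun hh => hk (Fin.succ_injective _ hh)) trivial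

theorem fam_ex {n m : ℕ} (hm : 0 < m) {φ : Fml (n + 1)} (h : Fam m φ) (hl : φ.Lin 0) (t : Tm n) :
    ∃ m' : ℕ, 0 < m' ∧ Fam m' (.ex t φ) := by
  choose Θ h1 h2 h3 using h
  let Ψ : (Fin (n + 1) → ℕ) → Fml (n + 1) := fun b =>
    .and (Fml.le (.add (nsm m (.var 0)) (nsm (b 0) .one)) ((t.subst (aff m (Fin.tail b))).lift))
      (Θ b)
  have hΨq : ∀ b, (Ψ b).IsQF := fun b => ⟨⟨trivial, trivial⟩, h1 b⟩
  have hA : ∀ (b : Fin (n + 1) → ℕ) (i : Fin (n + 1)),
      (Tm.add (nsm m (.var 0)) (nsm (b 0) .one) : Tm (n + 1)).Lin i := fun b i =>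
    ⟨nsm_lin (t := .var 0) trivial m, nsm_lin (t := .one) trivial _⟩
  have hΨ0 : ∀ b, (Ψ b).Lin 0 := fun b =>
    ⟨⟨⟨hA b 0, (lift_free0 _).lin⟩, ⟨hA b 0, (lift_free0 _).lin⟩⟩, h2 b 0 hl⟩
  have hts : ∀ (b : Fin n → ℕ) {i : Fin n}, t.Lin i → (t.subst (aff m b)).Lin i :=
    fun b i hi => Tm.lin_subst hi (fun k hk => aff_free m b i k hk) (aff_lin m b i)
  have hΨi : ∀ b (i : Fin n), t.Lin i → φ.Lin i.succ → (Ψ b).Lin i.succ := fun b i hi hi' =>
    ⟨⟨⟨hA b _, lift_lin (hts _ hi)⟩, ⟨hA b _, lift_lin (hts _ hi)⟩⟩, h2 b _ hi'⟩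
  let N : ℕ := ∏ b : Fin (n + 1) → Fin m, ((atoms (Ψ (fun i => (b i : ℕ)))).map pd).prod
  have hNpos : 0 < N := by
    refine Finset.prod_pos (fun b _ => ?_)
    refine List.prod_pos (fun x hx => ?_)
    obtain ⟨p, _, rfl⟩ := List.mem_map.1 hx
    exact pd_pos p
  have hNdvd : ∀ b : Fin (n + 1) → ℕ, (∀ i, b i < m) → ∀ p ∈ atoms (Ψ b), pd p ∣ N := by
    intro b hb p hp
    have h4 : ((atoms (Ψ (fun i => ((⟨b i, hb i⟩ : Fin m) : ℕ)))).map pd).prod ∣ N :=
      Finset.dvd_prod_of_mem (fun b : Fin (n + 1) → Fin m =>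
        ((atoms (Ψ (fun i => (b i : ℕ)))).map pd).prod) (Finset.mem_univ
          (fun i => (⟨b i, hb i⟩ : Fin m)))
    exact (List.dvd_prod (List.mem_map.2 ⟨p, hp, rfl⟩)).trans h4
  refine ⟨m * N, Nat.mul_pos hm hNpos, fun r => ?_⟩
  let b' : Fin n → ℕ := fun i => r i % m
  let a : Fin n → ℕ := fun i => r i / m
  refine ⟨disj ((List.range m).map (fun ρ => elimF N a (Ψ (Fin.cons ρ b'))
    (t.subst (aff m b')))), ?_, ?_, ?_⟩
  · refine disj_qf (fun ψ hψ => ?_)
    obtain ⟨ρ, _, rfl⟩ := List.mem_map.1 hψ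
    exact elimF_qf _ _ (hΨq _) _
  · intro i hi
    refine disj_lin (fun ψ hψ => ?_)
    obtain ⟨ρ, _, rfl⟩ := List.mem_map.1 hψ
    exact elimF_lin _ _ (hΨq _) _ (hΨi _ i hi.1 hi.2) (hts _ hi.1)
  · intro M q hq
    rw [disj_holds]
    let p : Fin n → M.R := fun i => (aff N a i).val q
    have hp : ∀ i, p i = (N : M.R) * q i + (a i : M.R) := fun i =>
      congrFun (val_aff N a q) i
    have hp0 : ∀ i, 0 ≤ p i := fun i => by
      rw [hp]
      exact add_nonneg (mul_nonneg (Nat.cast_nonneg _) (hq i)) (Nat.cast_nonneg _)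
    have hx : (fun i => ((m * N : ℕ) : M.R) * q i + (r i : M.R)) =
        fun i => (m : M.R) * p i + (b' i : M.R) := by
      funext i
      rw [hp]
      have h4 : (r i : M.R) = (m : M.R) * (a i : M.R) + (b' i : M.R) := by
        have := Nat.div_add_mod (r i) m
        have h5 := congrArg (fun x : ℕ => (x : M.R)) this
        push_cast at h5
        exact h5.symm
      rw [h4]
      push_cast
      ring
    have htv : (t.subst (aff m b')).val p = t.val (fun i => (m : M.R) * p i + (b' i : M.R)) := by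
      rw [Tm.val_subst, val_aff]
    rw [hx]
    have hcons : ∀ (u : M.R) (ρ : ℕ), (fun i => (m : M.R) * (Fin.cons u p : Fin (n + 1) → M.R) i +
        (((Fin.cons ρ b' : Fin (n + 1) → ℕ) i : ℕ) : M.R)) =
        (Fin.cons ((m : M.R) * u + (ρ : M.R)) (fun i => (m : M.R) * p i + (b' i : M.R)) :
          Fin (n + 1) → M.R) := by
      intro u ρ
      funext i
      refine Fin.cases ?_ (fun i => ?_) i
      · rfl
      · rfl
    have hΨh : ∀ (u : M.R) (ρ : ℕ), 0 ≤ u →
        ((Ψ (Fin.cons ρ b')).holds (Fin.cons u p : Fin (n + 1) → M.R) ↔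
        ((m : M.R) * u + (ρ : M.R) ≤ t.val (fun i => (m : M.R) * p i + (b' i : M.R)) ∧
        φ.holds (Fin.cons ((m : M.R) * u + (ρ : M.R)) (fun i => (m : M.R) * p i + (b' i : M.R)) :
          Fin (n + 1) → M.R))) := by
      intro u ρ hu
      show ((Fml.le _ _ : Fml (n + 1)).holds _ ∧ (Θ (Fin.cons ρ b')).holds _) ↔ _
      rw [Fml.holds_le, ← h3 (Fin.cons ρ b') M _ (cons_nonneg hu hp0), hcons, Tm.val_lift]
      have e1 : (Fin.tail (Fin.cons ρ b' : Fin (n + 1) → ℕ)) = b' := Fin.tail_cons _ _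
      rw [e1, htv]
      simp only [Tm.val, val_nsm, mul_one]
      rfl
    constructor
    · rintro ⟨z, hz0, hzt, hz⟩
      obtain ⟨u, ρ, hu, hρ, hzu⟩ := M.div hm hz0
      have hb : ∀ i, (Fin.cons ρ b' : Fin (n + 1) → ℕ) i < m := by
        intro i
        refine Fin.cases ?_ (fun i => ?_) i
        · exact hρ
        · exact Nat.mod_lt _ hm
      refine ⟨_, List.mem_map.2 ⟨ρ, List.mem_range.2 hρ, rfl⟩, ?_⟩
      rw [← elimF_iff a (hΨq _) (hΨ0 _) (hNdvd _ hb) _ q hq]
      refine ⟨u, hu, ?_, ?_⟩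
      · show u ≤ (t.subst (aff m b')).val p
        rw [htv]
        refine le_trans ?_ hzt
        rw [hzu]
        have hmR : (1 : M.R) ≤ (m : M.R) := by exact_mod_cast hm
        have h5 : 1 * u ≤ (m : M.R) * u := mul_le_mul_of_nonneg_right hmR hu
        have h6 : (0 : M.R) ≤ (ρ : M.R) := Nat.cast_nonneg _
        linarith
      · show (Ψ (Fin.cons ρ b')).holds (Fin.cons u p : Fin (n + 1) → M.R)
        rw [hΨh u ρ hu, ← hzu]
        exact ⟨hzt, hz⟩
    · rintro ⟨ψ, hψ, hh⟩
      obtain ⟨ρ, hρ, rfl⟩ := List.mem_map.1 hψ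
      have hρ' := List.mem_range.1 hρ
      have hb : ∀ i, (Fin.cons ρ b' : Fin (n + 1) → ℕ) i < m := by
        intro i
        refine Fin.cases ?_ (fun i => ?_) i
        · exact hρ'
        · exact Nat.mod_lt _ hm
      rw [← elimF_iff a (hΨq _) (hΨ0 _) (hNdvd _ hb) _ q hq] at hh
      obtain ⟨u, hu, _, hΨu⟩ := hh
      have h4 := (hΨh u ρ hu).1 hΨu
      exact ⟨_, add_nonneg (mul_nonneg (Nat.cast_nonneg _) hu) (Nat.cast_nonneg _), h4.1, h4.2⟩

/-- additive formulas are quantifier-free in residue classes -/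
theorem additive_fam {n : ℕ} (φ : Fml n) : φ.Additive → ∃ m : ℕ, 0 < m ∧ Fam m φ := by
  induction φ with
  | lt s t => exact fun _ => ⟨1, one_pos, fam_qf trivial⟩
  | eq s t => exact fun _ => ⟨1, one_pos, fam_qf trivial⟩
  | neg φ ih =>
    intro h
    obtain ⟨m, hm, hf⟩ := ih h
    exact ⟨m, hm, hf.neg⟩
  | and φ ψ ih1 ih2 =>
    intro h
    obtain ⟨m, hm, hf⟩ := ih1 h.1
    obtain ⟨k, hk, hg⟩ := ih2 h.2
    refine ⟨m * k, Nat.mul_pos hm hk, (hf.mul k).and ?_⟩
    rw [Nat.mul_comm]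
    exact hg.mul m
  | or φ ψ ih1 ih2 =>
    intro h
    obtain ⟨m, hm, hf⟩ := ih1 h.1
    obtain ⟨k, hk, hg⟩ := ih2 h.2
    refine ⟨m * k, Nat.mul_pos hm hk, (hf.mul k).or ?_⟩
    rw [Nat.mul_comm]
    exact hg.mul m
  | ex t φ ih =>
    intro h
    obtain ⟨m, hm, hf⟩ := ih h.2
    exact fam_ex hm hf h.1 t
  | all t φ ih =>
    intro h
    obtain ⟨m, hm, hf⟩ := ih h.2
    obtain ⟨m', hm', hf'⟩ := fam_ex hm hf.neg (show (Fml.neg φ).Lin 0 from h.1) t
    refine ⟨m', hm', fun r => ?_⟩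
    obtain ⟨θ, h1, h2, h3⟩ := hf'.neg r
    refine ⟨θ, h1, h2, fun M q hq => ?_⟩
    rw [← h3 M q hq]
    simp only [Fml.holds]
    push Not
    rfl

section Split

variable {n : ℕ}

theorem e1d_false : E1D n (fun _ _ => False) :=
  (E1D.qf (.lt .zero .zero) (by trivial)).congr (fun M v _ => by
    simp only [Fml.holds]
    exact ⟨fun h => h.elim, fun h => absurd h (lt_irrefl _)⟩)

theorem e1d_true : E1D n (fun _ _ => True) :=
  (E1D.qf (.eq .zero .zero) (by trivial)).congr (fun M v _ => by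
    simp only [Fml.holds])

theorem e1d_exlt {P : ℕ → ∀ M : Mdl, (Fin n → M.R) → Prop} : ∀ (m : ℕ),
    (∀ c, c < m → E1D n (P c)) → E1D n (fun M v => ∃ c, c < m ∧ P c M v) := by
  intro m
  induction m with
  | zero => intro _; exact e1d_false.congr (fun M v _ => by simp)
  | succ m ih =>
    intro h
    refine ((ih fun c hc => h c (hc.trans (Nat.lt_succ_self m))).or (h m (Nat.lt_succ_self m))).congr
      (fun M v _ => ?_)
    constructor
    · rintro ⟨c, hc, hp⟩
      rcases Nat.lt_succ_iff_lt_or_eq.1 hc with h1 | h1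
      · exact Or.inl ⟨c, h1, hp⟩
      · exact Or.inr (h1 ▸ hp)
    · rintro (⟨c, hc, hp⟩ | hp)
      · exact ⟨c, hc.trans (Nat.lt_succ_self m), hp⟩
      · exact ⟨m, Nat.lt_succ_self m, hp⟩

theorem e1d_alllt {P : ℕ → ∀ M : Mdl, (Fin n → M.R) → Prop} : ∀ (m : ℕ),
    (∀ c, c < m → E1D n (P c)) → E1D n (fun M v => ∀ c, c < m → P c M v) := by
  intro m
  induction m with
  | zero => intro _; exact e1d_true.congr (fun M v _ => by simp)
  | succ m ih =>
    intro h
    refine ((ih fun c hc => h c (hc.trans (Nat.lt_succ_self m))).and (h m (Nat.lt_succ_self m))).congr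
      (fun M v _ => ?_)
    constructor
    · intro hp
      exact ⟨fun c hc => hp c (hc.trans (Nat.lt_succ_self m)), hp m (Nat.lt_succ_self m)⟩
    · rintro ⟨h1, h2⟩ c hc
      rcases Nat.lt_succ_iff_lt_or_eq.1 hc with h3 | h3
      · exact h1 c h3
      · exact h3 ▸ h2

/-- one variable may be replaced by its quotient modulo `m` -/
theorem e1d_single {m : ℕ} (hm : 0 < m) (i0 : Fin n) {P : ∀ M : Mdl, (Fin n → M.R) → Prop}
    (h : ∀ c, c < m → E1D n (fun M q => P M (Function.update q i0 ((m : M.R) * q i0 + (c : M.R))))) :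
    E1D n P := by
  let σ : Fin n → Tm (n + 1) := fun j => if j = i0 then .var 0 else .var j.succ
  have h1 : ∀ c, c < m → E1D n (fun M v => ∃ a : M.R, 0 ≤ a ∧ a ≤ (Tm.var i0).val v ∧
      ((Fml.eq (.add (nsm m (.var 0)) (nsm c .one)) (.var i0.succ) : Fml (n + 1)).holds
        (Fin.cons a v : Fin (n + 1) → M.R) ∧
      P M (Function.update (fun i => (σ i).val (Fin.cons a v : Fin (n + 1) → M.R)) i0
        ((m : M.R) * (σ i0).val (Fin.cons a v : Fin (n + 1) → M.R) + (c : M.R))))) :=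
    fun c hc => E1D.ex (.var i0) ((E1D.qf (.eq (.add (nsm m (.var 0)) (nsm c .one)) (.var i0.succ))
      (by trivial)).and ((h c hc).subst σ))
  refine (e1d_exlt m h1).congr (fun M v hv => ?_)
  have hσ : ∀ (a : M.R), (fun i => (σ i).val (Fin.cons a v : Fin (n + 1) → M.R)) =
      Function.update v i0 a := by
    intro a
    funext j
    by_cases hj : j = i0
    · subst hj
      simp [σ, Tm.val]
    · simp [σ, hj, Tm.val]
  have hup : ∀ (a : M.R) (c : ℕ), (Function.update (fun i => (σ i).val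
      (Fin.cons a v : Fin (n + 1) → M.R)) i0
        ((m : M.R) * (σ i0).val (Fin.cons a v : Fin (n + 1) → M.R) + (c : M.R))) =
      Function.update v i0 ((m : M.R) * a + (c : M.R)) := by
    intro a c
    rw [hσ]
    have : (σ i0).val (Fin.cons a v : Fin (n + 1) → M.R) = a := by simp [σ, Tm.val]
    rw [this, Function.update_idem]
  have heq : ∀ (a : M.R) (c : ℕ),
      ((Fml.eq (.add (nsm m (.var 0)) (nsm c .one)) (.var i0.succ) : Fml (n + 1)).holds
        (Fin.cons a v : Fin (n + 1) → M.R) ↔ (m : M.R) * a + (c : M.R) = v i0) := by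
    intro a c
    simp only [Fml.holds, Tm.val, val_nsm, mul_one]
    rfl
  constructor
  · intro hp
    obtain ⟨u, ρ, hu, hρ, he⟩ := M.div hm (hv i0)
    refine ⟨ρ, hρ, u, hu, ?_, (heq u ρ).2 he.symm, ?_⟩
    · show u ≤ v i0
      rw [he]
      have hmR : (1 : M.R) ≤ (m : M.R) := by exact_mod_cast hm
      have h5 : 1 * u ≤ (m : M.R) * u := mul_le_mul_of_nonneg_right hmR hu
      have h6 : (0 : M.R) ≤ (ρ : M.R) := Nat.cast_nonneg _
      linarith
    · rw [hup, ← he, Function.update_eq_self]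
      exact hp
  · rintro ⟨c, _, a, _, _, h2, h3⟩
    rw [heq] at h2
    rw [hup, h2, Function.update_eq_self] at h3
    exact h3

/-- all variables may be replaced by their quotients modulo `m` -/
theorem e1d_split {m : ℕ} (hm : 0 < m) {P : ∀ M : Mdl, (Fin n → M.R) → Prop}
    (h : ∀ b : Fin n → ℕ, (∀ i, b i < m) →
      E1D n (fun M q => P M (fun i => (m : M.R) * q i + (b i : M.R)))) : E1D n P := by
  have key : ∀ I : Finset (Fin n), (∀ b : Fin n → ℕ, (∀ i, b i < m) →
      E1D n (fun M q => P M (fun i => if i ∈ I then (m : M.R) * q i + (b i : M.R) else q i))) →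
      E1D n P := by
    intro I
    induction I using Finset.induction_on with
    | empty =>
      intro h1
      exact (h1 (fun _ => 0) (fun _ => hm)).congr (fun M v _ => by simp)
    | insert i0 I hi ih =>
      intro h1
      refine ih (fun b hb => e1d_single hm i0 (fun c hc => ?_))
      refine (h1 (Function.update b i0 c) (fun i => ?_)).congr (fun M q _ => ?_)
      · by_cases hii : i = i0
        · subst hii
          simpa using hc
        · simpa [hii] using hb i
      · have e : (fun i => if i ∈ I then (m : M.R) *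
            (Function.update q i0 ((m : M.R) * q i0 + (c : M.R))) i + (b i : M.R)
            else (Function.update q i0 ((m : M.R) * q i0 + (c : M.R))) i) =
            fun i => if i ∈ insert i0 I then (m : M.R) * q i +
              ((Function.update b i0 c i : ℕ) : M.R) else q i := by
          funext i
          by_cases hii : i = i0
          · subst hii
            simp [hi]
          · simp [hii]
        show P M _ ↔ P M _
        rw [e]
  refine key Finset.univ (fun b hb => (h b hb).congr (fun M q _ => by simp))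

end Split

section Last

variable {n : ℕ}

theorem additive_e1d {φ : Fml n} (h : φ.Additive) : E1D n (fun _ v => φ.holds v) := by
  obtain ⟨m, hm, hf⟩ := additive_fam φ h
  refine e1d_split hm (fun b _ => ?_)
  obtain ⟨θ, h1, _, h3⟩ := hf b
  exact (E1D.qf θ h1).congr (fun M q hq => h3 M q hq)

/-- one bounded universal quantifier before an additive formula -/
theorem all_additive (t : Tm n) {φ : Fml (n + 1)} (h : φ.Additive) :
    E1D n (fun M v => ∀ a : M.R, 0 ≤ a → a ≤ t.val v →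
      φ.holds (Fin.cons a v : Fin (n + 1) → M.R)) := by
  obtain ⟨m, hm, hf⟩ := additive_fam φ h
  refine e1d_split hm (fun b _ => ?_)
  choose Θ h1 _ h3 using hf
  have h4 : ∀ c, c < m → E1D n (fun M q => ∀ a : M.R, 0 ≤ a → a ≤ (t.subst (aff m b)).val q →
      (Fml.or (.neg (Fml.le (.add (nsm m (.var 0)) (nsm c .one)) ((t.subst (aff m b)).lift)))
        (Θ (Fin.cons c b)) : Fml (n + 1)).holds (Fin.cons a q : Fin (n + 1) → M.R)) :=
    fun c _ => all_qf _ _ ⟨⟨trivial, trivial⟩, h1 _⟩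
  refine (e1d_alllt m h4).congr (fun M q hq => ?_)
  have htv : (t.subst (aff m b)).val q = t.val (fun i => (m : M.R) * q i + (b i : M.R)) := by
    rw [Tm.val_subst, val_aff]
  have hcons : ∀ (u : M.R) (ρ : ℕ), (fun i => (m : M.R) * (Fin.cons u q : Fin (n + 1) → M.R) i +
      (((Fin.cons ρ b : Fin (n + 1) → ℕ) i : ℕ) : M.R)) =
      (Fin.cons ((m : M.R) * u + (ρ : M.R)) (fun i => (m : M.R) * q i + (b i : M.R)) :
        Fin (n + 1) → M.R) := by
    intro u ρ
    funext i
    refine Fin.cases ?_ (fun i => ?_) i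
    · rfl
    · rfl
  have hh : ∀ (u : M.R) (c : ℕ), 0 ≤ u → ((Fml.or (.neg (Fml.le (.add (nsm m (.var 0))
      (nsm c .one)) ((t.subst (aff m b)).lift))) (Θ (Fin.cons c b)) : Fml (n + 1)).holds
      (Fin.cons u q : Fin (n + 1) → M.R) ↔
      ((m : M.R) * u + (c : M.R) ≤ t.val (fun i => (m : M.R) * q i + (b i : M.R)) →
      φ.holds (Fin.cons ((m : M.R) * u + (c : M.R)) (fun i => (m : M.R) * q i + (b i : M.R)) :
        Fin (n + 1) → M.R))) := by
    intro u c hu
    show (¬ (Fml.le _ _ : Fml (n + 1)).holds _ ∨ (Θ (Fin.cons c b)).holds _) ↔ _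
    rw [Fml.holds_le, ← h3 (Fin.cons c b) M _ (cons_nonneg hu hq), hcons, Tm.val_lift, htv]
    simp only [Tm.val, val_nsm, mul_one]
    exact imp_iff_not_or.symm
  constructor
  · intro hp c _ a ha _
    rw [hh a c ha]
    intro hle
    exact hp _ (add_nonneg (mul_nonneg (Nat.cast_nonneg _) ha) (Nat.cast_nonneg _)) hle
  · intro hp z hz hzt
    obtain ⟨u, ρ, hu, hρ, he⟩ := M.div hm hz
    have h5 := hp ρ hρ u hu (by
      rw [htv]
      refine le_trans ?_ hzt
      rw [he]
      have hmR : (1 : M.R) ≤ (m : M.R) := by exact_mod_cast hm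
      have h5 : 1 * u ≤ (m : M.R) * u := mul_le_mul_of_nonneg_right hmR hu
      have h6 : (0 : M.R) ≤ (ρ : M.R) := Nat.cast_nonneg _
      linarith)
    rw [hh u ρ hu, ← he] at h5
    exact h5 hzt

end Last

theorem oneA_e1d {n : ℕ} {φ : Fml n} (h : OneA φ) :
    E1D n (fun _ v => φ.holds v) ∧ E1D n (fun _ v => ¬ φ.holds v) := by
  induction h with
  | @additive φ h => exact ⟨additive_e1d h, additive_e1d (φ := .neg φ) h⟩
  | neg _ ih => exact ⟨ih.2, ih.1.congr (fun M v _ => not_not)⟩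
  | and _ _ ih1 ih2 =>
    exact ⟨ih1.1.and ih2.1, (ih1.2.or ih2.2).congr (fun M v _ => not_and_or)⟩
  | or _ _ ih1 ih2 =>
    exact ⟨ih1.1.or ih2.1, (ih1.2.and ih2.2).congr (fun M v _ => not_or)⟩
  | @ex t φ h =>
    refine ⟨(additive_e1d h).ex t, (all_additive t (φ := .neg φ) h).congr (fun M v _ => ?_)⟩
    simp only [Fml.holds]
    push Not
    rfl
  | @all t φ h =>
    refine ⟨all_additive t h, ((additive_e1d (φ := .neg φ) h).ex t).congr (fun M v _ => ?_)⟩
    simp only [Fml.holds]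
    push Not
    rfl

theorem tame_e1d {n : ℕ} {φ : Fml n} (h : Tame φ) : E1D n (fun _ v => φ.holds v) := by
  induction h with
  | one h => exact (oneA_e1d h).1
  | and _ _ ih1 ih2 => exact ih1.and ih2
  | or _ _ ih1 ih2 => exact ih1.or ih2
  | ex t _ ih => exact ih.ex t

end Pool.Agent.H20.E1
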