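import Pool.Agent.H20.E1.Defs

set_option autoImplicit false

/-!
# Substitution, and relations which are uniformly `E_1`
-/

namespace Pool.Agent.H20.E1

variable {R : Type} [CommRing R] [LinearOrder R]

def Tm.subst {n m : ℕ} (σ : Fin n → Tm m) : Tm n → Tm m
  | .var i => σ i
  | .zero => .zero
  | .one => .one
  | .add s t => .add (s.subst σ) (t.subst σ)
  | .mul s t => .mul (s.subst σ) (t.subst σ)

theorem Tm.val_subst {n m : ℕ} (σ : Fin n → Tm m) (v : Fin m → R) (t : Tm n) :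
    (t.subst σ).val v = t.val (fun i => (σ i).val v) := by
  induction t with
  | var i => rfl
  | zero => rfl
  | one => rfl
  | add s t ihs iht => simp only [Tm.subst, Tm.val, ihs, iht]
  | mul s t ihs iht => simp only [Tm.subst, Tm.val, ihs, iht]

def Tm.lift {m : ℕ} (t : Tm m) : Tm (m + 1) := t.subst (fun i => .var i.succ)

theorem Tm.val_lift {m : ℕ} (t : Tm m) (a : R) (v : Fin m → R) :
    t.lift.val (Fin.cons a v : Fin (m + 1) → R) = t.val v := by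
  unfold Tm.lift
  rw [Tm.val_subst]
  rfl

/-- the substitution under a quantifier -/
def up {n m : ℕ} (σ : Fin n → Tm m) : Fin (n + 1) → Tm (m + 1) :=
  Fin.cons (.var 0) (fun i => (σ i).lift)

theorem val_up {n m : ℕ} (σ : Fin n → Tm m) (a : R) (v : Fin m → R) :
    (fun i => (up σ i).val (Fin.cons a v : Fin (m + 1) → R)) =
      (Fin.cons a (fun i => (σ i).val v) : Fin (n + 1) → R) := by
  funext i
  refine Fin.cases ?_ (fun i => ?_) i
  · rfl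
  · simp only [up, Fin.cons_succ]
    exact Tm.val_lift _ _ _

def Fml.subst : {n : ℕ} → Fml n → {m : ℕ} → (Fin n → Tm m) → Fml m
  | _, .lt s t, _, σ => .lt (s.subst σ) (t.subst σ)
  | _, .eq s t, _, σ => .eq (s.subst σ) (t.subst σ)
  | _, .neg φ, _, σ => .neg (φ.subst σ)
  | _, .and φ ψ, _, σ => .and (φ.subst σ) (ψ.subst σ)
  | _, .or φ ψ, _, σ => .or (φ.subst σ) (ψ.subst σ)
  | _, .ex t φ, _, σ => .ex (t.subst σ) (φ.subst (up σ))
  | _, .all t φ, _, σ => .all (t.subst σ) (φ.subst (up σ))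

theorem Fml.holds_subst {n : ℕ} (φ : Fml n) : ∀ {m : ℕ} (σ : Fin n → Tm m) (v : Fin m → R),
    (φ.subst σ).holds v ↔ φ.holds (fun i => (σ i).val v) := by
  induction φ with
  | lt s t => intro m σ v; simp only [Fml.subst, Fml.holds, Tm.val_subst]
  | eq s t => intro m σ v; simp only [Fml.subst, Fml.holds, Tm.val_subst]
  | neg φ ih => intro m σ v; simp only [Fml.subst, Fml.holds, ih]
  | and φ ψ ih1 ih2 => intro m σ v; simp only [Fml.subst, Fml.holds, ih1, ih2]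
  | or φ ψ ih1 ih2 => intro m σ v; simp only [Fml.subst, Fml.holds, ih1, ih2]
  | ex t φ ih => intro m σ v; simp only [Fml.subst, Fml.holds, ih, Tm.val_subst, val_up]
  | all t φ ih => intro m σ v; simp only [Fml.subst, Fml.holds, ih, Tm.val_subst, val_up]

theorem Fml.isQF_subst {n : ℕ} (φ : Fml n) : ∀ {m : ℕ} (σ : Fin n → Tm m), φ.IsQF →
    (φ.subst σ).IsQF := by
  induction φ with
  | lt s t => intro m σ h; trivial
  | eq s t => intro m σ h; trivial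
  | neg φ ih => intro m σ h; exact ih σ h
  | and φ ψ ih1 ih2 => intro m σ h; exact ⟨ih1 σ h.1, ih2 σ h.2⟩
  | or φ ψ ih1 ih2 => intro m σ h; exact ⟨ih1 σ h.1, ih2 σ h.2⟩
  | ex t φ ih => intro m σ h; exact h.elim
  | all t φ ih => intro m σ h; exact h.elim

theorem IsE1.subst {n : ℕ} {φ : Fml n} (h : IsE1 φ) : ∀ {m : ℕ} (σ : Fin n → Tm m),
    IsE1 (φ.subst σ) := by
  induction h with
  | qf h => intro m σ; exact .qf (Fml.isQF_subst _ σ h)
  | ex t _ ih => intro m σ; exact .ex _ (ih _)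

theorem Tm.val_nonneg [IsStrictOrderedRing R] {n : ℕ} (t : Tm n) (v : Fin n → R)
    (hv : ∀ i, 0 ≤ v i) : 0 ≤ t.val v := by
  induction t with
  | var i => exact hv i
  | zero => exact le_rfl
  | one => exact zero_le_one
  | add s t ihs iht => exact add_nonneg ihs iht
  | mul s t ihs iht => exact mul_nonneg ihs iht

def Fml.lift {n : ℕ} (φ : Fml n) : Fml (n + 1) := φ.subst (fun i => .var i.succ)

theorem Fml.holds_lift {n : ℕ} (φ : Fml n) (a : R) (v : Fin n → R) :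
    φ.lift.holds (Fin.cons a v : Fin (n + 1) → R) ↔ φ.holds v := by
  unfold Fml.lift
  rw [Fml.holds_subst]
  rfl

theorem cons_nonneg {n : ℕ} {a : R} {v : Fin n → R} (ha : 0 ≤ a) (hv : ∀ i, 0 ≤ v i) :
    ∀ i, 0 ≤ (Fin.cons a v : Fin (n + 1) → R) i := by
  intro i
  refine Fin.cases ?_ (fun i => ?_) i
  · simpa using ha
  · simpa using hv i

/-- models of `IOpen`, bundled -/
structure Mdl : Type 1 where
  R : Type
  [cr : CommRing R]
  [lo : LinearOrder R]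
  [so : IsStrictOrderedRing R]
  io : Model (fun _ φ => φ.IsQF) R

attribute [instance] Mdl.cr Mdl.lo Mdl.so

theorem qf_and {n : ℕ} {ψ : Fml n} (h : IsE1 ψ) : ∀ φ : Fml n, φ.IsQF → ∃ χ : Fml n, IsE1 χ ∧
    ∀ (M : Mdl) (v : Fin n → M.R), (∀ i, 0 ≤ v i) → (χ.holds v ↔ (φ.holds v ∧ ψ.holds v)) := by
  induction h with
  | @qf n ψ h =>
    intro φ hφ
    exact ⟨.and φ ψ, .qf (by exact ⟨hφ, h⟩), fun M v _ => by simp only [Fml.holds]⟩
  | ex t h ih =>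
    intro φ hφ
    obtain ⟨χ, h1, h2⟩ := ih φ.lift (Fml.isQF_subst _ _ hφ)
    refine ⟨.ex t χ, .ex t h1, fun M v hv => ?_⟩
    simp only [Fml.holds]
    constructor
    · rintro ⟨a, ha, hat, hx⟩
      rw [h2 M _ (cons_nonneg ha hv), Fml.holds_lift] at hx
      exact ⟨hx.1, a, ha, hat, hx.2⟩
    · rintro ⟨hx, a, ha, hat, hy⟩
      refine ⟨a, ha, hat, ?_⟩
      rw [h2 M _ (cons_nonneg ha hv), Fml.holds_lift]
      exact ⟨hx, hy⟩

theorem e1_and {n : ℕ} {φ : Fml n} (h : IsE1 φ) : ∀ ψ : Fml n, IsE1 ψ → ∃ χ : Fml n, IsE1 χ ∧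
    ∀ (M : Mdl) (v : Fin n → M.R), (∀ i, 0 ≤ v i) → (χ.holds v ↔ (φ.holds v ∧ ψ.holds v)) := by
  induction h with
  | qf h => exact fun ψ hψ => qf_and hψ _ h
  | ex t h ih =>
    intro ψ hψ
    obtain ⟨χ, h1, h2⟩ := ih ψ.lift (IsE1.subst hψ _)
    refine ⟨.ex t χ, .ex t h1, fun M v hv => ?_⟩
    simp only [Fml.holds]
    constructor
    · rintro ⟨a, ha, hat, hx⟩
      rw [h2 M _ (cons_nonneg ha hv), Fml.holds_lift] at hx
      exact ⟨⟨a, ha, hat, hx.1⟩, hx.2⟩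
    · rintro ⟨⟨a, ha, hat, hy⟩, hx⟩
      refine ⟨a, ha, hat, ?_⟩
      rw [h2 M _ (cons_nonneg ha hv), Fml.holds_lift]
      exact ⟨hy, hx⟩

theorem qf_or {n : ℕ} {ψ : Fml n} (h : IsE1 ψ) : ∀ φ : Fml n, φ.IsQF → ∃ χ : Fml n, IsE1 χ ∧
    ∀ (M : Mdl) (v : Fin n → M.R), (∀ i, 0 ≤ v i) → (χ.holds v ↔ (φ.holds v ∨ ψ.holds v)) := by
  induction h with
  | @qf n ψ h =>
    intro φ hφ
    exact ⟨.or φ ψ, .qf (by exact ⟨hφ, h⟩), fun M v _ => by simp only [Fml.holds]⟩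
  | ex t h ih =>
    intro φ hφ
    obtain ⟨χ, h1, h2⟩ := ih φ.lift (Fml.isQF_subst _ _ hφ)
    refine ⟨.ex t χ, .ex t h1, fun M v hv => ?_⟩
    simp only [Fml.holds]
    constructor
    · rintro ⟨a, ha, hat, hx⟩
      rw [h2 M _ (cons_nonneg ha hv), Fml.holds_lift] at hx
      rcases hx with hx | hx
      · exact Or.inl hx
      · exact Or.inr ⟨a, ha, hat, hx⟩
    · rintro (hx | ⟨a, ha, hat, hy⟩)
      · refine ⟨0, le_rfl, Tm.val_nonneg t v hv, ?_⟩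
        rw [h2 M _ (cons_nonneg le_rfl hv), Fml.holds_lift]
        exact Or.inl hx
      · refine ⟨a, ha, hat, ?_⟩
        rw [h2 M _ (cons_nonneg ha hv), Fml.holds_lift]
        exact Or.inr hy

theorem e1_or {n : ℕ} {φ : Fml n} (h : IsE1 φ) : ∀ ψ : Fml n, IsE1 ψ → ∃ χ : Fml n, IsE1 χ ∧
    ∀ (M : Mdl) (v : Fin n → M.R), (∀ i, 0 ≤ v i) → (χ.holds v ↔ (φ.holds v ∨ ψ.holds v)) := by
  induction h with
  | qf h => exact fun ψ hψ => qf_or hψ _ h
  | ex t h ih =>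
    intro ψ hψ
    obtain ⟨χ, h1, h2⟩ := ih ψ.lift (IsE1.subst hψ _)
    refine ⟨.ex t χ, .ex t h1, fun M v hv => ?_⟩
    simp only [Fml.holds]
    constructor
    · rintro ⟨a, ha, hat, hx⟩
      rw [h2 M _ (cons_nonneg ha hv), Fml.holds_lift] at hx
      rcases hx with hx | hx
      · exact Or.inl ⟨a, ha, hat, hx⟩
      · exact Or.inr hx
    · rintro (⟨a, ha, hat, hy⟩ | hx)
      · refine ⟨a, ha, hat, ?_⟩
        rw [h2 M _ (cons_nonneg ha hv), Fml.holds_lift]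
        exact Or.inl hy
      · refine ⟨0, le_rfl, Tm.val_nonneg t v hv, ?_⟩
        rw [h2 M _ (cons_nonneg le_rfl hv), Fml.holds_lift]
        exact Or.inr hx

/-- a relation on the non-negative parts of all models which is uniformly `E_1` -/
def E1D (n : ℕ) (P : ∀ M : Mdl, (Fin n → M.R) → Prop) : Prop :=
  ∃ ψ : Fml n, IsE1 ψ ∧ ∀ (M : Mdl) (v : Fin n → M.R), (∀ i, 0 ≤ v i) → (P M v ↔ ψ.holds v)

theorem E1D.congr {n : ℕ} {P Q : ∀ M : Mdl, (Fin n → M.R) → Prop} (h : E1D n P)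
    (hPQ : ∀ (M : Mdl) (v : Fin n → M.R), (∀ i, 0 ≤ v i) → (Q M v ↔ P M v)) : E1D n Q := by
  obtain ⟨ψ, h1, h2⟩ := h
  exact ⟨ψ, h1, fun M v hv => (hPQ M v hv).trans (h2 M v hv)⟩

theorem E1D.qf {n : ℕ} (φ : Fml n) (h : φ.IsQF) : E1D n (fun _ v => φ.holds v) :=
  ⟨φ, .qf h, fun _ _ _ => Iff.rfl⟩

theorem E1D.and {n : ℕ} {P Q : ∀ M : Mdl, (Fin n → M.R) → Prop} (h : E1D n P) (h' : E1D n Q) :
    E1D n (fun M v => P M v ∧ Q M v) := by
  obtain ⟨φ, h1, h2⟩ := h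
  obtain ⟨ψ, h3, h4⟩ := h'
  obtain ⟨χ, h5, h6⟩ := e1_and h1 ψ h3
  exact ⟨χ, h5, fun M v hv => by
    show _ ↔ _
    rw [h6 M v hv, ← h2 M v hv, ← h4 M v hv]⟩

theorem E1D.or {n : ℕ} {P Q : ∀ M : Mdl, (Fin n → M.R) → Prop} (h : E1D n P) (h' : E1D n Q) :
    E1D n (fun M v => P M v ∨ Q M v) := by
  obtain ⟨φ, h1, h2⟩ := h
  obtain ⟨ψ, h3, h4⟩ := h'
  obtain ⟨χ, h5, h6⟩ := e1_or h1 ψ h3
  exact ⟨χ, h5, fun M v hv => by
    show _ ↔ _
    rw [h6 M v hv, ← h2 M v hv, ← h4 M v hv]⟩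

theorem E1D.ex {n : ℕ} (t : Tm n) {P : ∀ M : Mdl, (Fin (n + 1) → M.R) → Prop}
    (h : E1D (n + 1) P) :
    E1D n (fun M v => ∃ a : M.R, 0 ≤ a ∧ a ≤ t.val v ∧ P M (Fin.cons a v)) := by
  obtain ⟨φ, h1, h2⟩ := h
  refine ⟨.ex t φ, .ex t h1, fun M v hv => ?_⟩
  simp only [Fml.holds]
  constructor
  · rintro ⟨a, ha, hat, hx⟩
    exact ⟨a, ha, hat, (h2 M _ (cons_nonneg ha hv)).1 hx⟩
  · rintro ⟨a, ha, hat, hx⟩
    exact ⟨a, ha, hat, (h2 M _ (cons_nonneg ha hv)).2 hx⟩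

theorem E1D.subst {n m : ℕ} {P : ∀ M : Mdl, (Fin n → M.R) → Prop} (h : E1D n P)
    (σ : Fin n → Tm m) : E1D m (fun M v => P M (fun i => (σ i).val v)) := by
  obtain ⟨φ, h1, h2⟩ := h
  refine ⟨φ.subst σ, h1.subst σ, fun M v hv => ?_⟩
  rw [Fml.holds_subst]
  exact h2 M _ (fun i => Tm.val_nonneg _ v hv)

end Pool.Agent.H20.E1
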